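import Pool.Agent.Helper59.MC.Sys
import Pool.Agent.Helper13.RM.FieldM

/-!
# The system of equations of a moduli space of configurations
-/

set_option autoImplicit false

namespace Pool.Agent.Helper59.MC

open Pool.Agent.Q324.SC Pool.Agent.Q324.SC.Idl MvPolynomial Pool.Agent.Helper13.RM
  Pool.Agent.Helper3.GU

/-- codes of configurations: the number of the free vectors, and the list of the ordered bases -/
abbrev Code : Type := ℕ × List (ℕ × ℕ × ℕ)

/-- the number of an element -/
def ix {m : ℕ} : Fin 4 ⊕ Fin m → ℕ := Sum.elim (fun a => a) fun k => k + 4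

/-- the numbers of the elements of a triple -/
def tx {m : ℕ} (t : Trip (Fin m)) : ℕ × ℕ × ℕ := (ix t.1, ix t.2.1, ix t.2.2)

/-- membership test -/
def mT (T : List (ℕ × ℕ × ℕ)) (t : ℕ × ℕ × ℕ) : Bool :=
  (T.map fun s => decide (s = t)).foldr (fun a b => a || b) false

lemma foldr_or {α : Type*} (L : List α) (f : α → Bool) :
    (L.map f).foldr (fun a b => a || b) false = true ↔ ∃ a ∈ L, f a = true := by
  induction L with
  | nil => simp
  | cons a L ih =>
    rw [List.map_cons, List.foldr_cons, Bool.or_eq_true, ih]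
    simp

lemma mT_iff (T : List (ℕ × ℕ × ℕ)) (t : ℕ × ℕ × ℕ) : mT T t = true ↔ t ∈ T := by
  unfold mT
  rw [foldr_or]
  simp

/-- the negative -/
def neg (p : Poly) : Poly := mul [(-1, [])] p

/-- the coordinate `c` of the vector with the number `a` -/
def co (a c : ℕ) : Poly :=
  bif decide (4 ≤ a) then [(1, [3 * (a - 4) + c])]
  else bif decide (a = 3) then [(1, [])]
  else bif decide (a = c) then [(1, [])] else []

/-- the determinant of three vectors -/
def dp (a b c : ℕ) : Poly :=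
  mul (co a 0) (mul (co b 1) (co c 2) ++ neg (mul (co b 2) (co c 1))) ++
  neg (mul (co a 1) (mul (co b 0) (co c 2) ++ neg (mul (co b 2) (co c 0)))) ++
  mul (co a 2) (mul (co b 0) (co c 1) ++ neg (mul (co b 1) (co c 0)))

/-- all triples of numbers less than `m + 4` -/
def allT (m : ℕ) : List (ℕ × ℕ × ℕ) :=
  (List.range (m + 4)).flatMap fun a => (List.range (m + 4)).flatMap fun b =>
    (List.range (m + 4)).map fun c => (a, b, c)

/-- the index of the last coordinate that is not zero -/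
def lx (T : List (ℕ × ℕ × ℕ)) (a : ℕ) : ℕ :=
  bif mT T (0, 1, a) then 2 else bif mT T (0, 2, a) then 1 else 0

/-- the product of the determinants in `T` -/
def prp (m : ℕ) (T : List (ℕ × ℕ × ℕ)) : Poly :=
  ((allT m).map fun t => bif mT T t then dp t.1 t.2.1 t.2.2 else [(1, [])]).foldr mul [(1, [])]

/-- The system of equations for the moduli space of the configurations with a given code. -/
def conf (w : Code) : List Poly :=
  ((allT w.1).map fun t => bif mT w.2 t then [] else dp t.1 t.2.1 t.2.2) ++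
  ((List.range w.1).map fun k => co (k + 4) (lx w.2 (k + 4)) ++ [(-1, [])]) ++
  [mul [(1, [3 * w.1])] (prp w.1 w.2) ++ [(-1, [])]]

/-- the number of the variables -/
def nv (m : ℕ) : ℕ := 3 * m + 1

section

variable {C D : Type*} [CommRing C] [CommRing D] {m : ℕ}

lemma ev_neg (u : ℕ → C) (p : Poly) : ev u (neg p) = -ev u p := by
  rw [neg, ev_mul, ev_cons, ev_nil]
  simp

/-- the vectors of a solution -/
def vq (u : Fin (nv m) → C) (k : Fin m) (c : Fin 3) : C :=
  u ⟨3 * k + c, by have := k.2; have := c.2; unfold nv; omega⟩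

/-- the last variable -/
def vz (u : Fin (nv m) → C) : C := u ⟨3 * m, by unfold nv; omega⟩

end

section

variable {C : Type} [CommRing C] {m : ℕ}

lemma ev_co (u : Fin (nv m) → C) (a : Fin 4 ⊕ Fin m) (c : Fin 3) :
    ev (V (nv m) u) (co (ix a) c) = vecs (vq u) a c := by
  rcases a with a | k
  · have h1 : ¬ (4 ≤ (a : ℕ)) := by have := a.2; omega
    have h2 : ix (m := m) (Sum.inl a) = a := rfl
    rw [h2, co]
    simp only [h1, decide_false, cond_false]
    fin_cases a <;> fin_cases c <;> simp [vecs, frame, ev]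
  · have h2 : ix (m := m) (Sum.inr k) = k + 4 := rfl
    have h3 : 3 * (k : ℕ) + c < nv m := by have := k.2; have := c.2; unfold nv; omega
    rw [h2, co]
    have h4 : 4 ≤ (k : ℕ) + 4 := by omega
    simp only [h4, decide_true, cond_true]
    rw [ev_cons, ev_nil, Nat.add_sub_cancel]
    simp only [List.map_cons, List.map_nil, List.prod_cons, List.prod_nil, mul_one, add_zero,
      Int.cast_one, one_mul]
    rw [V_lt h3]
    rfl

lemma ev_dp (u : Fin (nv m) → C) (t : Trip (Fin m)) :
    ev (V (nv m) u) (dp (tx t).1 (tx t).2.1 (tx t).2.2) = dt (vq u) t := by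
  obtain ⟨a, b, c⟩ := t
  have h0 := fun a => ev_co u a 0
  have h1 := fun a => ev_co u a 1
  have h2 := fun a => ev_co u a 2
  simp only [Fin.val_zero, Fin.val_one, Fin.val_two] at h0 h1 h2
  rw [dt_eq]
  simp only [dp, tx, ev_append, ev_mul, ev_neg, h0, h1, h2]
  ring

lemma mem_allT {m : ℕ} {s : ℕ × ℕ × ℕ} : s ∈ allT m ↔ ∃ t : Trip (Fin m), tx t = s := by
  have key : ∀ a : ℕ, a < m + 4 ↔ ∃ x : Fin 4 ⊕ Fin m, ix x = a := by
    intro a
    constructor
    · intro h
      by_cases h1 : a < 4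
      · exact ⟨Sum.inl ⟨a, h1⟩, rfl⟩
      · exact ⟨Sum.inr ⟨a - 4, by omega⟩, by change a - 4 + 4 = a; omega⟩
    · rintro ⟨x | x, rfl⟩
      · change (x : ℕ) < _
        omega
      · change (x : ℕ) + 4 < _
        omega
  obtain ⟨a, b, c⟩ := s
  unfold allT
  simp only [List.mem_flatMap, List.mem_map, List.mem_range, Prod.mk.injEq]
  constructor
  · rintro ⟨a', ha, b', hb, c', hc, rfl, rfl, rfl⟩
    obtain ⟨x, rfl⟩ := (key a').1 ha
    obtain ⟨y, rfl⟩ := (key b').1 hb
    obtain ⟨z, rfl⟩ := (key c').1 hc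
    exact ⟨(x, y, z), rfl⟩
  · rintro ⟨⟨x, y, z⟩, h⟩
    rw [tx, Prod.mk.injEq, Prod.mk.injEq] at h
    obtain ⟨rfl, rfl, rfl⟩ := h
    exact ⟨_, (key _).2 ⟨x, rfl⟩, _, (key _).2 ⟨y, rfl⟩, _, (key _).2 ⟨z, rfl⟩, rfl, rfl, rfl⟩

/-- the set of the triples in the list -/
def TS (m : ℕ) (T : List (ℕ × ℕ × ℕ)) : Set (Trip (Fin m)) := {t | tx t ∈ T}

lemma ev_one (u : ℕ → C) : ev u [(1, [])] = 1 := by simp [ev]

lemma ev_prod (u : ℕ → C) (L : List Poly) : ev u (L.foldr mul [(1, [])]) = (L.map (ev u)).prod := by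
  induction L with
  | nil => simp [ev]
  | cons p L ih =>
    rw [List.foldr_cons, ev_mul, ih, List.map_cons, List.prod_cons]

lemma isUnit_prp (u : Fin (nv m) → C) (T : List (ℕ × ℕ × ℕ)) :
    IsUnit (ev (V (nv m) u) (prp m T)) ↔ ∀ t ∈ TS m T, IsUnit (dt (vq u) t) := by
  rw [prp, ev_prod, List.map_map, List.prod_isUnit_iff]
  constructor
  · intro h t ht
    have h1 := h _ (List.mem_map_of_mem (mem_allT.2 ⟨t, rfl⟩))
    have h2 : mT T (tx t) = true := (mT_iff _ _).2 ht
    rw [Function.comp_apply, h2, cond_true, ev_dp] at h1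
    exact h1
  · intro h x hx
    obtain ⟨s, hs, rfl⟩ := List.mem_map.1 hx
    obtain ⟨t, rfl⟩ := mem_allT.1 hs
    rw [Function.comp_apply]
    by_cases h2 : mT T (tx t) = true
    · rw [h2, cond_true, ev_dp]
      exact h t ((mT_iff _ _).1 h2)
    · rw [Bool.not_eq_true] at h2
      rw [h2, cond_false, ev_one]
      exact isUnit_one

lemma lx_eq (T : List (ℕ × ℕ × ℕ)) (x : Fin 4 ⊕ Fin m) : lx T (ix x) = (lastX (TS m T) x : ℕ) := by
  classical
  have h1 : (Sum.inl 0, Sum.inl 1, x) ∈ TS m T ↔ mT T (0, 1, ix x) = true := by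
    rw [mT_iff]
    rfl
  have h2 : (Sum.inl 0, Sum.inl 2, x) ∈ TS m T ↔ mT T (0, 2, ix x) = true := by
    rw [mT_iff]
    rfl
  unfold lx lastX
  simp only [h1, h2]
  cases mT T (0, 1, ix x) <;> cases mT T (0, 2, ix x) <;> simp

/-- **The solutions** of the system. -/
lemma sol_conf {T : List (ℕ × ℕ × ℕ)} {u : Fin (nv m) → C} : Sol (nv m) (conf (m, T)) u ↔
    (Cond (TS m T) (vq u) ∧ ∀ k, vq u k (lastX (TS m T) (Sum.inr k)) = 1) ∧
      vz u * ev (V (nv m) u) (prp m T) = 1 := by
  unfold conf Sol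
  simp only [List.mem_append, or_imp, forall_and, List.mem_map, forall_exists_index, and_imp,
    forall_apply_eq_imp_iff₂, List.mem_range, List.mem_singleton, forall_eq]
  have h1 : (∀ s ∈ allT m, ev (V (nv m) u) (bif mT T s then [] else dp s.1 s.2.1 s.2.2) = 0) ↔
      ∀ t ∈ (TS m T)ᶜ, dt (vq u) t = 0 := by
    constructor
    · intro h t ht
      have h2 := h _ (mem_allT.2 ⟨t, rfl⟩)
      have h3 : mT T (tx t) = false := by
        rw [← Bool.not_eq_true, mT_iff]
        exact ht
      rwa [h3, cond_false, ev_dp] at h2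
    · intro h s hs
      obtain ⟨t, rfl⟩ := mem_allT.1 hs
      by_cases h2 : mT T (tx t) = true
      · rw [h2, cond_true, ev_nil]
      · rw [Bool.not_eq_true] at h2
        rw [h2, cond_false, ev_dp]
        refine h t fun h3 => ?_
        rw [(mT_iff _ _).2 h3] at h2
        exact Bool.noConfusion h2
  have h2 : (∀ k < m, ev (V (nv m) u) (co (k + 4) (lx T (k + 4)) ++ [(-1, [])]) = 0) ↔
      ∀ k, vq u k (lastX (TS m T) (Sum.inr k)) = 1 := by
    have h3 : ∀ k : Fin m, ev (V (nv m) u) (co ((k : ℕ) + 4) (lx T ((k : ℕ) + 4)) ++ [(-1, [])]) =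
        vq u k (lastX (TS m T) (Sum.inr k)) - 1 := by
      intro k
      have h4 : lx T ((k : ℕ) + 4) = (lastX (TS m T) (Sum.inr k) : ℕ) := lx_eq T (Sum.inr k)
      rw [h4, ev_append]
      have h5 := ev_co u (Sum.inr k) (lastX (TS m T) (Sum.inr k))
      have h6 : ix (m := m) (Sum.inr k) = k + 4 := rfl
      rw [h6] at h5
      rw [h5]
      simp [ev, vecs]
      ring
    constructor
    · intro h k
      have := h k k.2
      rw [h3] at this
      exact sub_eq_zero.mp this
    · intro h k hk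
      rw [h3 ⟨k, hk⟩, h ⟨k, hk⟩, sub_self]
  have h3 : ev (V (nv m) u) (mul [(1, [3 * m])] (prp m T) ++ [(-1, [])]) =
      vz u * ev (V (nv m) u) (prp m T) - 1 := by
    have h4 : 3 * m < nv m := by unfold nv; omega
    rw [ev_append, ev_mul, ev_cons, ev_nil, ev_cons, ev_nil]
    simp only [List.map_cons, List.map_nil, List.prod_cons, List.prod_nil, mul_one, add_zero,
      Int.cast_one, one_mul, Int.cast_neg]
    rw [V_lt h4]
    unfold vz
    ring
  rw [h1, h2, h3]
  unfold Cond
  constructor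
  · rintro ⟨⟨h4, h5⟩, h6⟩
    have h7 := sub_eq_zero.mp h6
    exact ⟨⟨⟨h4, (isUnit_prp u T).1 (IsUnit.of_mul_eq_one _ (by rw [mul_comm]; exact h7))⟩, h5⟩, h7⟩
  · rintro ⟨⟨⟨h4, h5⟩, h6⟩, h7⟩
    exact ⟨⟨h4, h6⟩, sub_eq_zero.mpr h7⟩

end

end Pool.Agent.Helper59.MC
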