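import Pool.Agent.Helper59.MC.Comp
import Pool.Agent.Helper59.MC.Conf

/-!
# Components of systems and of moduli spaces
-/

set_option autoImplicit false

namespace Pool.Agent.Helper59.MC

open Pool.Agent.Q324.SC Pool.Agent.Q324.SC.Idl MvPolynomial Pool.Agent.Helper13.RM
  Pool.Agent.Helper3.GU

lemma Comp.congr {K K' L L' : Type} [Field K] [Field K'] [Field L] [Field L'] [Algebra Qb L]
    [Algebra Qb L'] (h : Comp K L) (e : K ≃+* K') (e' : L ≃ₐ[Qb] L') : Comp K' L' := by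
  obtain ⟨φ, hφ⟩ := h
  refine ⟨((e' : L ≃+* L') : L →+* L').comp (φ.comp (e.symm : K' →+* K)), ?_⟩
  have h1 : Set.range (((e' : L ≃+* L') : L →+* L').comp (φ.comp (e.symm : K' →+* K))) =
      (e' : L →ₐ[Qb] L') '' Set.range φ := by
    ext x
    constructor
    · rintro ⟨k, rfl⟩
      exact ⟨φ (e.symm k), ⟨_, rfl⟩, rfl⟩
    · rintro ⟨_, ⟨k, rfl⟩, rfl⟩
      exact ⟨e k, by simp⟩
  rw [h1, ← IntermediateField.adjoin_map, hφ, ← AlgHom.fieldRange_eq_map, AlgHom.fieldRange_eq_top]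
  exact e'.surjective

lemma frac_congr {A B : Type} [CommRing A] [CommRing B] [IsDomain A] [IsDomain B] [Algebra Qb A]
    [Algebra Qb B] (e : A ≃ₐ[Qb] B) : Nonempty (FractionRing A ≃ₐ[Qb] FractionRing B) :=
  ⟨IsFractionRing.algEquivOfAlgEquiv e⟩

/-! ### Representable functors -/

section

variable {F : PF} {A A' : Type} [CommRing A] [Algebra ℚ A] [CommRing A'] [Algebra Qb A']

/-- Base change of the algebra that represents a functor. -/
lemma bc_of_rep {b : F.pts A} {b' : F.pts A'} (h : IsRep ℚ F A b) (h' : IsRep Qb F A' b') :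
    ∃ i : A →+* A', BC i := by
  let _ : Algebra ℚ A' := Algebra.compHom A' (algebraMap ℚ Qb)
  have hT : IsScalarTower ℚ Qb A' := IsScalarTower.of_algebraMap_eq fun _ => rfl
  obtain ⟨i, hi, -⟩ := h A' b'
  refine ⟨i, ?_, ?_⟩
  · let T : Subalgebra Qb A' := Algebra.adjoin Qb (Set.range (i : A →+* A'))
    let iT : A →+* T := (i : A →+* A').codRestrict T fun a => Algebra.subset_adjoin ⟨a, rfl⟩
    obtain ⟨Φ, hΦ, -⟩ := h' T (F.map iT b)
    have h1 : T.val.comp Φ = AlgHom.id Qb A' := by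
      refine (h' A' b').unique ?_ (F.map_id b')
      change F.map ((T.val : T →+* A').comp (Φ : A' →+* T)) b' = b'
      rw [F.map_comp, hΦ, ← F.map_comp]
      exact hi
    rw [eq_top_iff]
    rintro x -
    have h2 := DFunLike.congr_fun h1 x
    change ((Φ x : T) : A') = x at h2
    rw [← h2]
    exact (Φ x).2
  · intro C _ _ φ
    obtain ⟨Φ, hΦ, -⟩ := h' C (F.map φ b)
    refine ⟨Φ, fun a => ?_⟩
    let _ : Algebra ℚ C := Algebra.compHom C (algebraMap ℚ Qb)
    have h3 : (((Φ : A' →+* C).comp (i : A →+* A')).toRatAlgHom) = φ.toRatAlgHom := by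
      refine (h C (F.map φ b)).unique ?_ rfl
      change F.map ((Φ : A' →+* C).comp (i : A →+* A')) b = _
      rw [F.map_comp, hi, hΦ]
    exact DFunLike.congr_fun h3 a

/-- Base change for the moduli spaces of configurations. -/
lemma bc_mod {m : ℕ} (T : Set (Trip (Fin m))) :
    ∃ i : Localization.Away (modD ℚ T) →+* Localization.Away (modD Qb T), BC i := by
  obtain ⟨b, hb⟩ := rep_modT (R := ℚ) T
  obtain ⟨b', hb'⟩ := rep_modT (R := Qb) T
  exact bc_of_rep hb hb'

end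

/-! ### Ideals -/

section

variable {n : ℕ}

/-- The extension of an ideal to the algebraic numbers. -/
noncomputable abbrev ext (J : Ideal (MvPolynomial (Fin n) ℚ)) : Ideal (MvPolynomial (Fin n) Qb) :=
  J.map (MvPolynomial.map (algebraMap ℚ Qb))

lemma bc_quot (J : Ideal (MvPolynomial (Fin n) ℚ)) :
    ∃ i : (MvPolynomial (Fin n) ℚ ⧸ J) →+* (MvPolynomial (Fin n) Qb ⧸ ext J), BC i := by
  let i : (MvPolynomial (Fin n) ℚ ⧸ J) →+* (MvPolynomial (Fin n) Qb ⧸ ext J) :=
    Ideal.quotientMap (ext J) (MvPolynomial.map (algebraMap ℚ Qb)) Ideal.le_comap_map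
  refine ⟨i, ?_, ?_⟩
  · have h1 : (Algebra.adjoin Qb (Set.range (X : Fin n → MvPolynomial (Fin n) Qb))).map
        (Ideal.Quotient.mkₐ Qb (ext J)) ≤ Algebra.adjoin Qb (Set.range i) := by
      rw [AlgHom.map_adjoin]
      refine Algebra.adjoin_mono ?_
      rintro _ ⟨_, ⟨j, rfl⟩, rfl⟩
      refine ⟨Ideal.Quotient.mk J (X j), ?_⟩
      change Ideal.Quotient.mk (ext J) (MvPolynomial.map (algebraMap ℚ Qb) (X j)) = _
      rw [map_X]
      rfl
    rw [MvPolynomial.adjoin_range_X, Algebra.map_top, (AlgHom.range_eq_top _).2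
      (Ideal.Quotient.mkₐ_surjective Qb (ext J))] at h1
    exact eq_top_iff.2 h1
  · intro B _ _ φ
    let u : Fin n → B := fun j => φ (Ideal.Quotient.mk J (X j))
    have h1 : ∀ a : MvPolynomial (Fin n) ℚ, aeval u (MvPolynomial.map (algebraMap ℚ Qb) a) =
        φ (Ideal.Quotient.mk J a) := by
      intro a
      have h2 : ((aeval u : MvPolynomial (Fin n) Qb →ₐ[Qb] B) : MvPolynomial (Fin n) Qb →+* B).comp
          (MvPolynomial.map (algebraMap ℚ Qb)) = φ.comp (Ideal.Quotient.mk J) := by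
        apply MvPolynomial.ringHom_ext
        · intro r
          have h4 : (((aeval u : MvPolynomial (Fin n) Qb →ₐ[Qb] B) :
            MvPolynomial (Fin n) Qb →+* B).comp (MvPolynomial.map (algebraMap ℚ Qb))).comp C =
            (φ.comp (Ideal.Quotient.mk J)).comp C := Subsingleton.elim _ _
          exact DFunLike.congr_fun h4 r
        · intro j
          simp [u]
      exact DFunLike.congr_fun h2 a
    have h3 : ext J ≤ RingHom.ker (aeval u : MvPolynomial (Fin n) Qb →ₐ[Qb] B) := by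
      rw [Ideal.map_le_iff_le_comap]
      intro a ha
      change aeval u (MvPolynomial.map (algebraMap ℚ Qb) a) = 0
      rw [h1, Ideal.Quotient.eq_zero_iff_mem.2 ha, map_zero]
    refine ⟨Ideal.Quotient.liftₐ (ext J) (aeval u) fun a ha => h3 ha, fun a => ?_⟩
    obtain ⟨a, rfl⟩ := Ideal.Quotient.mk_surjective a
    exact h1 a

/-- the quotients by the preimage of an ideal -/
lemma quot_comap (I : Ideal (MvPolynomial (Fin n) Qb)) (q : Ideal (MvPolynomial (Fin n) Qb ⧸ I)) :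
    Nonempty ((MvPolynomial (Fin n) Qb ⧸ q.comap (Ideal.Quotient.mk I)) ≃ₐ[Qb]
      ((MvPolynomial (Fin n) Qb ⧸ I) ⧸ q)) := by
  let f : MvPolynomial (Fin n) Qb →ₐ[Qb] ((MvPolynomial (Fin n) Qb ⧸ I) ⧸ q) :=
    (Ideal.Quotient.mkₐ Qb q).comp (Ideal.Quotient.mkₐ Qb I)
  have hf : Function.Surjective f :=
    (Ideal.Quotient.mkₐ_surjective Qb q).comp (Ideal.Quotient.mkₐ_surjective Qb I)
  have hk : RingHom.ker f = q.comap (Ideal.Quotient.mk I) := by
    ext x
    rw [RingHom.mem_ker, Ideal.mem_comap]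
    exact Ideal.Quotient.eq_zero_iff_mem
  exact ⟨(Ideal.quotientEquivAlgOfEq Qb hk.symm).trans
    (Ideal.quotientKerAlgEquivOfSurjective hf)⟩

variable {J : Ideal (MvPolynomial (Fin n) ℚ)}

/-- The function fields of the components of the zero set of a prime ideal over `ℚ`. -/
lemma comp_of_comp [hJ : J.IsPrime] {P : Ideal (MvPolynomial (Fin n) Qb)} [P.IsPrime]
    (hP : P ∈ (ext J).minimalPrimes) : Comp (FractionRing (MvPolynomial (Fin n) ℚ ⧸ J))
      (FractionRing (MvPolynomial (Fin n) Qb ⧸ P)) := by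
  obtain ⟨i, hi⟩ := bc_quot J
  rw [Ideal.minimalPrimes_eq_comap] at hP
  obtain ⟨q, hq, rfl⟩ := hP
  have hqp : q.IsPrime := hq.1.1
  obtain ⟨e⟩ := quot_comap (ext J) q
  have h1 := hi.comp_of_minimal hq (FractionRing (MvPolynomial (Fin n) ℚ ⧸ J))
    (FractionRing ((MvPolynomial (Fin n) Qb ⧸ ext J) ⧸ q))
  obtain ⟨e'⟩ := frac_congr (A := MvPolynomial (Fin n) Qb ⧸ q.comap (Ideal.Quotient.mk (ext J)))
    (B := (MvPolynomial (Fin n) Qb ⧸ ext J) ⧸ q) e
  exact h1.congr (RingEquiv.refl _) e'.symm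

lemma exists_component [hJ : J.IsPrime] {L : Type} [Field L] [Algebra Qb L]
    (hL : Comp (FractionRing (MvPolynomial (Fin n) ℚ ⧸ J)) L) :
    ∃ P ∈ (ext J).minimalPrimes, Nonempty (FractionRing (MvPolynomial (Fin n) Qb ⧸ P) ≃ₐ[Qb] L) := by
  obtain ⟨i, hi⟩ := bc_quot J
  obtain ⟨q, hq, ⟨e⟩⟩ := hi.minimal_of_comp (FractionRing (MvPolynomial (Fin n) ℚ ⧸ J)) L hL
  refine ⟨q.comap (Ideal.Quotient.mk (ext J)), ?_, ?_⟩
  · rw [Ideal.minimalPrimes_eq_comap]
    exact ⟨q, hq, rfl⟩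
  · have hqp : q.IsPrime := hq.1.1
    have hqp' : (q.comap (Ideal.Quotient.mk (ext J))).IsPrime := inferInstance
    obtain ⟨e'⟩ := quot_comap (ext J) q
    obtain ⟨e2⟩ := frac_congr
      (A := MvPolynomial (Fin n) Qb ⧸ q.comap (Ideal.Quotient.mk (ext J)))
      (B := (MvPolynomial (Fin n) Qb ⧸ ext J) ⧸ q) e'
    exact ⟨e2.trans e⟩

end

section

variable {m : ℕ} (T : Set (Trip (Fin m)))

/-- The ring of the moduli space. -/
noncomputable abbrev MR (R : Type) [CommRing R] {m : ℕ} (T : Set (Trip (Fin m))) : Type :=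
  Localization.Away (modD R T)

/-- The function fields of the components of a moduli space over `ℚ̄`. -/
lemma comp_of_mod [hJ : IsDomain (MR ℚ T)] {q : Ideal (MR Qb T)} [q.IsPrime]
    (hq : q ∈ minimalPrimes (MR Qb T)) : Comp (FractionRing (MR ℚ T)) (FractionRing (MR Qb T ⧸ q)) := by
  obtain ⟨i, hi⟩ := bc_mod T
  exact hi.comp_of_minimal hq _ _

lemma exists_mod [hJ : IsDomain (MR ℚ T)] {L : Type} [Field L] [Algebra Qb L]
    (hL : Comp (FractionRing (MR ℚ T)) L) :
    ∃ q ∈ minimalPrimes (MR Qb T), Nonempty (FractionRing (MR Qb T ⧸ q) ≃ₐ[Qb] L) := by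
  obtain ⟨i, hi⟩ := bc_mod T
  exact hi.minimal_of_comp _ L hL

end

end Pool.Agent.Helper59.MC
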