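import Pool.Agent.Helper59.MC.Comp

/-!
# The components are conjugate
-/

set_option autoImplicit false

namespace Pool.Agent.Helper59.MC

/-- The fields over `Qb` are isomorphic up to an automorphism of `Qb`. -/
def Conj (L L' : Type) [Field L] [Field L'] [Algebra Qb L] [Algebra Qb L'] : Prop :=
  ∃ (σ : Qb ≃+* Qb) (e : L ≃+* L'), ∀ a, e (algebraMap Qb L a) = algebraMap Qb L' (σ a)

lemma Conj.symm {L L' : Type} [Field L] [Field L'] [Algebra Qb L] [Algebra Qb L']
    (h : Conj L L') : Conj L' L := by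
  obtain ⟨σ, e, he⟩ := h
  refine ⟨σ.symm, e.symm, fun a => ?_⟩
  rw [RingEquiv.symm_apply_eq, he, RingEquiv.apply_symm_apply]

lemma equiv_of_range {A B W : Type} [Field A] [Field B] [Field W] [Algebra ℚ A] [Algebra ℚ B]
    [Algebra ℚ W] (f : A →+* W) (g : B →+* W) (h : Set.range f = Set.range g) :
    ∃ e : A ≃+* B, ∀ a, g (e a) = f a := by
  let f' : A →ₐ[ℚ] W := f.toRatAlgHom
  let g' : B →ₐ[ℚ] W := g.toRatAlgHom
  have hr : f'.range = g'.range := SetLike.coe_injective h
  let e1 : A ≃ₐ[ℚ] f'.range := AlgEquiv.ofInjective f' f.injective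
  let e2 : B ≃ₐ[ℚ] g'.range := AlgEquiv.ofInjective g' g.injective
  let e3 : f'.range ≃ₐ[ℚ] g'.range := Subalgebra.equivOfEq _ _ hr
  refine ⟨((e1.trans e3).trans e2.symm).toRingEquiv, fun a => ?_⟩
  have h1 : ∀ b, ((e2 b : g'.range) : W) = g b := fun b => rfl
  have h2 : e2 (e2.symm (e3 (e1 a))) = e3 (e1 a) := e2.apply_symm_apply _
  change g (e2.symm (e3 (e1 a))) = f a
  rw [← h1, h2]
  rfl

lemma mem_range_of_alg {W : Type} [Field W] [Algebra ℚ W] (g : Qb →+* W) {z : W}
    (hz : IsIntegral ℚ z) : z ∈ Set.range g := by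
  have h1 := hz.mem_range_algHom_of_minpoly_splits (K := Qb) (IsAlgClosed.splits _) g.toRatAlgHom
  exact h1

lemma alg_of_mem_range {W : Type} [Field W] [Algebra ℚ W] (g : Qb →+* W) (a : Qb) :
    IsIntegral ℚ (g a) := by
  have h1 : IsIntegral ℚ a := (AlgebraicClosure.isAlgebraic ℚ).isIntegral.isIntegral a
  exact h1.map g.toRatAlgHom

lemma range_eq_alg {W : Type} [Field W] [Algebra ℚ W] (g : Qb →+* W) :
    Set.range g = {z | IsIntegral ℚ z} := by
  ext z
  constructor
  · rintro ⟨a, rfl⟩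
    exact alg_of_mem_range g a
  · exact mem_range_of_alg g

section

variable {K L L' : Type} [Field K] [Field L] [Field L'] [Algebra Qb L] [Algebra Qb L']

/-- **All components are conjugate.** -/
theorem conj_of_comp (h : Comp K L) (h' : Comp K L') : Conj L L' := by
  obtain ⟨φ, hφ⟩ := h
  obtain ⟨φ', hφ'⟩ := h'
  have i1 : CharZero L := charZero_of_injective_algebraMap (algebraMap Qb L).injective
  have i2 : CharZero L' := charZero_of_injective_algebraMap (algebraMap Qb L').injective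
  have i3 : CharZero K := (RingHom.charZero_iff φ.injective).2 i1
  let W := AlgebraicClosure L'
  have i4 : CharZero W := charZero_of_injective_algebraMap (algebraMap L' W).injective
  let _ : Algebra ℚ K := DivisionRing.toRatAlgebra
  let _ : Algebra ℚ L := DivisionRing.toRatAlgebra
  let _ : Algebra ℚ L' := DivisionRing.toRatAlgebra
  let _ : Algebra ℚ W := DivisionRing.toRatAlgebra
  let ψ : K →+* W := (algebraMap L' W).comp φ'
  obtain ⟨ι, hι⟩ : ∃ ι : L →+* W, ∀ k, ι (φ k) = ψ k := by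
    let _ : Algebra K L := φ.toAlgebra
    let _ : Algebra K W := ψ.toAlgebra
    have h1 : Algebra.IsAlgebraic K L := by
      let M : Subfield L := (algebraicClosure K L).toSubfield
      have hM : ∀ a : Qb, algebraMap Qb L a ∈ M := by
        intro a
        have h2 := alg_of_mem_range (algebraMap Qb L) a
        have h3 : IsIntegral K (algebraMap Qb L a) := h2.tower_top
        exact mem_algebraicClosure_iff.2 h3.isAlgebraic
      let M' : IntermediateField Qb L := Subfield.toIntermediateField M hM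
      have h2 : (⊤ : IntermediateField Qb L) ≤ M' := by
        rw [← hφ, IntermediateField.adjoin_le_iff]
        rintro _ ⟨k, rfl⟩
        change φ k ∈ algebraicClosure K L
        exact (algebraicClosure K L).algebraMap_mem k
      refine ⟨fun x => ?_⟩
      have h3 : x ∈ M' := h2 trivial
      exact mem_algebraicClosure_iff.1 h3
    exact ⟨(IsAlgClosed.lift (R := K) (S := L) (M := W) : L →ₐ[K] W).toRingHom,
      fun k => (IsAlgClosed.lift (R := K) (S := L) (M := W) : L →ₐ[K] W).commutes k⟩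
  have key : ∀ (M : Type) [Field M] [Algebra Qb M] (θ : K →+* M) (g : M →+* W),
      IntermediateField.adjoin Qb (Set.range θ) = ⊤ → (∀ k, g (θ k) = ψ k) →
      g.fieldRange = Subfield.closure ({z | IsIntegral ℚ z} ∪ Set.range ψ) := by
    intro M _ _ θ g hθ hg
    have h1 : Subfield.closure (Set.range (algebraMap Qb M) ∪ Set.range θ) = ⊤ := by
      have h2 := congrArg IntermediateField.toSubfield hθ
      exact h2
    rw [RingHom.fieldRange_eq_map, ← h1, RingHom.map_field_closure, Set.image_union]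
    congr 2
    · rw [← range_eq_alg (g.comp (algebraMap Qb M)), RingHom.coe_comp, Set.range_comp]
    · ext z
      constructor
      · rintro ⟨_, ⟨k, rfl⟩, rfl⟩
        exact ⟨k, (hg k).symm⟩
      · rintro ⟨k, rfl⟩
        exact ⟨θ k, ⟨k, rfl⟩, hg k⟩
  have hr : Set.range ι = Set.range (algebraMap L' W) := by
    have h1 := (key L φ ι hφ hι).trans (key L' φ' (algebraMap L' W) hφ' fun k => rfl).symm
    exact congrArg (fun s : Subfield W => (s : Set W)) h1
  obtain ⟨e, -⟩ := equiv_of_range ι (algebraMap L' W) hr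
  obtain ⟨σ, hσ⟩ := equiv_of_range ((e : L →+* L').comp (algebraMap Qb L)) (algebraMap Qb L')
    (by rw [range_eq_alg, range_eq_alg])
  exact ⟨σ, e, fun a => (hσ a).symm⟩

end

/-! ### Rationality -/

/-- The field is purely transcendental over `Qb`, of finite degree of transcendence. -/
def Rat' (L : Type) [Field L] [Algebra Qb L] : Prop :=
  ∃ d : ℕ, Nonempty (L ≃ₐ[Qb] FractionRing (MvPolynomial (Fin d) Qb))

/-- The field embeds in such a field. -/
def Uni' (L : Type) [Field L] [Algebra Qb L] : Prop :=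
  ∃ d : ℕ, Nonempty (L →ₐ[Qb] FractionRing (MvPolynomial (Fin d) Qb))

/-- The field becomes purely transcendental after adjoining some variables. -/
def Stab' (L : Type) [Field L] [Algebra Qb L] : Prop :=
  ∃ m d : ℕ, Nonempty (FractionRing (MvPolynomial (Fin m) L) ≃ₐ[Qb]
    FractionRing (MvPolynomial (Fin d) Qb))

lemma conj_poly {L L' : Type} [Field L] [Field L'] [Algebra Qb L] [Algebra Qb L'] (σ : Qb ≃+* Qb)
    (e : L ≃+* L') (h : ∀ a, e (algebraMap Qb L a) = algebraMap Qb L' (σ a)) (m : ℕ) :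
    ∃ e' : FractionRing (MvPolynomial (Fin m) L) ≃+* FractionRing (MvPolynomial (Fin m) L'),
      ∀ a, e' (algebraMap Qb _ a) = algebraMap Qb _ (σ a) := by
  refine ⟨IsFractionRing.ringEquivOfRingEquiv (MvPolynomial.mapEquiv (Fin m) e), fun a => ?_⟩
  have h1 : ∀ (M : Type) [Field M] [Algebra Qb M] (a : Qb),
      algebraMap Qb (FractionRing (MvPolynomial (Fin m) M)) a =
        algebraMap (MvPolynomial (Fin m) M) _ (MvPolynomial.C (algebraMap Qb M a)) := by
    intro M _ _ a
    rw [IsScalarTower.algebraMap_apply Qb (MvPolynomial (Fin m) M)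
      (FractionRing (MvPolynomial (Fin m) M)), MvPolynomial.algebraMap_apply]
  rw [h1, h1, IsFractionRing.ringEquivOfRingEquiv_algebraMap, MvPolynomial.mapEquiv_apply,
    MvPolynomial.map_C]
  congr 2
  exact h a

section

variable {L L' : Type} [Field L] [Field L'] [Algebra Qb L] [Algebra Qb L']

lemma Conj.rat (h : Conj L L') (hL : Rat' L) : Rat' L' := by
  obtain ⟨σ, e, he⟩ := h
  obtain ⟨d, ⟨f⟩⟩ := hL
  obtain ⟨τ, hτ⟩ := conj_poly (L := Qb) (L' := Qb) σ σ (fun a => rfl) d
  refine ⟨d, ⟨AlgEquiv.ofRingEquiv (f := (e.symm.trans f.toRingEquiv).trans τ) fun a => ?_⟩⟩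
  obtain ⟨b, rfl⟩ := σ.surjective a
  change τ (f (e.symm (algebraMap Qb L' (σ b)))) = _
  rw [← he, RingEquiv.symm_apply_apply, AlgEquiv.commutes, hτ]

lemma Conj.uni (h : Conj L L') (hL : Uni' L) : Uni' L' := by
  obtain ⟨σ, e, he⟩ := h
  obtain ⟨d, ⟨f⟩⟩ := hL
  obtain ⟨τ, hτ⟩ := conj_poly (L := Qb) (L' := Qb) σ σ (fun a => rfl) d
  refine ⟨d, ⟨⟨(τ.toRingHom.comp f.toRingHom).comp e.symm.toRingHom, fun a => ?_⟩⟩⟩
  obtain ⟨b, rfl⟩ := σ.surjective a
  change τ (f (e.symm (algebraMap Qb L' (σ b)))) = _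
  rw [← he, RingEquiv.symm_apply_apply, AlgHom.commutes, hτ]

lemma Conj.stab (h : Conj L L') (hL : Stab' L) : Stab' L' := by
  obtain ⟨σ, e, he⟩ := h
  obtain ⟨m, d, ⟨f⟩⟩ := hL
  obtain ⟨e', he'⟩ := conj_poly σ e he m
  obtain ⟨τ, hτ⟩ := conj_poly (L := Qb) (L' := Qb) σ σ (fun a => rfl) d
  refine ⟨m, d, ⟨AlgEquiv.ofRingEquiv (f := (e'.symm.trans f.toRingEquiv).trans τ) fun a => ?_⟩⟩
  obtain ⟨b, rfl⟩ := σ.surjective a
  change τ (f (e'.symm (algebraMap Qb _ (σ b)))) = _
  rw [← he', RingEquiv.symm_apply_apply, AlgEquiv.commutes, hτ]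

end

end Pool.Agent.Helper59.MC
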