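import Pool.Agent.Helper59.MC.Search
import Pool.Agent.Helper59.MC.Base
import Pool.Agent.Helper59.MC.Conj

/-!
# Systems and moduli spaces have the same answers
-/

set_option autoImplicit false

open CategoryTheory AlgebraicGeometry

namespace Pool.Agent.Helper59.MC

open Pool.Agent.Q324.SC Pool.Agent.Q324.SC.Idl MvPolynomial Pool.Agent.Helper13.RM
  Pool.Agent.Helper3.GU

/-- properties of field extensions of `Qb` -/
abbrev Prp : Type 1 := ∀ (L : Type) [Field L] [Algebra Qb L], Prop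

/-- invariance under isomorphisms -/
def Inv (Q : Prp) : Prop :=
  ∀ (L L' : Type) [Field L] [Field L'] [Algebra Qb L] [Algebra Qb L'], (L ≃ₐ[Qb] L') → Q L → Q L'

/-- a component over `Qb` of the system has the property -/
def SysHas (Q : Prp) (n : ℕ) (c : List Poly) : Prop :=
  ∃ (P : Ideal (MvPolynomial (Fin n) Qb)) (_ : P.IsPrime),
    P ∈ (ext (J n c)).minimalPrimes ∧ Q (FractionRing (MvPolynomial (Fin n) Qb ⧸ P))

/-- a component over `Qb` of the moduli space has the property -/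
def MatHas (Q : Prp) {m : ℕ} (M : Matroid (Fin 4 ⊕ Fin m)) : Prop :=
  ∃ (P : Ideal (ModR Qb M)) (_ : P.IsPrime),
    P ∈ minimalPrimes (ModR Qb M) ∧ Q (FractionRing (ModR Qb M ⧸ P))

/-- an extension generated by the field `K` has the property -/
def FldHas (Q : Prp) (K : Type) [Field K] : Prop :=
  ∃ (L : Type) (_ : Field L) (_ : Algebra Qb L), Comp K L ∧ Q L

lemma FldHas.congr {Q : Prp} {K K' : Type} [Field K] [Field K'] (e : K ≃+* K')
    (h : FldHas Q K) : FldHas Q K' := by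
  obtain ⟨L, i1, i2, h1, h2⟩ := h
  exact ⟨L, i1, i2, h1.congr e AlgEquiv.refl, h2⟩

lemma sysHas_iff {Q : Prp} (hQ : Inv Q) {n : ℕ} {c : List Poly} [IsDomain (S n c)] :
    SysHas Q n c ↔ FldHas Q (FractionRing (S n c)) := by
  have hJ : (J n c).IsPrime := (Ideal.Quotient.isDomain_iff_prime _).1 inferInstance
  constructor
  · rintro ⟨P, hP, hPm, hQP⟩
    exact ⟨_, _, _, comp_of_comp hPm, hQP⟩
  · rintro ⟨L, i1, i2, h1, h2⟩
    obtain ⟨P, hP, ⟨e⟩⟩ := exists_component h1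
    have hPp : P.IsPrime := hP.1.1
    exact ⟨P, hPp, hP, hQ _ _ e.symm h2⟩

lemma matHas_iff {Q : Prp} (hQ : Inv Q) {m : ℕ} {M : Matroid (Fin 4 ⊕ Fin m)}
    [IsDomain (ModR ℚ M)] : MatHas Q M ↔ FldHas Q (FractionRing (ModR ℚ M)) := by
  constructor
  · rintro ⟨P, hP, hPm, hQP⟩
    exact ⟨_, _, _, comp_of_mod {t | M.IsBase (elts t)} hPm, hQP⟩
  · rintro ⟨L, i1, i2, h1, h2⟩
    obtain ⟨P, hP, ⟨e⟩⟩ := exists_mod {t | M.IsBase (elts t)} h1
    have hPp : P.IsPrime := hP.1.1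
    exact ⟨P, hPp, hP, hQ _ _ e.symm h2⟩

/-- the moduli space of a coded matroid and its system -/
lemma code_iso {w : Code} {M : Matroid (Fin 4 ⊕ Fin w.1)}
    (hM : ∀ t, M.IsBase (elts t) ↔ tx t ∈ w.2) [IsDomain (ModR ℚ M)] :
    ∃ _ : IsDomain (S (nv w.1) (conf w)),
      Nonempty (FractionRing (S (nv w.1) (conf w)) ≃+* FractionRing (ModR ℚ M)) := by
  obtain ⟨m, T⟩ := w
  have hT : {t | M.IsBase (elts t)} = TS m T := Set.ext hM
  obtain ⟨e'⟩ := conf_iso (m := m) T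
  have key : ∀ U : Set (Trip (Fin m)), U = TS m T → ∀ _ : IsDomain (Localization.Away (modD ℚ U)),
      ∃ _ : IsDomain (S (nv m) (conf (m, T))),
        Nonempty (FractionRing (S (nv m) (conf (m, T))) ≃+*
          FractionRing (Localization.Away (modD ℚ U))) := by
    rintro U rfl _
    have i1 : IsDomain (S (nv m) (conf (m, T))) := e'.toMulEquiv.isDomain _
    exact ⟨i1, frac_equiv e'.toRingEquiv⟩
  exact key _ hT inferInstance

/-- The properties of the components agree. -/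
theorem sysHas_conf {Q : Prp} (hQ : Inv Q) {w : Code} {M : Matroid (Fin 4 ⊕ Fin w.1)}
    (hM : ∀ t, M.IsBase (elts t) ↔ tx t ∈ w.2) [IsDomain (ModR ℚ M)] :
    (J (nv w.1) (conf w)).IsPrime ∧ (SysHas Q (nv w.1) (conf w) ↔ MatHas Q M) := by
  obtain ⟨i1, ⟨e⟩⟩ := code_iso hM
  refine ⟨(Ideal.Quotient.isDomain_iff_prime _).1 i1, ?_⟩
  rw [sysHas_iff hQ, matHas_iff hQ]
  exact ⟨fun h => h.congr e, fun h => h.congr e.symm⟩

/-- **The moduli space with the components of a given system.** -/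
theorem good_has {Q : Prp} (hQ : Inv Q) {n : ℕ} {c : List Poly} (hJ : (J n c).IsPrime) {w : Code}
    (h : Good n c w) :
    ∃ M : Matroid (Fin 4 ⊕ Fin w.1), (∀ t, M.IsBase (elts t) ↔ tx t ∈ w.2) ∧ Framed M ∧
      IsSimple M ∧ Algebra.Smooth ℚ (ModR ℚ M) ∧ IsDomain (ModR ℚ M) ∧
      (SysHas Q n c ↔ MatHas Q M) := by
  obtain ⟨M, h1, h2, h3, h4, h5, ⟨e⟩⟩ := sound hJ h
  have i1 : IsDomain (S n c) := Ideal.Quotient.isDomain _
  refine ⟨M, h1, h2, h3, h4, h5, ?_⟩
  rw [sysHas_iff hQ, matHas_iff hQ]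
  exact ⟨fun h => h.congr e, fun h => h.congr e.symm⟩

end Pool.Agent.Helper59.MC
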