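import Mathlib

/-!
# Affine open subschemes are covered by principal open subsets
-/

set_option autoImplicit false

open CategoryTheory AlgebraicGeometry

namespace Pool.Agent.Helper59.MC

variable {A B : Type} [CommRing A] [CommRing B]

lemma away_bijective (φ : A →+* B) (h : IsOpenImmersion (Spec.map (CommRingCat.ofHom φ))) (g : A)
    (hg : ∀ x : PrimeSpectrum A, g ∉ x.asIdeal → ∃ y : PrimeSpectrum B, PrimeSpectrum.comap φ y = x) :
    Function.Bijective (Localization.awayMap φ g) := by
  let Ag := Localization.Away g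
  let Bg := Localization.Away (φ g)
  let ψ : Ag →+* Bg := Localization.awayMap φ g
  have hc : ψ.comp (algebraMap A Ag) = (algebraMap B Bg).comp φ := by
    refine RingHom.ext fun x => ?_
    have hy : Submonoid.powers g ≤ Submonoid.comap φ (Submonoid.powers (φ g)) := by
      rintro _ ⟨k, rfl⟩
      exact ⟨k, (map_pow φ g k).symm⟩
    exact IsLocalization.map_eq (M := Submonoid.powers g) (T := Submonoid.powers (φ g))
      (S := Localization.Away g) (Q := Localization.Away (φ g)) (g := φ) hy x
  have h1 : IsOpenImmersion (Spec.map (CommRingCat.ofHom (algebraMap A Ag))) :=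
    Scheme.isOpenImmersion_SpecMap_localizationAway (R := .of A) g
  have h2 : IsOpenImmersion (Spec.map (CommRingCat.ofHom (algebraMap B Bg))) :=
    Scheme.isOpenImmersion_SpecMap_localizationAway (R := .of B) (φ g)
  have h3 : Spec.map (CommRingCat.ofHom ψ) ≫ Spec.map (CommRingCat.ofHom (algebraMap A Ag)) =
      Spec.map (CommRingCat.ofHom (algebraMap B Bg)) ≫ Spec.map (CommRingCat.ofHom φ) := by
    rw [← Spec.map_comp, ← Spec.map_comp, ← CommRingCat.ofHom_comp, ← CommRingCat.ofHom_comp, hc]
  have h4 : IsOpenImmersion (Spec.map (CommRingCat.ofHom ψ)) := by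
    have h5 : IsOpenImmersion (Spec.map (CommRingCat.ofHom ψ) ≫
        Spec.map (CommRingCat.ofHom (algebraMap A Ag))) := by
      rw [h3]
      infer_instance
    exact IsOpenImmersion.of_comp _ (Spec.map (CommRingCat.ofHom (algebraMap A Ag)))
  have h6 : Function.Surjective (PrimeSpectrum.comap ψ) := by
    intro x
    obtain ⟨y, hy⟩ := hg (PrimeSpectrum.comap (algebraMap A Ag) x) (by
      intro h7
      have h8 : IsUnit (algebraMap A Ag g) :=
        IsLocalization.map_units _ (⟨g, Submonoid.mem_powers g⟩ : Submonoid.powers g)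
      exact x.2.ne_top (Ideal.eq_top_of_isUnit_mem _ h7 h8))
    have h9 : φ g ∉ y.asIdeal := by
      intro h7
      have h10 : g ∈ (PrimeSpectrum.comap φ y).asIdeal := h7
      rw [hy] at h10
      have h8 : IsUnit (algebraMap A Ag g) :=
        IsLocalization.map_units _ (⟨g, Submonoid.mem_powers g⟩ : Submonoid.powers g)
      exact x.2.ne_top (Ideal.eq_top_of_isUnit_mem _ h10 h8)
    have h11 : y ∈ Set.range (PrimeSpectrum.comap (algebraMap B Bg)) := by
      rw [PrimeSpectrum.localization_away_comap_range Bg (φ g)]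
      exact h9
    obtain ⟨z, rfl⟩ := h11
    refine ⟨z, ?_⟩
    apply PrimeSpectrum.localization_comap_injective Ag (Submonoid.powers g)
    rw [← hy, ← PrimeSpectrum.comap_comp_apply, ← PrimeSpectrum.comap_comp_apply, hc]
  have h7 : Surjective (Spec.map (CommRingCat.ofHom ψ)) := ⟨h6⟩
  have h8 : IsIso (Spec.map (CommRingCat.ofHom ψ)) :=
    (isIso_iff_isOpenImmersion_and_surjective _).2 ⟨h4, h7⟩
  have h9 : IsIso (CommRingCat.ofHom ψ) := by
    have h10 : IsIso (Scheme.Spec.map (CommRingCat.ofHom ψ).op) := h8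
    have h11 := isIso_of_fully_faithful Scheme.Spec (CommRingCat.ofHom ψ).op
    exact (isIso_op_iff _).1 h11
  exact (ConcreteCategory.isIso_iff_bijective _).1 h9

/-- **An affine open subscheme is covered by principal open subsets.** -/
theorem exists_cover (φ : A →+* B) (h : IsOpenImmersion (Spec.map (CommRingCat.ofHom φ))) :
    ∃ G : Finset A, Ideal.span (φ '' (G : Set A)) = ⊤ ∧
      ∀ g ∈ G, Function.Bijective (Localization.awayMap φ g) := by
  let G : Set A := {g | ∀ x : PrimeSpectrum A, g ∉ x.asIdeal →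
    ∃ y : PrimeSpectrum B, PrimeSpectrum.comap φ y = x}
  have h1 : IsOpen (Set.range (PrimeSpectrum.comap φ)) :=
    h.base_open.isOpen_range
  have h2 : Ideal.span (φ '' G) = ⊤ := by
    by_contra h3
    obtain ⟨m, hm, hGm⟩ := Ideal.exists_le_maximal _ h3
    let y : PrimeSpectrum B := ⟨m, hm.isPrime⟩
    obtain ⟨_, ⟨g, rfl⟩, hy, hsub⟩ :=
      PrimeSpectrum.isTopologicalBasis_basic_opens.exists_subset_of_mem_open
        (show PrimeSpectrum.comap φ y ∈ Set.range (PrimeSpectrum.comap φ) from ⟨y, rfl⟩) h1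
    have hg : g ∈ G := fun x hx => hsub hx
    exact hy (hGm (Ideal.subset_span ⟨g, hg, rfl⟩))
  rw [Ideal.span_eq_top_iff_finite] at h2
  obtain ⟨s, hs, hs2⟩ := h2
  classical
  obtain ⟨t, ht, rfl⟩ := Finset.subset_set_image_iff.1 hs
  refine ⟨t, ?_, fun g hg => away_bijective φ h g (ht hg)⟩
  rw [← hs2, Finset.coe_image]

end Pool.Agent.Helper59.MC
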