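import Pool.Agent.Helper59.MC.Sys

/-!
# Localised systems, and integral domains by covers
-/

set_option autoImplicit false

namespace Pool.Agent.Helper59.MC

open Pool.Agent.Q324.SC Pool.Agent.Q324.SC.Idl MvPolynomial

/-- The system with the additional condition that `s` is invertible. -/
def loc (n : ℕ) (c : List Poly) (s : Poly) : List Poly :=
  c.map (ren (cut n (n + 1))) ++ [mul [(1, [n])] (ren (cut n (n + 1)) s) ++ [(-1, [])]]

section

variable {C : Type*} [CommRing C] {n : ℕ} {c : List Poly} {s : Poly}

lemma sol_loc {v : Fin (n + 1) → C} : Sol (n + 1) (loc n c s) v ↔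
    Sol n c (fun i => v (Fin.castAdd 1 i)) ∧
      v (Fin.last n) * ev (V n fun i => v (Fin.castAdd 1 i)) s = 1 := by
  unfold loc Sol
  simp only [List.mem_append, or_imp, forall_and, List.mem_map, forall_exists_index, and_imp,
    forall_apply_eq_imp_iff₂, List.mem_singleton, forall_eq]
  refine and_congr ?_ ?_
  · refine forall_congr' fun p => forall_congr' fun _ => ?_
    rw [ev_ren, V_cut]
  · have h2 : n < n + 1 := by omega
    rw [ev_append, ev_mul, ev_ren, V_cut, ev_cons, ev_nil, ev_cons, ev_nil]
    simp only [List.map_cons, List.map_nil, List.prod_cons, List.prod_nil, mul_one, add_zero,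
      Int.cast_one, one_mul, Int.cast_neg]
    rw [V_lt h2, ← sub_eq_add_neg, sub_eq_zero]
    rfl

end

section

variable {n : ℕ} {c : List Poly} (s : Poly)

/-- The ring of the localised system. -/
lemma loc_iso : Nonempty (S (n + 1) (loc n c s) ≃ₐ[ℚ] Localization.Away (ev (V n (gs n c)) s)) := by
  let a : S n c := ev (V n (gs n c)) s
  let B := Localization.Away a
  have h0 := (sol_loc (s := s) (v := gs (n + 1) (loc n c s))).1 sol_gs
  obtain ⟨i, hi⟩ := h0.1.lift
  have h1 : i a = ev (V n fun j => gs (n + 1) (loc n c s) (Fin.castAdd 1 j)) s := by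
    change (i : S n c →+* S (n + 1) (loc n c s)) (ev (V n (gs n c)) s) = _
    rw [map_ev, map_V]
    congr 2
    funext j
    exact hi j
  have h2 : IsUnit (i a) := by
    rw [h1]
    exact IsUnit.of_mul_eq_one _ (by rw [mul_comm]; exact h0.2)
  have h3 : ∀ y : Submonoid.powers a, IsUnit (i y) := by
    rintro ⟨_, k, rfl⟩
    rw [map_pow]
    exact h2.pow k
  let g : B →ₐ[ℚ] S (n + 1) (loc n c s) :=
    IsLocalization.liftAlgHom (M := Submonoid.powers a) (f := i) h3
  have hg : ∀ x, g (algebraMap (S n c) B x) = i x := fun x => IsLocalization.lift_eq h3 x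
  obtain ⟨b, hb⟩ : IsUnit (algebraMap (S n c) B a) :=
    IsLocalization.map_units _ (⟨a, Submonoid.mem_powers a⟩ : Submonoid.powers a)
  let u : Fin (n + 1) → B := Fin.append (fun j => algebraMap (S n c) B (gs n c j))
    (fun _ : Fin 1 => ((b⁻¹ : Bˣ) : B))
  have hu1 : (fun j => u (Fin.castAdd 1 j)) = fun j => algebraMap (S n c) B (gs n c j) :=
    funext fun j => Fin.append_left _ _ j
  have hu2 : u (Fin.last n) = ((b⁻¹ : Bˣ) : B) := Fin.append_right _ _ (0 : Fin 1)
  have hu3 : ev (V n fun j => algebraMap (S n c) B (gs n c j)) s = algebraMap (S n c) B a := by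
    rw [← map_V, ← map_ev]
  have hu : Sol (n + 1) (loc n c s) u := by
    rw [sol_loc, hu1, hu2, hu3, ← hb]
    exact ⟨sol_gs.map _, Units.inv_mul b⟩
  obtain ⟨f, hf⟩ := hu.lift
  have h4 : ∀ x : S n c, f (i x) = algebraMap (S n c) B x := by
    intro x
    have h5 : f.comp i = IsScalarTower.toAlgHom ℚ (S n c) B := by
      refine S_ext fun j => ?_
      rw [AlgHom.comp_apply, hi, hf]
      exact congrFun hu1 j
    exact DFunLike.congr_fun h5 x
  refine ⟨AlgEquiv.ofAlgHom f g ?_ ?_⟩
  · apply AlgHom.coe_ringHom_injective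
    apply IsLocalization.ringHom_ext (Submonoid.powers a)
    refine RingHom.ext fun x => ?_
    change f (g (algebraMap (S n c) B x)) = algebraMap (S n c) B x
    rw [hg, h4]
  · refine S_ext fun j => ?_
    refine Fin.addCases (fun j => ?_) (fun j => ?_) j
    · rw [AlgHom.comp_apply, hf]
      have h6 : u (Fin.castAdd 1 j) = algebraMap (S n c) B (gs n c j) := congrFun hu1 j
      rw [h6, hg, hi]
      rfl
    · have hj : Fin.natAdd n j = Fin.last n := by
        apply Fin.ext
        simp
      rw [hj, AlgHom.comp_apply, hf, hu2]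
      have h7 : g ((b⁻¹ : Bˣ) : B) * i a = 1 := by
        rw [← hg, ← hb, ← map_mul, Units.inv_mul, map_one]
      have h8 : gs (n + 1) (loc n c s) (Fin.last n) * i a = 1 := by
        rw [h1]
        exact h0.2
      exact h2.mul_right_cancel (h7.trans h8.symm)

end

/-! ### Domains by covers -/

section

variable {B : Type*} [CommRing B]

lemma away_zero {h b : B} : algebraMap B (Localization.Away h) b = 0 ↔ ∃ N, h ^ N * b = 0 := by
  rw [IsLocalization.map_eq_zero_iff (Submonoid.powers h)]
  constructor
  · rintro ⟨⟨_, N, rfl⟩, hN⟩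
    exact ⟨N, hN⟩
  · rintro ⟨N, hN⟩
    exact ⟨⟨_, N, rfl⟩, hN⟩

/-- A ring is a domain if it is covered by domains that intersect. -/
lemma domain_of_cover {ι : Type*} [Finite ι] (h : ι → B) (hs : Ideal.span (Set.range h) = ⊤)
    (hd : ∀ k, IsDomain (Localization.Away (h k))) (hn : ∀ k l, ¬ IsNilpotent (h k * h l))
    (hne : Nonempty ι) : IsDomain B := by
  obtain ⟨k₀⟩ := hne
  have hnt : Nontrivial B := by
    by_contra h1
    rw [not_nontrivial_iff_subsingleton] at h1
    exact hn k₀ k₀ ⟨1, Subsingleton.elim _ _⟩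
  have key : ∀ (b : B) (k : ι), (∃ N, h k ^ N * b = 0) → b = 0 := by
    rintro b k ⟨N, hN⟩
    have h1 : ∀ l, ∃ M, h l ^ M * b = 0 := by
      intro l
      have h2 : algebraMap B (Localization.Away (h l)) (h k ^ N * b) = 0 := by rw [hN, map_zero]
      rw [map_mul] at h2
      have := hd l
      rcases mul_eq_zero.mp h2 with h3 | h3
      · exfalso
        rw [away_zero] at h3
        obtain ⟨M, hM⟩ := h3
        refine hn l k ⟨M + N, ?_⟩
        calc (h l * h k) ^ (M + N) = (h l ^ M * h k ^ N) * (h l ^ N * h k ^ M) := by ring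
          _ = 0 := by rw [hM, zero_mul]
      · exact away_zero.1 h3
    let I : Ideal B := (Ideal.span {b}).annihilator
    have h4 : ∀ x, x ∈ I ↔ x * b = 0 := fun x => by
      rw [Submodule.mem_annihilator_span_singleton, smul_eq_mul]
    have h5 : (⊤ : Ideal B) ≤ I.radical := by
      rw [← hs, Ideal.span_le]
      rintro _ ⟨l, rfl⟩
      obtain ⟨M, hM⟩ := h1 l
      exact ⟨M, (h4 _).2 hM⟩
    have h6 : I = ⊤ := Ideal.radical_eq_top.1 (top_le_iff.1 h5)
    have h7 : (1 : B) ∈ I := by
      rw [h6]
      trivial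
    rw [h4, one_mul] at h7
    exact h7
  have hz : NoZeroDivisors B := by
    refine ⟨fun {a b} hab => ?_⟩
    have := hd k₀
    have h2 : algebraMap B (Localization.Away (h k₀)) (a * b) = 0 := by rw [hab, map_zero]
    rw [map_mul] at h2
    rcases mul_eq_zero.mp h2 with h3 | h3
    · exact Or.inl (key a k₀ (away_zero.1 h3))
    · exact Or.inr (key b k₀ (away_zero.1 h3))
  exact NoZeroDivisors.to_isDomain B

end

section

variable {A B : Type} [CommRing A] [CommRing B]

lemma frac_equiv [IsDomain A] [IsDomain B] (e : A ≃+* B) :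
    Nonempty (FractionRing A ≃+* FractionRing B) := ⟨IsFractionRing.ringEquivOfRingEquiv e⟩

lemma domain_away [IsDomain B] {h : B} (hh : h ≠ 0) : IsDomain (Localization.Away h) :=
  IsLocalization.isDomain_localization (powers_le_nonZeroDivisors_of_noZeroDivisors hh)

lemma ne_zero_of_away {h : B} [Nontrivial (Localization.Away h)] : h ≠ 0 := by
  rintro rfl
  have h1 : algebraMap B (Localization.Away (0 : B)) 1 = 0 := away_zero.2 ⟨1, by simp⟩
  rw [map_one] at h1
  exact one_ne_zero h1

lemma frac_away [IsDomain B] {h : B} (hh : h ≠ 0) [IsDomain (Localization.Away h)] :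
    Nonempty (FractionRing (Localization.Away h) ≃+* FractionRing B) := by
  let K := FractionRing B
  have hu : IsUnit (algebraMap B K h) := by
    rw [isUnit_iff_ne_zero]
    exact fun h0 => hh ((IsFractionRing.injective B K) (by rw [h0, map_zero]))
  let _ : Algebra (Localization.Away h) K := (IsLocalization.Away.lift (S := Localization.Away h) h hu).toAlgebra
  have hT : IsScalarTower B (Localization.Away h) K := IsScalarTower.of_algebraMap_eq fun b =>
    (IsLocalization.Away.lift_eq h hu b).symm
  have hDK : IsFractionRing (Localization.Away h) K :=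
    IsFractionRing.isFractionRing_of_isDomain_of_isLocalization (Submonoid.powers h) _ K
  exact ⟨(FractionRing.algEquiv (Localization.Away h) K).toRingEquiv⟩

end

end Pool.Agent.Helper59.MC
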