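import Pool.Agent.Helper59.MC.Poly

/-!
# Systems of equations, and certificates for isomorphisms of their rings
-/

set_option autoImplicit false

namespace Pool.Agent.Helper59.MC

open Pool.Agent.Q324.SC Pool.Agent.Q324.SC.Idl MvPolynomial

section

variable {C D : Type*} [CommRing C] [CommRing D] {n m : ℕ} {c d : List Poly}

/-- `u` is a solution of the system. -/
def Sol (n : ℕ) (c : List Poly) (u : Fin n → C) : Prop := ∀ p ∈ c, ev (V n u) p = 0

lemma Sol.map {u : Fin n → C} (h : Sol n c u) (f : C →+* D) : Sol n c fun i => f (u i) := by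
  intro p hp
  rw [← map_V, ← map_ev, h p hp, map_zero]

/-- The ring of the system over the rational numbers. -/
abbrev S (n : ℕ) (c : List Poly) : Type := MvPolynomial (Fin n) ℚ ⧸ J n c

/-- The generic solution. -/
noncomputable def gs (n : ℕ) (c : List Poly) : Fin n → S n c := fun i => Ideal.Quotient.mk _ (X i)

lemma mk_rv (p : Poly) : Ideal.Quotient.mk (J n c) (rv n p) = ev (V n (gs n c)) p := by
  rw [rv_eq, map_ev, map_V]
  rfl

lemma mem_iff (p : Poly) : rv n p ∈ J n c ↔ ev (V n (gs n c)) p = 0 := by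
  rw [← mk_rv, Ideal.Quotient.eq_zero_iff_mem]

lemma sol_gs : Sol n c (gs n c) := fun p hp => (mem_iff p).1 (rv_mem hp)

lemma Sol.lift [Algebra ℚ C] {u : Fin n → C} (h : Sol n c u) :
    ∃ f : S n c →ₐ[ℚ] C, ∀ i, f (gs n c i) = u i := by
  refine ⟨Ideal.Quotient.liftₐ (J n c) (aeval u) ?_, fun i => ?_⟩
  · intro a ha
    have h1 : J n c ≤ RingHom.ker (aeval u : MvPolynomial (Fin n) ℚ →ₐ[ℚ] C) := by
      rw [J_eq, Ideal.span_le]
      rintro _ ⟨p, hp, rfl⟩
      change aeval u (rv n p) = 0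
      rw [aeval_rv]
      exact h p hp
    exact h1 ha
  · change aeval u (X i) = u i
    exact aeval_X u i

lemma S_ext [Algebra ℚ C] {f g : S n c →ₐ[ℚ] C} (h : ∀ i, f (gs n c i) = g (gs n c i)) : f = g := by
  apply Ideal.Quotient.algHom_ext
  apply MvPolynomial.algHom_ext
  exact h

/-- keep the first variables, and drop the other ones -/
def cut (n N i : ℕ) : ℕ := bif decide (i < n) then i else N

lemma V_cut (v : Fin (n + m) → C) :
    (fun i => V (n + m) v (cut n (n + m) i)) = V n fun i => v (Fin.castAdd m i) := by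
  funext i
  unfold V cut
  by_cases h : i < n
  · have h1 : i < n + m := by omega
    simp only [h, decide_true, cond_true, h1, dif_pos]
    rfl
  · simp [h]

lemma V_shift (v : Fin (n + m) → C) :
    (fun i => V (n + m) v (i + n)) = V m fun i => v (Fin.natAdd n i) := by
  funext i
  unfold V
  by_cases h : i < m
  · have h1 : i + n < n + m := by omega
    rw [dif_pos h1, dif_pos h]
    congr 1
    apply Fin.ext
    simp
    omega
  · have h1 : ¬ i + n < n + m := by omega
    rw [dif_neg h1, dif_neg h]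

/-- The graph of the map `ψ / E` on the solutions of the system. -/
def Gr (n m : ℕ) (c : List Poly) (E : ℕ) (ψ : List Poly) : List Poly :=
  c.map (ren (cut n (n + m))) ++ (List.range m).map fun j =>
    [((E : ℤ), [n + j])] ++ mul [(-1, [])] (ren (cut n (n + m)) (ψ.getD j []))

/-- the equations `d` in the other variables -/
def tg1 (n : ℕ) (d : List Poly) : List Poly := d.map (ren fun i => i + n)

/-- the equations `E x = φ` -/
def tg2 (n E : ℕ) (φ : List Poly) : List Poly := (List.range n).map fun i =>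
    [((E : ℤ), [i])] ++ mul [(-1, [])] (ren (fun i => i + n) (φ.getD i []))

lemma ev_eqn (u : ℕ → C) (E i : ℕ) (q : Poly) :
    ev u ([((E : ℤ), [i])] ++ mul [(-1, [])] q) = E * u i - ev u q := by
  rw [ev_append, ev_mul, ev_cons, ev_cons, ev_nil]
  simp
  ring

lemma V_lt {i : ℕ} (h : i < n) (u : Fin n → C) : V n u i = u ⟨i, h⟩ := dif_pos h

lemma sol_Gr {E : ℕ} {ψ : List Poly} {v : Fin (n + m) → C} : Sol (n + m) (Gr n m c E ψ) v ↔
    Sol n c (fun i => v (Fin.castAdd m i)) ∧ ∀ j : Fin m, (E : C) * v (Fin.natAdd n j) =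
      ev (V n fun i => v (Fin.castAdd m i)) (ψ.getD j []) := by
  unfold Gr Sol
  simp only [List.mem_append, or_imp, forall_and, List.mem_map, forall_exists_index, and_imp,
    forall_apply_eq_imp_iff₂, List.mem_range]
  refine and_congr ?_ ?_
  · refine forall_congr' fun p => forall_congr' fun _ => ?_
    rw [ev_ren, V_cut]
  · constructor
    · intro h j
      have h1 := h j j.2
      have h2 : n + (j : ℕ) < n + m := by omega
      rw [ev_eqn, ev_ren, V_cut, V_lt h2] at h1
      exact sub_eq_zero.mp h1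
    · intro h j hj
      have h2 : n + j < n + m := by omega
      rw [ev_eqn, ev_ren, V_cut, V_lt h2]
      exact sub_eq_zero.mpr (h ⟨j, hj⟩)

/-- membership in the ideal of a system, by solutions -/
lemma mem_iff_sol (p : Poly) : rv n p ∈ J n c ↔
    ∀ (C : Type) [CommRing C] [Algebra ℚ C] (u : Fin n → C), Sol n c u → ev (V n u) p = 0 := by
  rw [mem_iff]
  constructor
  · intro h C _ _ u hu
    obtain ⟨f, hf⟩ := hu.lift
    have h1 : ev (V n u) p = f (ev (V n (gs n c)) p) := by
      change _ = (f : S n c →+* C) (ev (V n (gs n c)) p)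
      rw [map_ev, map_V]
      congr 2
      funext i
      exact (hf i).symm
    rw [h1, h, map_zero]
  · intro h
    exact h _ _ sol_gs

lemma isUnit_nat (C : Type*) [CommRing C] [Algebra ℚ C] {E : ℕ} (hE : 1 ≤ E) : IsUnit (E : C) := by
  have h1 : IsUnit (E : ℚ) := by
    rw [isUnit_iff_ne_zero]
    have : (1 : ℚ) ≤ E := by exact_mod_cast hE
    intro h
    rw [h] at this
    norm_num at this
  have := h1.map (algebraMap ℚ C)
  simpa using this

/-- The map `ψ / E` maps the solutions of `c` to solutions of `d`. -/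
def MapInto (n : ℕ) (c : List Poly) (m : ℕ) (d : List Poly) (E : ℕ) (ψ : List Poly) : Prop :=
  ∀ t ∈ tg1 n d, rv (n + m) t ∈ J (n + m) (Gr n m c E ψ)

/-- The map `φ / E` maps the images back. -/
def BackInto (n : ℕ) (c : List Poly) (m : ℕ) (E : ℕ) (ψ φ : List Poly) : Prop :=
  ∀ t ∈ tg2 n E φ, rv (n + m) t ∈ J (n + m) (Gr n m c E ψ)

omit [CommRing C] in
lemma append_left (u : Fin n → C) (w : Fin m → C) :
    (fun i => Fin.append u w (Fin.castAdd m i)) = u := funext fun i => Fin.append_left u w i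

omit [CommRing C] in
lemma append_right (u : Fin n → C) (w : Fin m → C) :
    (fun i => Fin.append u w (Fin.natAdd n i)) = w := funext fun i => Fin.append_right u w i

lemma mapInto_iff {E : ℕ} {ψ : List Poly} : MapInto n c m d E ψ ↔
    ∀ (C : Type) [CommRing C] [Algebra ℚ C] (u : Fin n → C) (w : Fin m → C), Sol n c u →
      (∀ j : Fin m, (E : C) * w j = ev (V n u) (ψ.getD j [])) → Sol m d w := by
  constructor
  · intro h C _ _ u w hu hw p hp
    have h1 := (mem_iff_sol _).1 (h _ (List.mem_map_of_mem (f := ren fun i => i + n) hp)) C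
      (Fin.append u w) (sol_Gr.2 ⟨by rwa [append_left], by
        simpa only [append_left, Fin.append_right] using hw⟩)
    rw [ev_ren, V_shift, append_right] at h1
    exact h1
  · intro h t ht
    obtain ⟨p, hp, rfl⟩ := List.mem_map.1 ht
    rw [mem_iff_sol]
    intro C _ _ v hv
    rw [ev_ren, V_shift]
    have h1 := sol_Gr.1 hv
    exact h C _ _ h1.1 h1.2 p hp

lemma backInto_iff {E : ℕ} {ψ φ : List Poly} : BackInto n c m E ψ φ ↔
    ∀ (C : Type) [CommRing C] [Algebra ℚ C] (u : Fin n → C) (w : Fin m → C), Sol n c u →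
      (∀ j : Fin m, (E : C) * w j = ev (V n u) (ψ.getD j [])) →
      ∀ i : Fin n, (E : C) * u i = ev (V m w) (φ.getD i []) := by
  constructor
  · intro h C _ _ u w hu hw i
    have h1 := (mem_iff_sol _).1 (h _ (List.mem_map_of_mem (List.mem_range.2 i.2))) C
      (Fin.append u w) (sol_Gr.2 ⟨by rwa [append_left], by
        simpa only [append_left, Fin.append_right] using hw⟩)
    have h2 : (i : ℕ) < n + m := by omega
    rw [ev_eqn, ev_ren, V_shift, append_right, V_lt h2] at h1
    have h3 : Fin.append u w ⟨i, h2⟩ = u i := Fin.append_left u w i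
    rw [h3] at h1
    exact sub_eq_zero.mp h1
  · intro h t ht
    obtain ⟨i, hi, rfl⟩ := List.mem_map.1 ht
    rw [List.mem_range] at hi
    rw [mem_iff_sol]
    intro C _ _ v hv
    have h2 : i < n + m := by omega
    rw [ev_eqn, ev_ren, V_shift, V_lt h2, sub_eq_zero]
    have h1 := sol_Gr.1 hv
    exact h C _ _ h1.1 h1.2 ⟨i, hi⟩

end

section

variable {n m : ℕ} {c d : List Poly} {E : ℕ} {ψ φ : List Poly}

/-- the image of the generic solution -/
lemma exists_sol (hE : 1 ≤ E) (h : MapInto n c m d E ψ) : ∃ f : S m d →ₐ[ℚ] S n c,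
    ∀ j : Fin m, (E : S n c) * f (gs m d j) = ev (V n (gs n c)) (ψ.getD j []) := by
  obtain ⟨a, ha⟩ := isUnit_nat (S n c) hE
  have h1 : ∀ j : Fin m, (E : S n c) * (((a⁻¹ : (S n c)ˣ) : S n c) *
      ev (V n (gs n c)) (ψ.getD j [])) = ev (V n (gs n c)) (ψ.getD j []) := fun j => by
    rw [← mul_assoc, ← ha, Units.mul_inv, one_mul]
  obtain ⟨f, hf⟩ := (mapInto_iff.1 h (S n c) (gs n c) _ sol_gs h1).lift
  exact ⟨f, fun j => by rw [hf, h1]⟩

/-- **Certificates give isomorphisms.** -/
theorem iso_of_cert (hE : 1 ≤ E) (h1 : MapInto n c m d E ψ) (h2 : BackInto n c m E ψ φ)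
    (h3 : MapInto m d n c E φ) (h4 : BackInto m d n E φ ψ) : Nonempty (S n c ≃ₐ[ℚ] S m d) := by
  obtain ⟨f, hf⟩ := exists_sol hE h1
  obtain ⟨g, hg⟩ := exists_sol hE h3
  have h5 : f.comp g = AlgHom.id ℚ (S n c) := by
    refine S_ext fun i => ?_
    have h6 := backInto_iff.1 h2 (S n c) (gs n c) (fun j => f (gs m d j)) sol_gs hf i
    have h7 : (E : S n c) * f (g (gs n c i)) = ev (V m fun j => f (gs m d j)) (φ.getD i []) := by
      have h8 := congrArg f (hg i)
      rw [map_mul, map_natCast] at h8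
      rw [h8]
      change (f : S m d →+* S n c) _ = _
      rw [map_ev, map_V]
      rfl
    exact (isUnit_nat (S n c) hE).mul_left_cancel (h7.trans h6.symm)
  have h9 : g.comp f = AlgHom.id ℚ (S m d) := by
    refine S_ext fun i => ?_
    have h6 := backInto_iff.1 h4 (S m d) (gs m d) (fun j => g (gs n c j)) sol_gs hg i
    have h7 : (E : S m d) * g (f (gs m d i)) = ev (V n fun j => g (gs n c j)) (ψ.getD i []) := by
      have h8 := congrArg g (hf i)
      rw [map_mul, map_natCast] at h8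
      rw [h8]
      change (g : S n c →+* S m d) _ = _
      rw [map_ev, map_V]
      rfl
    exact (isUnit_nat (S m d) hE).mul_left_cancel (h7.trans h6.symm)
  exact ⟨AlgEquiv.ofAlgHom g f h9 h5⟩

lemma getD_ofFn {α : Type*} {k : ℕ} (f : Fin k → α) (x : α) (j : Fin k) :
    (List.ofFn f).getD j x = f j := by
  rw [List.getD_eq_getElem _ _ (by simp)]
  simp

/-- a common denominator -/
lemma exists_family (x : Fin m → S n c) : ∃ E : ℕ, 1 ≤ E ∧ ∀ F : ℕ, ∃ ψ : List Poly,
    ∀ j : Fin m, ((F * E : ℕ) : S n c) * x j = ev (V n (gs n c)) (ψ.getD j []) := by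
  have h1 : ∀ j, ∃ (E : ℕ) (p : Poly), 1 ≤ E ∧ (E : S n c) * x j = ev (V n (gs n c)) p := by
    intro j
    obtain ⟨a, ha⟩ := Ideal.Quotient.mk_surjective (x j)
    obtain ⟨E, p, hE, hp⟩ := exists_code a
    refine ⟨E, p, hE, ?_⟩
    rw [← mk_rv, ← hp, map_mul, map_natCast, ha]
  choose E p hE hp using h1
  refine ⟨∏ j, E j, Nat.one_le_iff_ne_zero.2 (Finset.prod_ne_zero_iff.2 fun j _ => by
    have := hE j
    omega), fun F => ?_⟩
  refine ⟨List.ofFn fun j => mul [(((F * ∏ i ∈ Finset.univ.erase j, E i : ℕ) : ℤ), [])] (p j),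
    fun j => ?_⟩
  rw [getD_ofFn, ev_mul, ev_cons, ev_nil, ← hp, ← Finset.mul_prod_erase Finset.univ E (Finset.mem_univ j)]
  push_cast
  simp
  ring

lemma half_of_iso (hE : 1 ≤ E) (e : S n c ≃ₐ[ℚ] S m d)
    (h1 : ∀ j : Fin m, (E : S n c) * e.symm (gs m d j) = ev (V n (gs n c)) (ψ.getD j []))
    (h2 : ∀ i : Fin n, (E : S m d) * e (gs n c i) = ev (V m (gs m d)) (φ.getD i [])) :
    MapInto n c m d E ψ ∧ BackInto n c m E ψ φ := by
  have key : ∀ (C : Type) [CommRing C] [Algebra ℚ C] (u : Fin n → C) (w : Fin m → C), Sol n c u →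
      (∀ j : Fin m, (E : C) * w j = ev (V n u) (ψ.getD j [])) →
      ∃ θ : S n c →ₐ[ℚ] C, (∀ i, θ (gs n c i) = u i) ∧ ∀ j, θ (e.symm (gs m d j)) = w j := by
    intro C _ _ u w hu hw
    obtain ⟨θ, hθ⟩ := hu.lift
    refine ⟨θ, hθ, fun j => ?_⟩
    have h3 := congrArg θ (h1 j)
    rw [map_mul, map_natCast] at h3
    have h4 : θ (ev (V n (gs n c)) (ψ.getD j [])) = ev (V n u) (ψ.getD j []) := by
      change (θ : S n c →+* C) _ = _
      rw [map_ev, map_V]
      congr 2
      funext i
      exact hθ i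
    rw [h4, ← hw] at h3
    exact (isUnit_nat C hE).mul_left_cancel h3
  constructor
  · rw [mapInto_iff]
    intro C _ _ u w hu hw
    obtain ⟨θ, h3, h4⟩ := key C u w hu hw
    have h5 := (sol_gs (n := m) (c := d)).map ((θ.comp (e.symm : S m d →ₐ[ℚ] S n c)) : S m d →+* C)
    have h6 : (fun j => ((θ.comp (e.symm : S m d →ₐ[ℚ] S n c)) : S m d →+* C) (gs m d j)) = w :=
      funext h4
    rwa [h6] at h5
  · rw [backInto_iff]
    intro C _ _ u w hu hw i
    obtain ⟨θ, h3, h4⟩ := key C u w hu hw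
    have h5 := congrArg (θ.comp (e.symm : S m d →ₐ[ℚ] S n c)) (h2 i)
    rw [map_mul, map_natCast] at h5
    have h6 : (θ.comp (e.symm : S m d →ₐ[ℚ] S n c)) (e (gs n c i)) = u i := by
      change θ (e.symm (e (gs n c i))) = _
      rw [AlgEquiv.symm_apply_apply, h3]
    have h7 : (θ.comp (e.symm : S m d →ₐ[ℚ] S n c)) (ev (V m (gs m d)) (φ.getD i [])) =
        ev (V m w) (φ.getD i []) := by
      change ((θ.comp (e.symm : S m d →ₐ[ℚ] S n c)) : S m d →+* C) _ = _
      rw [map_ev, map_V]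
      congr 2
      funext j
      exact h4 j
    rw [h6, h7] at h5
    exact h5

/-- **Isomorphisms give certificates.** -/
theorem cert_of_iso (e : S n c ≃ₐ[ℚ] S m d) : ∃ (E : ℕ) (ψ φ : List Poly), 1 ≤ E ∧
    MapInto n c m d E ψ ∧ BackInto n c m E ψ φ ∧ MapInto m d n c E φ ∧ BackInto m d n E φ ψ := by
  obtain ⟨E, hE, h1⟩ := exists_family fun j : Fin m => e.symm (gs m d j)
  obtain ⟨F, hF, h2⟩ := exists_family fun i : Fin n => e (gs n c i)
  obtain ⟨ψ, hψ⟩ := h1 F
  obtain ⟨φ, hφ⟩ := h2 E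
  have hEF : 1 ≤ F * E := Nat.mul_pos hF hE
  rw [mul_comm E F] at hφ
  have h3 := half_of_iso hEF e hψ hφ
  have h4 := half_of_iso hEF e.symm hφ hψ
  exact ⟨F * E, ψ, φ, hEF, h3.1, h3.2, h4.1, h4.2⟩

end

end Pool.Agent.Helper59.MC
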