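import Pool.Agent.Helper59.MC.Comp
import Pool.Agent.Helper59.MC.Sys

/-!
# Certificates for points over number fields
-/

set_option autoImplicit false

namespace Pool.Agent.Helper59.MC

open Pool.Agent.Q324.SC Pool.Agent.Q324.SC.Idl

/-- The polynomial `a t ^ (d + 1) + l` in one variable. -/
def mu (a d : ℕ) (l : Poly) : Poly := ((a : ℤ), (List.range (d + 1)).map fun _ => 0) :: l

/-- the values of a polynomial in one variable -/
def ev1 {C : Type*} [CommRing C] (x : C) (p : Poly) : C := ev (V 1 fun _ => x) p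

section

variable {C D : Type*} [CommRing C] [CommRing D]

lemma map_ev1 (f : C →+* D) (x : C) (p : Poly) : f (ev1 x p) = ev1 (f x) p := by
  unfold ev1
  rw [map_ev, map_V]

lemma ev1_mu (x : C) (a d : ℕ) (l : Poly) : ev1 x (mu a d l) = a * x ^ (d + 1) + ev1 x l := by
  unfold ev1 mu
  rw [ev_cons, List.map_map]
  congr 1
  have h1 : ((V 1 fun _ => x) ∘ fun _ : ℕ => (0 : ℕ)) = fun _ => x := by
    funext i
    simp [V]
  rw [h1]
  simp

end

lemma natDegree_mon (K : Type*) [Field K] (l : List ℕ) :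
    ((l.map (V 1 fun _ => (Polynomial.X : Polynomial K))).prod).natDegree ≤ l.length := by
  induction l with
  | nil => simp
  | cons i l ih =>
    rw [List.map_cons, List.prod_cons, List.length_cons]
    refine Polynomial.natDegree_mul_le.trans ?_
    have h1 : (V 1 (fun _ => (Polynomial.X : Polynomial K)) i).natDegree ≤ 1 := by
      unfold V
      split_ifs
      · exact Polynomial.natDegree_X_le
      · simp
    omega

lemma natDegree_ev (K : Type*) [Field K] {d : ℕ} {l : Poly} (h : ∀ t ∈ l, t.2.length ≤ d) :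
    (ev1 (Polynomial.X : Polynomial K) l).natDegree ≤ d := by
  unfold ev1
  induction l with
  | nil => simp [ev]
  | cons t l ih =>
    rw [ev_cons]
    refine (Polynomial.natDegree_add_le _ _).trans (max_le ?_ (ih fun s hs =>
      h s (List.mem_cons_of_mem _ hs)))
    refine Polynomial.natDegree_mul_le.trans ?_
    rw [Polynomial.natDegree_intCast, zero_add]
    exact (natDegree_mon K t.2).trans (h t List.mem_cons_self)

/-- The polynomial has a root. -/
lemma exists_root_mu {K : Type*} [Field K] [IsAlgClosed K] [CharZero K] {a d : ℕ} {l : Poly}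
    (ha : 1 ≤ a) (h : ∀ t ∈ l, t.2.length ≤ d) : ∃ x : K, ev1 x (mu a d l) = 0 := by
  let q : Polynomial K := ev1 Polynomial.X (mu a d l)
  have h0 : (a : K) ≠ 0 := by
    have : a ≠ 0 := by omega
    exact_mod_cast this
  have h1 : q.degree = ((d + 1 : ℕ) : WithBot ℕ) := by
    have h2 : q = Polynomial.C (a : K) * Polynomial.X ^ (d + 1) + ev1 Polynomial.X l := by
      rw [Polynomial.C_eq_natCast]
      exact ev1_mu _ a d l
    rw [h2, Polynomial.degree_add_eq_left_of_degree_lt, Polynomial.degree_C_mul_X_pow _ h0]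
    rw [Polynomial.degree_C_mul_X_pow _ h0]
    refine lt_of_le_of_lt Polynomial.degree_le_natDegree ?_
    have h3 := natDegree_ev K h
    exact_mod_cast Nat.lt_succ_of_le h3
  obtain ⟨x, hx⟩ := IsAlgClosed.exists_root q (by
    rw [h1]
    exact_mod_cast Nat.succ_ne_zero d)
  refine ⟨x, ?_⟩
  have h2 : Polynomial.eval x q = ev1 x (mu a d l) := by
    have h3 := map_ev1 (Polynomial.evalRingHom x) (Polynomial.X : Polynomial K) (mu a d l)
    rw [Polynomial.coe_evalRingHom, Polynomial.eval_X] at h3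
    exact h3
  rw [← h2]
  exact hx

variable {n : ℕ} {c : List Poly}

lemma sol_one {C : Type*} [CommRing C] {p : Poly} {u : Fin 1 → C} : Sol 1 [p] u ↔ ev1 (u 0) p = 0 := by
  unfold Sol ev1
  have h1 : u = fun _ => u 0 := funext fun i => by rw [Subsingleton.elim i 0]
  constructor
  · intro h
    rw [← h1]
    exact h p List.mem_cons_self
  · intro h q hq
    rw [List.mem_singleton] at hq
    rw [hq, h1]
    exact h

/-- **Soundness.** -/
theorem point_of_cert {a d E : ℕ} {l : Poly} {P : List Poly} (ha : 1 ≤ a) (hE : 1 ≤ E)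
    (hl : ∀ t ∈ l, t.2.length ≤ d) (h : MapInto 1 [mu a d l] n c E P) :
    ∃ u : Fin n → Qb, Sol n c u := by
  obtain ⟨x, hx⟩ := exists_root_mu (K := Qb) ha hl
  obtain ⟨b, hb⟩ := isUnit_nat Qb hE
  refine ⟨_, mapInto_iff.1 h Qb (fun _ => x) (fun j => ((b⁻¹ : Qbˣ) : Qb) *
    ev (V 1 fun _ => x) (P.getD j [])) (sol_one.2 hx) fun j => ?_⟩
  rw [← mul_assoc, ← hb, Units.mul_inv, one_mul]

/-- the code of a rational polynomial in one variable -/
lemma exists_code1 (p : Polynomial ℚ) {d : ℕ} (hd : p.natDegree ≤ d) : ∃ a : ℕ, 1 ≤ a ∧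
    ∀ b : ℕ, ∃ l : Poly, (∀ t ∈ l, t.2.length ≤ d) ∧ ∀ (C : Type) [CommRing C] [Algebra ℚ C] (x : C),
      ev1 x l = ((b * a : ℕ) : C) * Polynomial.aeval x p := by
  have h1 : ∀ i, ∃ z : ℤ, (z : ℚ) = ((∏ j ∈ Finset.range (d + 1), (p.coeff j).den : ℕ) : ℚ) *
      (if i ≤ d then p.coeff i else 0) := by
    intro i
    by_cases h : i ≤ d
    · rw [if_pos h, ← Finset.prod_erase_mul _ _ (Finset.mem_range.2 (Nat.lt_succ_of_le h))]
      refine ⟨(∏ j ∈ (Finset.range (d + 1)).erase i, (p.coeff j).den : ℕ) * (p.coeff i).num, ?_⟩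
      have h2 : (((p.coeff i).den : ℕ) : ℚ) * p.coeff i = (p.coeff i).num := by
        rw [mul_comm]
        exact_mod_cast Rat.mul_den_eq_num (p.coeff i)
      push_cast
      rw [mul_assoc, h2]
    · exact ⟨0, by rw [if_neg h]; simp⟩
  choose z hz using h1
  refine ⟨∏ j ∈ Finset.range (d + 1), (p.coeff j).den, Nat.one_le_iff_ne_zero.2
    (Finset.prod_ne_zero_iff.2 fun j _ => (p.coeff j).den_ne_zero), fun b => ?_⟩
  refine ⟨(List.range (d + 1)).map fun i => ((b : ℤ) * z i, (List.range i).map fun _ => 0), ?_, ?_⟩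
  · intro t ht
    obtain ⟨i, hi, rfl⟩ := List.mem_map.1 ht
    rw [List.mem_range] at hi
    simp
    omega
  · intro C _ _ x
    have h3 : ∀ k : ℕ, k ≤ d + 1 → ev1 x ((List.range k).map fun i =>
        ((b : ℤ) * z i, (List.range i).map fun _ => (0 : ℕ))) =
        ∑ i ∈ Finset.range k, (((b : ℤ) * z i : ℤ) : C) * x ^ i := by
      intro k hk
      induction k with
      | zero => simp [ev1, ev]
      | succ k ih =>
        rw [List.range_succ, List.map_append, Finset.sum_range_succ, ← ih (by omega)]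
        unfold ev1
        rw [ev_append]
        congr 1
        rw [List.map_cons, List.map_nil, ev_cons, ev_nil, List.map_map]
        have h1 : ((V 1 fun _ => x) ∘ fun _ : ℕ => (0 : ℕ)) = fun _ => x := by
          funext i
          simp [V]
        rw [h1]
        simp
    rw [h3 (d + 1) le_rfl, Polynomial.aeval_eq_sum_range' (Nat.lt_succ_of_le hd), Finset.mul_sum]
    refine Finset.sum_congr rfl fun i hi => ?_
    rw [Finset.mem_range] at hi
    have h4 := hz i
    rw [if_pos (by omega)] at h4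
    have h5 := congrArg (algebraMap ℚ C) h4
    rw [map_mul, map_intCast, map_natCast] at h5
    rw [Algebra.smul_def]
    push_cast
    rw [h5]
    push_cast
    ring

/-- **Completeness.** -/
theorem cert_of_nontrivial [hn : Nontrivial (S n c)] : ∃ (a d E : ℕ) (l : Poly) (P : List Poly),
    1 ≤ a ∧ 1 ≤ E ∧ (∀ t ∈ l, t.2.length ≤ d) ∧ MapInto 1 [mu a d l] n c E P := by
  obtain ⟨m, hm⟩ := Ideal.exists_maximal (S n c)
  let k := S n c ⧸ m
  let _ : Field k := Ideal.Quotient.field m
  have hft : Algebra.FiniteType ℚ k :=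
    Algebra.FiniteType.of_surjective (Ideal.Quotient.mkₐ ℚ m) (Ideal.Quotient.mkₐ_surjective ℚ m)
  have hfin : Module.Finite ℚ k := finite_of_finite_type_of_isJacobsonRing ℚ k
  obtain ⟨θ, hθ⟩ := Field.exists_primitive_element ℚ k
  have hint : IsIntegral ℚ θ := Algebra.IsIntegral.isIntegral θ
  have hsurj : ∀ x : k, ∃ p : Polynomial ℚ, Polynomial.aeval θ p = x := by
    intro x
    have h1 : x ∈ IntermediateField.adjoin ℚ {θ} := by
      rw [hθ]
      trivial
    rw [← IntermediateField.mem_toSubalgebra,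
      IntermediateField.adjoin_simple_toSubalgebra_of_isAlgebraic hint.isAlgebraic,
      Algebra.adjoin_singleton_eq_range_aeval] at h1
    exact h1
  let x : Fin n → k := fun j => Ideal.Quotient.mk m (gs n c j)
  have hx : Sol n c x := sol_gs.map (Ideal.Quotient.mk m)
  choose p hp using fun j => hsurj (x j)
  obtain ⟨D, hD⟩ : ∃ D : ℕ, ∀ j, (p j).natDegree ≤ D :=
    ⟨Finset.univ.sup fun j => (p j).natDegree, fun j =>
      Finset.le_sup (f := fun j => (p j).natDegree) (Finset.mem_univ j)⟩
  choose F hF hF2 using fun j => exists_code1 (p j) (hD j)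
  -- the minimal polynomial
  let q := minpoly ℚ θ
  have hq : q.Monic := minpoly.monic hint
  have hdeg : 0 < q.natDegree := minpoly.natDegree_pos hint
  obtain ⟨d, hd⟩ : ∃ d, q.natDegree = d + 1 := ⟨q.natDegree - 1, by omega⟩
  have hr : (q - Polynomial.X ^ (d + 1)).natDegree ≤ d := by
    have h1 : (q - Polynomial.X ^ (d + 1)).degree < q.degree := by
      refine Polynomial.degree_sub_lt_left ?_ hq.ne_zero ?_
      · rw [Polynomial.degree_X_pow, Polynomial.degree_eq_natDegree hq.ne_zero, hd]
      · rw [hq.leadingCoeff, (Polynomial.monic_X_pow _).leadingCoeff]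
    by_cases h0 : q - Polynomial.X ^ (d + 1) = 0
    · rw [h0]
      simp
    · have h2 := Polynomial.natDegree_lt_natDegree h0 h1
      omega
  obtain ⟨a, ha, ha2⟩ := exists_code1 (q - Polynomial.X ^ (d + 1)) hr
  obtain ⟨l, hl, hl2⟩ := ha2 1
  let E := ∏ j, F j
  have hE : 1 ≤ E := Nat.one_le_iff_ne_zero.2 (Finset.prod_ne_zero_iff.2 fun j _ => by
    have := hF j
    omega)
  choose L hL hL2 using fun j => hF2 j (∏ i ∈ Finset.univ.erase j, F i)
  refine ⟨a, d, E, l, List.ofFn L, ha, hE, hl, ?_⟩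
  rw [mapInto_iff]
  intro C _ _ u w hu hw
  rw [sol_one, ev1_mu, hl2 C (u 0)] at hu
  have hu' : Polynomial.aeval (u 0) q = 0 := by
    have h1 : (a : C) * Polynomial.aeval (u 0) q = 0 := by
      rw [map_sub, map_pow, Polynomial.aeval_X, one_mul] at hu
      rw [← hu]
      ring
    exact (isUnit_nat C ha).mul_left_cancel (by rw [h1, mul_zero])
  have hw' : ∀ j, w j = Polynomial.aeval (u 0) (p j) := by
    intro j
    have h1 := hw j
    have h2 : (List.ofFn L).getD j [] = L j := by
      rw [List.getD_eq_getElem _ _ (by simp)]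
      simp
    have h3 : ev (V 1 u) (L j) = ev1 (u 0) (L j) := by
      unfold ev1
      congr 2
      funext i
      rw [Subsingleton.elim i 0]
    rw [h2, h3, hL2 j C (u 0), Finset.prod_erase_mul _ _ (Finset.mem_univ j)] at h1
    exact (isUnit_nat C hE).mul_left_cancel h1
  intro g hg
  have h1 : w = fun j => Polynomial.aeval (u 0) (p j) := funext hw'
  let Q : Polynomial ℚ := ev (V n p) g
  have h2 : ∀ (B : Type) [CommRing B] [Algebra ℚ B] (y : B),
      Polynomial.aeval y Q = ev (V n fun j => Polynomial.aeval y (p j)) g := by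
    intro B _ _ y
    have h3 := map_ev (Polynomial.aeval y : Polynomial ℚ →ₐ[ℚ] B).toRingHom (V n p) g
    rw [map_V] at h3
    exact h3
  have h4 : Polynomial.aeval θ Q = 0 := by
    rw [h2 k θ]
    have h5 : (fun j => Polynomial.aeval θ (p j)) = x := funext hp
    rw [h5]
    exact hx g hg
  obtain ⟨R, hR⟩ := minpoly.dvd ℚ θ h4
  rw [h1, ← h2 C (u 0), hR, map_mul]
  change Polynomial.aeval (u 0) q * _ = 0
  rw [hu', zero_mul]

end Pool.Agent.Helper59.MC
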