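import Pool.Agent.Helper59.MC.Sys

/-!
# Certificates for smoothness
-/

set_option autoImplicit false

namespace Pool.Agent.Helper59.MC

open Pool.Agent.Q324.SC Pool.Agent.Q324.SC.Idl MvPolynomial

/-- the products of two equations -/
def sq (c : List Poly) : List Poly := c.flatMap fun p => c.map fun q => mul p q

/-- the equations `ψ = E x` -/
def tg3 (n E : ℕ) (ψ : List Poly) : List Poly := (List.range n).map fun i =>
    [((E : ℤ), [i])] ++ mul [(-1, [])] (ψ.getD i [])

/-- A section of the ring modulo the square of the ideal. -/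
def SmOk (n : ℕ) (c : List Poly) (E : ℕ) (ψ : List Poly) : Prop :=
  1 ≤ E ∧ MapInto n (sq c) n c E ψ ∧ ∀ t ∈ tg3 n E ψ, rv n t ∈ J n c

variable {n : ℕ} {c : List Poly}

lemma J_sq : J n (sq c) = J n c ^ 2 := by
  rw [pow_two, J_eq, J_eq, Ideal.span_mul_span']
  congr 1
  ext f
  constructor
  · rintro ⟨p, hp, rfl⟩
    obtain ⟨a, ha, hp⟩ := List.mem_flatMap.1 hp
    obtain ⟨b, hb, rfl⟩ := List.mem_map.1 hp
    rw [rv_mul]
    exact Set.mul_mem_mul ⟨a, ha, rfl⟩ ⟨b, hb, rfl⟩
  · intro hf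
    obtain ⟨_, ⟨a, ha, rfl⟩, _, ⟨b, hb, rfl⟩, rfl⟩ := Set.mem_mul.1 hf
    exact ⟨mul a b, List.mem_flatMap.2 ⟨a, ha, List.mem_map.2 ⟨b, hb, rfl⟩⟩, (rv_mul n a b).symm⟩

lemma J_sq_le : J n (sq c) ≤ J n c := by
  rw [J_sq]
  exact Ideal.pow_le_self two_ne_zero

/-- the projection -/
noncomputable def pr (n : ℕ) (c : List Poly) : S n (sq c) →ₐ[ℚ] S n c :=
  Ideal.Quotient.factorₐ ℚ J_sq_le

lemma pr_mk (a : MvPolynomial (Fin n) ℚ) :
    pr n c (Ideal.Quotient.mk _ a) = Ideal.Quotient.mk _ a := rfl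

lemma pr_gs (i : Fin n) : pr n c (gs n (sq c) i) = gs n c i := rfl

lemma pr_surj : Function.Surjective (pr n c) := by
  intro x
  obtain ⟨a, rfl⟩ := Ideal.Quotient.mk_surjective x
  exact ⟨Ideal.Quotient.mk _ a, rfl⟩

lemma pr_ker : IsNilpotent (RingHom.ker (pr n c)) := by
  refine ⟨2, ?_⟩
  have h1 : RingHom.ker (pr n c) ≤ (J n c).map (Ideal.Quotient.mk (J n (sq c))) := by
    intro x hx
    obtain ⟨a, rfl⟩ := Ideal.Quotient.mk_surjective x
    rw [RingHom.mem_ker, pr_mk, Ideal.Quotient.eq_zero_iff_mem] at hx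
    exact Ideal.mem_map_of_mem _ hx
  have h2 := Ideal.pow_right_mono h1 2
  rw [← Ideal.map_pow, ← J_sq, Ideal.map_quotient_self] at h2
  exact le_bot_iff.1 h2

lemma ev_pr (p : Poly) : pr n c (ev (V n (gs n (sq c))) p) = ev (V n (gs n c)) p := by
  change (pr n c : S n (sq c) →+* S n c) _ = _
  rw [map_ev, map_V]
  rfl

/-- **Smoothness has certificates.** -/
theorem smooth_iff : Algebra.FormallySmooth ℚ (S n c) ↔ ∃ E ψ, SmOk n c E ψ := by
  constructor
  · intro h
    let σ := Algebra.FormallySmooth.liftOfSurjective (AlgHom.id ℚ (S n c)) (pr n c) pr_surj pr_ker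
    have hσ : ∀ x, pr n c (σ x) = x := fun x =>
      Algebra.FormallySmooth.liftOfSurjective_apply (AlgHom.id ℚ (S n c)) (pr n c) pr_surj pr_ker x
    obtain ⟨E, hE, h1⟩ := exists_family fun j : Fin n => σ (gs n c j)
    obtain ⟨ψ, hψ⟩ := h1 1
    rw [one_mul] at hψ
    refine ⟨E, ψ, hE, ?_, ?_⟩
    · rw [mapInto_iff]
      intro C _ _ u w hu hw
      obtain ⟨θ, hθ⟩ := hu.lift
      have h2 : ∀ j, θ (σ (gs n c j)) = w j := by
        intro j
        have h3 := congrArg θ (hψ j)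
        rw [map_mul, map_natCast] at h3
        have h4 : θ (ev (V n (gs n (sq c))) (ψ.getD j [])) = ev (V n u) (ψ.getD j []) := by
          change (θ : S n (sq c) →+* C) _ = _
          rw [map_ev, map_V]
          congr 2
          funext i
          exact hθ i
        rw [h4, ← hw] at h3
        exact (isUnit_nat C hE).mul_left_cancel h3
      have h5 := (sol_gs (n := n) (c := c)).map ((θ.comp σ) : S n c →+* C)
      have h6 : (fun j => ((θ.comp σ) : S n c →+* C) (gs n c j)) = w := funext h2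
      rwa [h6] at h5
    · intro t ht
      obtain ⟨i, hi, rfl⟩ := List.mem_map.1 ht
      rw [List.mem_range] at hi
      rw [mem_iff, ev_eqn, V_lt hi, ← ev_pr, ← hψ ⟨i, hi⟩, map_mul, map_natCast, hσ, sub_self]
  · rintro ⟨E, ψ, hE, h1, h2⟩
    obtain ⟨f, hf⟩ := exists_sol hE h1
    have h3 : ∀ x, pr n c (f x) = x := by
      have h4 : (pr n c).comp f = AlgHom.id ℚ (S n c) := by
        refine S_ext fun i => ?_
        have h5 := congrArg (pr n c) (hf i)
        rw [map_mul, map_natCast, ev_pr] at h5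
        have h6 := h2 _ (List.mem_map_of_mem (List.mem_range.2 i.2))
        rw [mem_iff, ev_eqn, V_lt i.2, sub_eq_zero] at h6
        exact (isUnit_nat (S n c) hE).mul_left_cancel (h5.trans h6.symm)
      exact fun x => DFunLike.congr_fun h4 x
    let q : MvPolynomial (Fin n) ℚ →ₐ[ℚ] S n c := Ideal.Quotient.mkₐ ℚ (J n c)
    have hq : RingHom.ker q.toRingHom = J n c := Ideal.mk_ker
    have hq2 : J n (sq c) = RingHom.ker q.toRingHom ^ 2 := by rw [hq, J_sq]
    rw [Algebra.FormallySmooth.iff_split_surjection q (Ideal.Quotient.mkₐ_surjective ℚ _)]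
    refine ⟨((Ideal.quotientEquivAlgOfEq ℚ hq2 : S n (sq c) ≃ₐ[ℚ] _) :
      S n (sq c) →ₐ[ℚ] _).comp f, ?_⟩
    refine AlgHom.ext fun x => ?_
    obtain ⟨a, ha⟩ := Ideal.Quotient.mk_surjective (f x)
    change q.kerSquareLift ((Ideal.quotientEquivAlgOfEq ℚ hq2) (f x)) = x
    rw [← ha, Ideal.quotientEquivAlgOfEq_mk]
    change q a = x
    have h7 := h3 x
    rw [← ha, pr_mk] at h7
    exact h7

end Pool.Agent.Helper59.MC
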