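import Pool.Agent.Helper59.MC.ConfRing
import Pool.Agent.Helper59.MC.Cover
import Pool.Agent.Helper59.MC.Loc
import Pool.Agent.Helper59.MC.Point
import Pool.Agent.Helper59.MC.Smooth

/-!
# Certificates for the function fields of moduli spaces
-/

set_option autoImplicit false

open CategoryTheory AlgebraicGeometry

namespace Pool.Agent.Helper59.MC

open Pool.Agent.Q324.SC Pool.Agent.Q324.SC.Idl Pool.Agent.Helper13.RM
  Pool.Agent.Helper3.GU

/-- the data of an isomorphism of two localised systems -/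
abbrev Pc : Type := (Poly × Poly) × (ℕ × List Poly × List Poly)

/-- The isomorphism of the localisation of the system `(n, c)` with the localisation of the system
`(k, d)`. -/
def PcOk (n : ℕ) (c : List Poly) (k : ℕ) (d : List Poly) (q : Pc) : Prop :=
  1 ≤ q.2.1 ∧
  MapInto (n + 1) (loc n c q.1.1) (k + 1) (loc k d q.1.2) q.2.1 q.2.2.1 ∧
  BackInto (n + 1) (loc n c q.1.1) (k + 1) q.2.1 q.2.2.1 q.2.2.2 ∧
  MapInto (k + 1) (loc k d q.1.2) (n + 1) (loc n c q.1.1) q.2.1 q.2.2.2 ∧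
  BackInto (k + 1) (loc k d q.1.2) (n + 1) q.2.1 q.2.2.2 q.2.2.1

/-- the product of the functions of the pieces -/
def hpr (L : List Pc) : Poly := (L.map fun q => q.1.2).foldr mul [(1, [])]

/-- test for simple configurations -/
def smp (w : Code) : Bool :=
  ((List.range (w.1 + 4)).map fun a => ((List.range (w.1 + 4)).map fun b =>
    (decide (a = b) || ((List.range (w.1 + 4)).map fun c => mT w.2 (a, b, c)).foldr
      (fun a b => a || b) false)).foldr (fun a b => a && b) true).foldr (fun a b => a && b) true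

/-- the data of a point -/
abbrev Pd : Type := (ℕ × ℕ) × (ℕ × Poly × List Poly)

/-- a point of the system over a number field -/
def PdOk (k : ℕ) (d : List Poly) (p : Pd) : Prop :=
  1 ≤ p.1.1 ∧ 1 ≤ p.2.1 ∧ (∀ t ∈ p.2.2.1, t.2.length ≤ p.1.2) ∧
    MapInto 1 [mu p.1.1 p.1.2 p.2.2.1] k d p.2.1 p.2.2.2

/-- The moduli space with the code `w` is smooth, and has the function field of the system
`(n, c)`. -/
def Good (n : ℕ) (c : List Poly) (w : Code) : Prop :=
  smp w = true ∧ (∃ E ψ, SmOk (nv w.1) (conf w) E ψ) ∧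
  ∃ (L : List Pc) (p : Pd), (∀ q ∈ L, PcOk n c (nv w.1) (conf w) q) ∧
    rv (nv w.1) [(1, [])] ∈ J (nv w.1) (conf w ++ L.map fun q => q.1.2) ∧
    PdOk (nv w.1 + 1) (loc (nv w.1) (conf w) (hpr L)) p

lemma smp_iff {m : ℕ} {T : List (ℕ × ℕ × ℕ)} : smp (m, T) = true ↔
    ∀ a b : Fin 4 ⊕ Fin m, a ≠ b → ∃ c, (a, b, c) ∈ TS m T := by
  have key : ∀ a : ℕ, a < m + 4 ↔ ∃ x : Fin 4 ⊕ Fin m, ix x = a := by
    intro a
    constructor
    · intro h
      by_cases h1 : a < 4
      · exact ⟨Sum.inl ⟨a, h1⟩, rfl⟩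
      · exact ⟨Sum.inr ⟨a - 4, by omega⟩, by change a - 4 + 4 = a; omega⟩
    · rintro ⟨x | x, rfl⟩
      · change (x : ℕ) < _
        omega
      · change (x : ℕ) + 4 < _
        omega
  have hix : Function.Injective (ix : Fin 4 ⊕ Fin m → ℕ) := by
    rintro (x | x) (y | y) h
    · exact congrArg Sum.inl (Fin.ext h)
    · have h1 : (x : ℕ) = y + 4 := h
      omega
    · have h1 : (x : ℕ) + 4 = y := h
      omega
    · have h1 : (x : ℕ) + 4 = y + 4 := h
      exact congrArg Sum.inr (Fin.ext (by omega))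
  unfold smp
  simp only [foldr_and, foldr_or, List.mem_range, Bool.or_eq_true, decide_eq_true_eq, mT_iff]
  constructor
  · intro h a b hab
    rcases h _ ((key _).2 ⟨a, rfl⟩) _ ((key _).2 ⟨b, rfl⟩) with h1 | ⟨c, hc, h1⟩
    · exact (hab (hix h1)).elim
    · obtain ⟨c, rfl⟩ := (key c).1 hc
      exact ⟨c, h1⟩
  · intro h a ha b hb
    obtain ⟨a, rfl⟩ := (key a).1 ha
    obtain ⟨b, rfl⟩ := (key b).1 hb
    by_cases hab : a = b
    · left
      rw [hab]
    · obtain ⟨c, hc⟩ := h a b hab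
      exact Or.inr ⟨ix c, (key _).2 ⟨c, rfl⟩, hc⟩

/-- a solution over a field gives the matroid -/
lemma exists_matroid {m : ℕ} {T : List (ℕ × ℕ × ℕ)} (hs : smp (m, T) = true)
    {u : Fin (nv m) → Qb} (hu : Sol (nv m) (conf (m, T)) u) :
    ∃ M : Matroid (Fin 4 ⊕ Fin m), (∀ t, M.IsBase (elts t) ↔ t ∈ TS m T) ∧ Framed M ∧
      IsSimple M := by
  have h1 := (sol_conf.1 hu).1.1
  have h2 : ∀ t, (matM (vecs (vq u))).IsBase (elts t) ↔ t ∈ TS m T := by
    intro t
    rw [base_iff]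
    constructor
    · intro h
      by_contra h3
      exact h (h1.1 t h3)
    · intro h
      exact (h1.2 t h).ne_zero
  refine ⟨matM (vecs (vq u)), h2, framed_matM _, ?_⟩
  intro e f hef
  obtain ⟨c, hc⟩ := smp_iff.1 hs e f hef
  refine ((h2 _).2 hc).indep.subset ?_
  intro x hx
  rcases hx with rfl | hx
  · exact Or.inl rfl
  · exact Or.inr (Or.inl hx)

lemma ev_hpr {C : Type*} [CommRing C] (u : ℕ → C) (L : List Pc) :
    ev u (hpr L) = (L.map fun q => ev u q.1.2).prod := by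
  unfold hpr
  induction L with
  | nil => simp [ev]
  | cons q L ih =>
    rw [List.map_cons, List.foldr_cons, ev_mul, ih, List.map_cons, List.prod_cons]

section

variable {n k : ℕ} {c d : List Poly}

lemma pc_iso {q : Pc} (h : PcOk n c k d q) : Nonempty
    (Localization.Away (ev (V n (gs n c)) q.1.1) ≃ₐ[ℚ] Localization.Away (ev (V k (gs k d)) q.1.2)) := by
  obtain ⟨h1, h2, h3, h4, h5⟩ := h
  obtain ⟨e⟩ := iso_of_cert h1 h2 h3 h4 h5
  obtain ⟨e1⟩ := loc_iso (n := n) (c := c) q.1.1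
  obtain ⟨e2⟩ := loc_iso (n := k) (c := d) q.1.2
  exact ⟨(e1.symm.trans e).trans e2⟩

/-- **The ring covered by the pieces is a domain with the same field of fractions.** -/
theorem domain_of_pieces [IsDomain (S n c)] {L : List Pc} {p : Pd} (hL : ∀ q ∈ L, PcOk n c k d q)
    (h1 : rv k [(1, [])] ∈ J k (d ++ L.map fun q => q.1.2)) (hp : PdOk (k + 1) (loc k d (hpr L)) p) :
    (∃ u : Fin k → Qb, Sol k d u) ∧ ∃ _ : IsDomain (S k d),
      Nonempty (FractionRing (S n c) ≃+* FractionRing (S k d)) := by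
  obtain ⟨ha, hE, hl, hm⟩ := hp
  obtain ⟨u, hu⟩ := point_of_cert ha hE hl hm
  rw [sol_loc] at hu
  obtain ⟨hu1, hu2⟩ := hu
  refine ⟨⟨_, hu1⟩, ?_⟩
  obtain ⟨f, hf⟩ := hu1.lift
  have hfv : ∀ q : Poly, f (ev (V k (gs k d)) q) = ev (V k fun i => u (Fin.castAdd 1 i)) q := by
    intro q
    change (f : S k d →+* Qb) _ = _
    rw [map_ev, map_V]
    congr 2
    funext i
    exact hf i
  have hne : ∀ q ∈ L, f (ev (V k (gs k d)) q.1.2) ≠ 0 := by
    intro q hq h0
    rw [hfv] at h0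
    rw [ev_hpr] at hu2
    have h3 : (L.map fun q => ev (V k fun i => u (Fin.castAdd 1 i)) q.1.2).prod = 0 :=
      List.prod_eq_zero (List.mem_map.2 ⟨q, hq, h0⟩)
    rw [h3, mul_zero] at hu2
    exact zero_ne_one hu2
  let h : {q // q ∈ L} → S k d := fun q => ev (V k (gs k d)) q.1.1.2
  have hspan : Ideal.span (Set.range h) = ⊤ := by
    rw [Ideal.eq_top_iff_one]
    have h4 : J k (d ++ L.map fun q => q.1.2) ≤
        (Ideal.span (Set.range h)).comap (Ideal.Quotient.mk (J k d)) := by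
      rw [J_eq, Ideal.span_le]
      rintro _ ⟨g, hg, rfl⟩
      change Ideal.Quotient.mk (J k d) (rv k g) ∈ Ideal.span (Set.range h)
      rw [List.mem_append] at hg
      rcases hg with hg | hg
      · rw [Ideal.Quotient.eq_zero_iff_mem.2 (rv_mem hg)]
        exact zero_mem _
      · obtain ⟨q, hq, rfl⟩ := List.mem_map.1 hg
        rw [mk_rv]
        exact Ideal.subset_span ⟨⟨q, hq⟩, rfl⟩
    have h5 := h4 h1
    rw [Ideal.mem_comap, mk_rv] at h5
    have h6 : ev (V k (gs k d)) [(1, [])] = 1 := by simp [ev]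
    rwa [h6] at h5
  have hnil : ∀ q q' : {q // q ∈ L}, ¬ IsNilpotent (h q * h q') := by
    intro q q' h0
    have h7 := h0.map f
    rw [map_mul] at h7
    have h8 := h7.eq_zero
    rcases mul_eq_zero.mp h8 with h9 | h9
    · exact hne q.1 q.2 h9
    · exact hne q'.1 q'.2 h9
  have hdom : ∀ q : {q // q ∈ L}, ev (V n (gs n c)) q.1.1.1 ≠ 0 ∧
      IsDomain (Localization.Away (h q)) := by
    intro q
    obtain ⟨e⟩ := pc_iso (hL q.1 q.2)
    have hnt : Nontrivial (Localization.Away (h q)) := by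
      by_contra h0
      rw [not_nontrivial_iff_subsingleton] at h0
      obtain ⟨N, hN⟩ := away_zero.1 (Subsingleton.elim
        (algebraMap (S k d) (Localization.Away (h q)) 1) 0)
      refine hnil q q ⟨N, ?_⟩
      rw [mul_pow, ← mul_one (h q ^ N), hN, zero_mul]
    have hnt' : Nontrivial (Localization.Away (ev (V n (gs n c)) q.1.1.1)) :=
      e.toEquiv.nontrivial
    have h0 := ne_zero_of_away (h := ev (V n (gs n c)) q.1.1.1)
    have := domain_away h0
    exact ⟨h0, e.symm.toMulEquiv.isDomain _⟩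
  have hLn : Nonempty {q // q ∈ L} := by
    by_contra h0
    rw [not_nonempty_iff] at h0
    have h9 : (Set.range h) = ∅ := Set.range_eq_empty h
    rw [h9, Ideal.span_empty] at hspan
    have h10 : (1 : S k d) ∈ (⊥ : Ideal (S k d)) := by
      rw [hspan]
      trivial
    have h11 : f 1 = 0 := by
      rw [(Ideal.mem_bot).1 h10, map_zero]
    rw [map_one] at h11
    exact one_ne_zero h11
  have hfin : Finite {q // q ∈ L} := List.finite_toSet L
  have hB := domain_of_cover h hspan (fun q => (hdom q).2) hnil hLn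
  refine ⟨hB, ?_⟩
  obtain ⟨q⟩ := hLn
  obtain ⟨e⟩ := pc_iso (hL q.1 q.2)
  have h12 : h q ≠ 0 := fun h0 => hnil q q ⟨1, by rw [h0]; simp⟩
  have i1 := domain_away (hdom q).1
  have i2 := domain_away h12
  obtain ⟨e1⟩ := frac_away (hdom q).1
  obtain ⟨e2⟩ := frac_away h12
  obtain ⟨e3⟩ := frac_equiv e.toRingEquiv
  exact ⟨(e1.symm.trans e3).trans e2⟩

end

/-- **Soundness.** -/
theorem sound {n : ℕ} {c : List Poly} (hJ : (J n c).IsPrime) {w : Code} (h : Good n c w) :
    ∃ M : Matroid (Fin 4 ⊕ Fin w.1), (∀ t, M.IsBase (elts t) ↔ tx t ∈ w.2) ∧ Framed M ∧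
      IsSimple M ∧ Algebra.Smooth ℚ (ModR ℚ M) ∧ ∃ _ : IsDomain (ModR ℚ M),
        Nonempty (FractionRing (S n c) ≃+* FractionRing (ModR ℚ M)) := by
  obtain ⟨m, T⟩ := w
  obtain ⟨hs, hsm, L, p, hL, h1, hp⟩ := h
  rw [← smooth_iff] at hsm
  have hA : IsDomain (S n c) := Ideal.Quotient.isDomain _
  obtain ⟨⟨u, hu⟩, hB, ⟨e⟩⟩ := domain_of_pieces hL h1 hp
  obtain ⟨M, hM, hF, hS⟩ := exists_matroid hs hu
  refine ⟨M, hM, hF, hS, ?_⟩
  have hT : {t | M.IsBase (elts t)} = TS m T := Set.ext hM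
  obtain ⟨e'⟩ := conf_iso (m := m) T
  have key : ∀ U : Set (Trip (Fin m)), U = TS m T →
      Algebra.Smooth ℚ (Localization.Away (modD ℚ U)) ∧
      ∃ _ : IsDomain (Localization.Away (modD ℚ U)),
        Nonempty (FractionRing (S n c) ≃+* FractionRing (Localization.Away (modD ℚ U))) := by
    rintro U rfl
    have h2 : Algebra.FormallySmooth ℚ (Localization.Away (modD ℚ (TS m T))) :=
      Algebra.FormallySmooth.of_equiv e'
    have h3 : Algebra.FiniteType ℚ (Localization.Away (modD ℚ (TS m T))) := ft_loc _ _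
    have h4 : Algebra.FinitePresentation ℚ (Localization.Away (modD ℚ (TS m T))) :=
      Algebra.FinitePresentation.of_finiteType.1 h3
    refine ⟨⟨h2, h4⟩, ?_⟩
    have i1 : IsDomain (Localization.Away (modD ℚ (TS m T))) := e'.symm.toMulEquiv.isDomain _
    obtain ⟨e2⟩ := frac_equiv e'.toRingEquiv
    exact ⟨i1, ⟨e.trans e2⟩⟩
  exact key _ hT

end Pool.Agent.Helper59.MC
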