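import Pool.Agent.Helper59.MC.Cert

/-!
# Completeness of the certificates
-/

set_option autoImplicit false

open CategoryTheory AlgebraicGeometry Pool.Agent.Y116.UV Pool.Agent.Q282.UK Pool.Agent.Helper3.GU

namespace Pool.Agent.Helper59.MC

open Pool.Agent.Q324.SC Pool.Agent.Q324.SC.Idl Pool.Agent.Helper13.RM

section

variable {A B B' : Type} [CommRing A] [CommRing B] [CommRing B']

lemma open_comp_equiv (φ : A →+* B) (e : B ≃+* B')
    (h : IsOpenImmersion (Spec.map (CommRingCat.ofHom φ))) :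
    IsOpenImmersion (Spec.map (CommRingCat.ofHom ((e : B →+* B').comp φ))) := by
  have h1 : IsIso (CommRingCat.ofHom (e : B →+* B')) :=
    (ConcreteCategory.isIso_iff_bijective _).2 e.bijective
  rw [CommRingCat.ofHom_comp, Spec.map_comp]
  infer_instance

lemma away_assoc {g g' : A} (h : Associated g g') :
    Nonempty (Localization.Away g ≃+* Localization.Away g') := by
  have h1 : IsLocalization.Away g (Localization.Away g') := IsLocalization.Away.of_associated h.symm
  exact ⟨(IsLocalization.algEquiv (Submonoid.powers g) (Localization.Away g)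
    (Localization.Away g')).toRingEquiv⟩

end

section

variable {n k : ℕ} {c d : List Poly}

lemma exists_code_S (x : S n c) :
    ∃ (E : ℕ) (p : Poly), 1 ≤ E ∧ (E : S n c) * x = ev (V n (gs n c)) p := by
  obtain ⟨a, ha⟩ := Ideal.Quotient.mk_surjective x
  obtain ⟨E, p, hE, hp⟩ := exists_code a
  refine ⟨E, p, hE, ?_⟩
  rw [← mk_rv, ← hp, map_mul, map_natCast, ha]

lemma ratEquiv {A B : Type} [CommRing A] [CommRing B] [Algebra ℚ A] [Algebra ℚ B] (e : A ≃+* B) :
    Nonempty (A ≃ₐ[ℚ] B) :=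
  ⟨AlgEquiv.ofRingEquiv (f := e) fun r => (e : A →+* B).toRatAlgHom.commutes r⟩

lemma exists_piece (φ : S n c →+* S k d) {g : S n c}
    (hg : Function.Bijective (Localization.awayMap φ g)) :
    ∃ q : Pc, PcOk n c k d q ∧ ∃ F : ℕ, 1 ≤ F ∧ ev (V k (gs k d)) q.1.2 = F * φ g := by
  obtain ⟨E, s, hE, hs⟩ := exists_code_S g
  obtain ⟨F, h, hF, hh⟩ := exists_code_S (φ g)
  obtain ⟨e1⟩ := loc_iso (n := n) (c := c) s
  obtain ⟨e2⟩ := loc_iso (n := k) (c := d) h
  rw [← hs] at e1
  rw [← hh] at e2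
  obtain ⟨e3⟩ := away_assoc (g := (E : S n c) * g) (g' := g) (by
    rw [mul_comm]
    exact (associated_mul_unit_left g _ (isUnit_nat (S n c) hE)))
  obtain ⟨e4⟩ := away_assoc (g := φ g) (g' := (F : S k d) * φ g) (by
    rw [mul_comm]
    exact (associated_mul_unit_left (φ g) _ (isUnit_nat (S k d) hF)).symm)
  let e5 : Localization.Away g ≃+* Localization.Away (φ g) := RingEquiv.ofBijective _ hg
  obtain ⟨e⟩ := ratEquiv ((((e1.toRingEquiv.trans e3).trans e5).trans e4).trans
    e2.symm.toRingEquiv)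
  obtain ⟨N, ψ, χ, hN, h1, h2, h3, h4⟩ := cert_of_iso e
  exact ⟨((s, h), (N, ψ, χ)), ⟨hN, h1, h2, h3, h4⟩, F, hF, hh.symm⟩

lemma exists_pieces [IsDomain (S k d)] (φ : S n c →+* S k d) (l : List (S n c))
    (hl : ∀ g ∈ l, Function.Bijective (Localization.awayMap φ g) ∧ φ g ≠ 0) :
    ∃ L : List Pc, (∀ q ∈ L, PcOk n c k d q ∧ ev (V k (gs k d)) q.1.2 ≠ 0) ∧
      ∀ g ∈ l, ∃ q ∈ L, ∃ F : ℕ, 1 ≤ F ∧ ev (V k (gs k d)) q.1.2 = F * φ g := by
  induction l with
  | nil => exact ⟨[], fun q hq => by simp at hq, fun g hg => by simp at hg⟩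
  | cons g l ih =>
    obtain ⟨L, h1, h2⟩ := ih fun g' hg' => hl g' (List.mem_cons_of_mem _ hg')
    obtain ⟨q, hq, F, hF, hqF⟩ := exists_piece φ (hl g List.mem_cons_self).1
    refine ⟨q :: L, ?_, ?_⟩
    · intro q' hq'
      rcases List.mem_cons.1 hq' with rfl | hq'
      · refine ⟨hq, ?_⟩
        rw [hqF]
        exact mul_ne_zero (isUnit_nat (S k d) hF).ne_zero (hl g List.mem_cons_self).2
      · exact h1 q' hq'
    · intro g' hg'
      rcases List.mem_cons.1 hg' with rfl | hg'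
      · exact ⟨q, List.mem_cons_self, F, hF, hqF⟩
      · obtain ⟨q', hq', h3⟩ := h2 g' hg'
        exact ⟨q', List.mem_cons_of_mem _ hq', h3⟩

/-- certificates from a cover -/
theorem pieces_of_cover [IsDomain (S k d)] (φ : S n c →+* S k d)
    (h : IsOpenImmersion (Spec.map (CommRingCat.ofHom φ))) :
    ∃ (L : List Pc) (p : Pd), (∀ q ∈ L, PcOk n c k d q) ∧
      rv k [(1, [])] ∈ J k (d ++ L.map fun q => q.1.2) ∧ PdOk (k + 1) (loc k d (hpr L)) p := by
  classical
  obtain ⟨G, hG, hG2⟩ := exists_cover φ h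
  obtain ⟨L, h1, h2⟩ := exists_pieces φ ((G.filter fun g => φ g ≠ 0).toList) (fun g hg => by
    rw [Finset.mem_toList, Finset.mem_filter] at hg
    exact ⟨hG2 g hg.1, hg.2⟩)
  have h3 : Ideal.span (φ '' ((G.filter fun g => φ g ≠ 0 : Finset (S n c)) : Set (S n c))) = ⊤ := by
    rw [eq_top_iff, ← hG, Ideal.span_le]
    rintro _ ⟨g, hg, rfl⟩
    by_cases h0 : φ g = 0
    · rw [h0]
      exact zero_mem _
    · exact Ideal.subset_span ⟨g, by
        rw [Finset.mem_coe, Finset.mem_filter]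
        exact ⟨hg, h0⟩, rfl⟩
  have h4 : rv k [(1, [])] ∈ J k (d ++ L.map fun q => q.1.2) := by
    let I := J k (d ++ L.map fun q => q.1.2)
    let I' := I.map (Ideal.Quotient.mk (J k d))
    have hI' : I' = ⊤ := by
      rw [eq_top_iff, ← h3, Ideal.span_le]
      rintro _ ⟨g, hg, rfl⟩
      rw [Finset.mem_coe, ← Finset.mem_toList] at hg
      obtain ⟨q, hq, F, hF, hqF⟩ := h2 g hg
      have h5 : ev (V k (gs k d)) q.1.2 ∈ I' := by
        rw [← mk_rv]
        exact Ideal.mem_map_of_mem _ (rv_mem (List.mem_append_right _ (List.mem_map.2 ⟨q, hq, rfl⟩)))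
      rw [hqF] at h5
      exact (Ideal.unit_mul_mem_iff_mem _ (isUnit_nat (S k d) hF)).1 h5
    have h6 : (1 : S k d) ∈ I' := by
      rw [hI']
      trivial
    obtain ⟨a, ha, ha1⟩ := (Ideal.mem_map_iff_of_surjective _ Ideal.Quotient.mk_surjective).1 h6
    have h7 : J k d ≤ I := by
      rw [J_eq, Ideal.span_le]
      rintro _ ⟨p, hp, rfl⟩
      exact rv_mem (List.mem_append_left _ hp)
    have h8 : a - 1 ∈ J k d := by
      rw [← Ideal.Quotient.eq_zero_iff_mem, map_sub, map_one, ha1, sub_self]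
    have h9 : rv k [(1, [])] = a - (a - 1) := by
      rw [rv_const]
      push_cast
      ring
    rw [h9]
    exact sub_mem ha (h7 h8)
  have h5 : ev (V k (gs k d)) (hpr L) ≠ 0 := by
    rw [ev_hpr]
    intro h0
    rw [List.prod_eq_zero_iff] at h0
    obtain ⟨q, hq, hq0⟩ := List.mem_map.1 h0
    exact (h1 q hq).2 hq0
  have h6 := domain_away h5
  obtain ⟨e⟩ := loc_iso (n := k) (c := d) (hpr L)
  have h7 : Nontrivial (S (k + 1) (loc k d (hpr L))) := e.toEquiv.nontrivial
  obtain ⟨a, dd, E, l, P, ha, hE, hl, hP⟩ := cert_of_nontrivial (n := k + 1) (c := loc k d (hpr L))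
  exact ⟨L, ((a, dd), (E, l, P)), fun q hq => (h1 q hq).1, h4, ha, hE, hl, hP⟩

end

lemma smp_of_simple {m : ℕ} {T : List (ℕ × ℕ × ℕ)} {M : Matroid (Fin 4 ⊕ Fin m)}
    (hM : ∀ t, M.IsBase (elts t) ↔ t ∈ TS m T) (hF : Framed M) (hS : IsSimple M) :
    smp (m, T) = true := by
  rw [smp_iff]
  intro a b hab
  obtain ⟨B, hB, hab2⟩ := (hS a b hab).exists_isBase_superset
  have h3 := hF.card B hB
  obtain ⟨c, hc⟩ : ∃ c, B = {a, b, c} := by
    have h4 : ({a, b} : Set (Fin 4 ⊕ Fin m)).ncard = 2 := Set.ncard_pair hab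
    have hfin : B.Finite := Set.toFinite B
    obtain ⟨c, hc, hc2⟩ := Set.exists_mem_notMem_of_ncard_lt_ncard (s := {a, b}) (t := B)
      (by rw [h3, h4]; omega)
    refine ⟨c, ?_⟩
    symm
    refine Set.eq_of_subset_of_ncard_le ?_ ?_ hfin
    · rintro x (rfl | rfl | rfl)
      · exact hab2 (Or.inl rfl)
      · exact hab2 (Or.inr rfl)
      · exact hc
    · rw [h3]
      have h5 : ({a, b, c} : Set (Fin 4 ⊕ Fin m)).ncard = 3 := by
        rw [Set.ncard_eq_three]
        refine ⟨a, b, c, hab, ?_, ?_, rfl⟩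
        · rintro rfl
          exact hc2 (Or.inl rfl)
        · rintro rfl
          exact hc2 (Or.inr rfl)
      omega
  exact ⟨c, (hM (a, b, c)).1 (by rw [hc] at hB; exact hB)⟩

/-- **Completeness.** -/
theorem complete {n : ℕ} {c : List Poly} (hJ : (J n c).IsPrime) : ∃ w, Good n c w := by
  have hA : IsDomain (S n c) := Ideal.Quotient.isDomain _
  obtain ⟨v, hv, hs⟩ := generic_smooth_field (k := ℚ) (S n c)
  let D := Localization.Away v
  have hd : IsDomain D :=
    IsLocalization.isDomain_localization (powers_le_nonZeroDivisors_of_noZeroDivisors hv)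
  have hft : Algebra.FiniteType ℚ D := ft_loc _ _
  have hi : IsIntegral (aff ℚ D).left := by
    change IsIntegral (Spec (CommRingCat.of D))
    rw [affine_isIntegral_iff]
    exact hd
  obtain ⟨m, M, s, h1, h2, h3, h4⟩ := exists_open_mod (sep := True) Pool.Agent.Q282.UM.presents_rat
    (aff ℚ D) (ft_aff True)
  have h5 := isDomain_of_open s h3 h4
  have h6 := smooth_aff_iff.1 (smooth_of_open s h3 (smooth_aff_iff.2 hs))
  obtain ⟨φ, hφ⟩ : ∃ φ : CommRingCat.of D ⟶ CommRingCat.of (ModR ℚ M), Spec.map φ = s.left :=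
    ⟨Spec.preimage s.left, Spec.map_preimage _⟩
  let χ : S n c →+* ModR ℚ M := φ.hom.comp (algebraMap (S n c) D)
  have h7 : IsOpenImmersion (Spec.map (CommRingCat.ofHom χ)) := by
    have h8 : IsOpenImmersion (Spec.map φ) := by
      rw [hφ]
      exact h3
    have h9 : IsOpenImmersion (Spec.map (CommRingCat.ofHom (algebraMap (S n c) D))) :=
      Scheme.isOpenImmersion_SpecMap_localizationAway (R := .of (S n c)) v
    have h10 : CommRingCat.ofHom χ = CommRingCat.ofHom (algebraMap (S n c) D) ≫ φ := rfl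
    rw [h10, Spec.map_comp]
    infer_instance
  obtain ⟨T, hT⟩ := exists_list {t | M.IsBase (elts t)}
  have h8 : Nonempty (S (nv m) (conf (m, T)) ≃ₐ[ℚ] ModR ℚ M) := by
    have h9 : ∀ U : Set (Trip (Fin m)), TS m T = U →
        Nonempty (S (nv m) (conf (m, T)) ≃ₐ[ℚ] Localization.Away (modD ℚ U)) := by
      rintro U rfl
      exact conf_iso T
    exact h9 _ hT
  obtain ⟨e⟩ := h8
  have h9 : IsDomain (S (nv m) (conf (m, T))) := e.toMulEquiv.isDomain _
  have h10 : Algebra.FormallySmooth ℚ (ModR ℚ M) := h6.formallySmooth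
  have h11 : Algebra.FormallySmooth ℚ (S (nv m) (conf (m, T))) :=
    Algebra.FormallySmooth.of_equiv e.symm
  have h12 := open_comp_equiv χ (e.symm.toRingEquiv) h7
  obtain ⟨L, p, h13, h14, h15⟩ := pieces_of_cover _ h12
  refine ⟨(m, T), ?_, smooth_iff.1 h11, L, p, h13, h14, h15⟩
  exact smp_of_simple (M := M) (fun t => by rw [hT]; rfl) h1 h2

end Pool.Agent.Helper59.MC
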