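import Pool.Agent.Helper59.MC.Prim
import Pool.Agent.Helper59.MC.Complete

/-!
# The search for a moduli space
-/

set_option autoImplicit false
set_option synthInstance.maxSize 4000

namespace Pool.Agent.Helper59.MC

open Pool.Agent.Q324.SC Pool.Agent.Q324.SC.Idl

lemma allm_sound {n : ℕ} {g ts : List Poly} {W : List Wm} (h : allm n g ts W = true) :
    ∀ t ∈ ts, rv n t ∈ J n g := by
  intro t ht
  obtain ⟨i, hi, rfl⟩ := List.mem_iff_getElem.1 ht
  unfold allm at h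
  rw [foldr_and] at h
  have h1 := h i (List.mem_range.2 hi)
  rw [List.getD_eq_getElem _ _ hi] at h1
  exact memc_sound h1

lemma allm_complete {n : ℕ} {g ts : List Poly} (h : ∀ t ∈ ts, rv n t ∈ J n g) :
    ∃ W, allm n g ts W = true := by
  have h1 : ∀ i : Fin ts.length, ∃ W, memc n g (ts.getD i []) W = true := by
    intro i
    refine memc_complete (h _ ?_)
    rw [List.getD_eq_getElem _ _ i.2]
    exact List.getElem_mem _
  choose W hW using h1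
  refine ⟨List.ofFn W, ?_⟩
  unfold allm
  rw [foldr_and]
  intro i hi
  rw [List.mem_range] at hi
  have h2 : (List.ofFn W).getD i (0, []) = W ⟨i, hi⟩ := getD_ofFn W (0, []) ⟨i, hi⟩
  rw [h2]
  exact hW ⟨i, hi⟩

/-- witnesses for a piece -/
abbrev Wp : Type := (List Wm × List Wm) × (List Wm × List Wm)

/-- the check of a piece -/
def chkPc (n : ℕ) (c : List Poly) (k : ℕ) (d : List Poly) (q : Pc) (W : Wp) : Bool :=
  decide (1 ≤ q.2.1) &&
  allm (n + 1 + (k + 1)) (Gr (n + 1) (k + 1) (loc n c q.1.1) q.2.1 q.2.2.1)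
    (tg1 (n + 1) (loc k d q.1.2)) W.1.1 &&
  allm (n + 1 + (k + 1)) (Gr (n + 1) (k + 1) (loc n c q.1.1) q.2.1 q.2.2.1)
    (tg2 (n + 1) q.2.1 q.2.2.2) W.1.2 &&
  allm (k + 1 + (n + 1)) (Gr (k + 1) (n + 1) (loc k d q.1.2) q.2.1 q.2.2.2)
    (tg1 (k + 1) (loc n c q.1.1)) W.2.1 &&
  allm (k + 1 + (n + 1)) (Gr (k + 1) (n + 1) (loc k d q.1.2) q.2.1 q.2.2.2)
    (tg2 (k + 1) q.2.1 q.2.2.1) W.2.2

lemma chkPc_iff {n : ℕ} {c : List Poly} {k : ℕ} {d : List Poly} {q : Pc} :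
    PcOk n c k d q ↔ ∃ W, chkPc n c k d q W = true := by
  unfold chkPc PcOk
  simp only [Bool.and_eq_true, decide_eq_true_eq]
  constructor
  · rintro ⟨h0, h1, h2, h3, h4⟩
    obtain ⟨W1, hW1⟩ := allm_complete h1
    obtain ⟨W2, hW2⟩ := allm_complete h2
    obtain ⟨W3, hW3⟩ := allm_complete h3
    obtain ⟨W4, hW4⟩ := allm_complete h4
    exact ⟨((W1, W2), (W3, W4)), ⟨⟨⟨⟨h0, hW1⟩, hW2⟩, hW3⟩, hW4⟩⟩
  · rintro ⟨W, ⟨⟨⟨h0, h1⟩, h2⟩, h3⟩, h4⟩
    exact ⟨h0, allm_sound h1, allm_sound h2, allm_sound h3, allm_sound h4⟩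

/-- the check of a point -/
def chkPd (k : ℕ) (d : List Poly) (p : Pd) (W : List Wm) : Bool :=
  decide (1 ≤ p.1.1) && decide (1 ≤ p.2.1) &&
  (p.2.2.1.map fun t => decide (t.2.length ≤ p.1.2)).foldr (fun a b => a && b) true &&
  allm (1 + k) (Gr 1 k [mu p.1.1 p.1.2 p.2.2.1] p.2.1 p.2.2.2) (tg1 1 d) W

lemma chkPd_iff {k : ℕ} {d : List Poly} {p : Pd} : PdOk k d p ↔ ∃ W, chkPd k d p W = true := by
  unfold chkPd PdOk
  simp only [Bool.and_eq_true, decide_eq_true_eq, foldr_and]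
  constructor
  · rintro ⟨h0, h1, h2, h3⟩
    obtain ⟨W, hW⟩ := allm_complete h3
    exact ⟨W, ⟨⟨h0, h1⟩, h2⟩, hW⟩
  · rintro ⟨W, ⟨⟨h0, h1⟩, h2⟩, h3⟩
    exact ⟨h0, h1, h2, allm_sound h3⟩

/-- the check of smoothness -/
def chkSm (n : ℕ) (c : List Poly) (E : ℕ) (ψ : List Poly) (W : List Wm × List Wm) : Bool :=
  decide (1 ≤ E) && allm (n + n) (Gr n n (sq c) E ψ) (tg1 n c) W.1 && allm n c (tg3 n E ψ) W.2

lemma chkSm_iff {n : ℕ} {c : List Poly} {E : ℕ} {ψ : List Poly} :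
    SmOk n c E ψ ↔ ∃ W, chkSm n c E ψ W = true := by
  unfold chkSm SmOk
  simp only [Bool.and_eq_true, decide_eq_true_eq]
  constructor
  · rintro ⟨h0, h1, h2⟩
    obtain ⟨W1, hW1⟩ := allm_complete h1
    obtain ⟨W2, hW2⟩ := allm_complete h2
    exact ⟨(W1, W2), ⟨h0, hW1⟩, hW2⟩
  · rintro ⟨W, ⟨h0, h1⟩, h2⟩
    exact ⟨h0, allm_sound h1, allm_sound h2⟩

/-- Certificates. -/
abbrev Ct : Type :=
  (Code × ((ℕ × List Poly) × (List Wm × List Wm))) × ((List (Pc × Wp) × Wm) × (Pd × List Wm))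

/-- The check of a certificate for the system `x`. -/
def chk (x : ℕ × List Poly) (z : Ct) : Bool :=
  smp z.1.1 && chkSm (nv z.1.1.1) (conf z.1.1) z.1.2.1.1 z.1.2.1.2 z.1.2.2 &&
  (z.2.1.1.map fun q => chkPc x.1 x.2 (nv z.1.1.1) (conf z.1.1) q.1 q.2).foldr
    (fun a b => a && b) true &&
  memc (nv z.1.1.1) (conf z.1.1 ++ z.2.1.1.map fun q => q.1.1.2) [(1, [])] z.2.1.2 &&
  chkPd (nv z.1.1.1 + 1) (loc (nv z.1.1.1) (conf z.1.1) (hpr (z.2.1.1.map fun q => q.1)))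
    z.2.2.1 z.2.2.2

lemma map_fst_snd (L : List (Pc × Wp)) :
    (L.map fun q => q.1).map (fun q => q.1.2) = L.map fun q => q.1.1.2 := by
  rw [List.map_map]
  rfl

lemma good_mk {n : ℕ} {c : List Poly} {w : Code} (h1 : smp w = true)
    (h2 : ∃ E ψ, SmOk (nv w.1) (conf w) E ψ) (L : List Pc) (p : Pd)
    (h3 : ∀ q ∈ L, PcOk n c (nv w.1) (conf w) q)
    (h4 : rv (nv w.1) [(1, [])] ∈ J (nv w.1) (conf w ++ L.map fun q => q.1.2))
    (h5 : PdOk (nv w.1 + 1) (loc (nv w.1) (conf w) (hpr L)) p) : Good n c w :=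
  ⟨h1, h2, L, p, h3, h4, h5⟩

theorem chk_sound {x : ℕ × List Poly} {z : Ct} (h : chk x z = true) : Good x.1 x.2 z.1.1 := by
  unfold chk at h
  rw [Bool.and_eq_true, Bool.and_eq_true, Bool.and_eq_true, Bool.and_eq_true, foldr_and] at h
  obtain ⟨⟨⟨⟨h1, h2⟩, h3⟩, h4⟩, h5⟩ := h
  have h6 := chkSm_iff.2 ⟨_, h2⟩
  have h7 := chkPd_iff.2 ⟨_, h5⟩
  have h8 := memc_sound h4
  refine good_mk h1 ⟨_, _, h6⟩ (z.2.1.1.map fun q => q.1) z.2.2.1 ?_ ?_ ?_
  · intro q hq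
    obtain ⟨q', hq', rfl⟩ := List.mem_map.1 hq
    have h9 := h3 q' hq'
    exact chkPc_iff.2 ⟨_, h9⟩
  · rw [map_fst_snd]
    exact h8
  · exact h7

lemma chk_mk {n : ℕ} {c : List Poly} {w : Code} {E : ℕ} {ψ : List Poly} {W1 : List Wm × List Wm}
    {L : List (Pc × Wp)} {W2 : Wm} {p : Pd} {W3 : List Wm} (h1 : smp w = true)
    (h2 : chkSm (nv w.1) (conf w) E ψ W1 = true)
    (h3 : (L.map fun q => chkPc n c (nv w.1) (conf w) q.1 q.2).foldr
      (fun a b => a && b) true = true)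
    (h4 : memc (nv w.1) (conf w ++ L.map fun q => q.1.1.2) [(1, [])] W2 = true)
    (h5 : chkPd (nv w.1 + 1) (loc (nv w.1) (conf w) (hpr (L.map fun q => q.1))) p W3 = true) :
    chk (n, c) ((w, ((E, ψ), W1)), ((L, W2), (p, W3))) = true := by
  unfold chk
  rw [Bool.and_eq_true, Bool.and_eq_true, Bool.and_eq_true, Bool.and_eq_true]
  exact ⟨⟨⟨⟨h1, h2⟩, h3⟩, h4⟩, h5⟩

theorem chk_complete {n : ℕ} {c : List Poly} {w : Code} (h : Good n c w) :
    ∃ z : Ct, z.1.1 = w ∧ chk (n, c) z = true := by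
  obtain ⟨h1, ⟨E, ψ, h2⟩, L, p, h3, h4, h5⟩ := h
  obtain ⟨W1, hW1⟩ := chkSm_iff.1 h2
  obtain ⟨W2, hW2⟩ := memc_complete h4
  obtain ⟨W3, hW3⟩ := chkPd_iff.1 h5
  obtain ⟨L', hL', hL2⟩ : ∃ L' : List (Pc × Wp), L'.map (fun q => q.1) = L ∧
      ∀ q ∈ L', chkPc n c (nv w.1) (conf w) q.1 q.2 = true := by
    clear h4 h5 hW2 hW3
    induction L with
    | nil => exact ⟨[], rfl, fun q hq => by simp at hq⟩
    | cons q L ih =>
      obtain ⟨L', h6, h7⟩ := ih fun q' hq' => h3 q' (List.mem_cons_of_mem _ hq')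
      obtain ⟨W, hW⟩ := chkPc_iff.1 (h3 q List.mem_cons_self)
      refine ⟨(q, W) :: L', by rw [List.map_cons, h6], fun q' hq' => ?_⟩
      rcases List.mem_cons.1 hq' with rfl | hq'
      · exact hW
      · exact h7 q' hq'
  subst hL'
  rw [map_fst_snd] at hW2
  have h6 : (L'.map fun q => chkPc n c (nv w.1) (conf w) q.1 q.2).foldr
      (fun a b => a && b) true = true := (foldr_and _ _).2 hL2
  refine ⟨((w, ((E, ψ), W1)), ((L', W2), (p, W3))), rfl, ?_⟩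
  exact chk_mk h1 hW1 h6 hW2 hW3

section

variable {α : Type*} [Primcodable α]

@[fun_prop] theorem pchkPc {n k : α → ℕ} {c d : α → List Poly} {q : α → Pc} {W : α → Wp}
    (hn : Primrec n) (hc : Primrec c) (hk : Primrec k) (hd : Primrec d) (hq : Primrec q)
    (hW : Primrec W) : Primrec (fun x => chkPc (n x) (c x) (k x) (d x) (q x) (W x)) := by
  unfold chkPc
  fun_prop

@[fun_prop] theorem pchkPd {k : α → ℕ} {d : α → List Poly} {p : α → Pd} {W : α → List Wm}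
    (hk : Primrec k) (hd : Primrec d) (hp : Primrec p) (hW : Primrec W) :
    Primrec (fun x => chkPd (k x) (d x) (p x) (W x)) := by
  unfold chkPd
  have h1 : Primrec (fun x => ((p x).2.2.1.map fun t => decide (t.2.length ≤ (p x).1.2)).foldr
      (fun a b => a && b) true) :=
    pfoldAnd (pmap (g := fun (x : α) (t : ℤ × List ℕ) => decide (t.2.length ≤ (p x).1.2))
      (by fun_prop) (by fun_prop))
  fun_prop

@[fun_prop] theorem pchkSm {n E : α → ℕ} {c ψ : α → List Poly} {W : α → List Wm × List Wm}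
    (hn : Primrec n) (hc : Primrec c) (hE : Primrec E) (hψ : Primrec ψ) (hW : Primrec W) :
    Primrec (fun x => chkSm (n x) (c x) (E x) (ψ x) (W x)) := by
  unfold chkSm
  fun_prop

end

theorem pchk : Primrec (fun x : (ℕ × List Poly) × Ct => chk x.1 x.2) := by
  unfold chk
  have h1 : Primrec (fun x : (ℕ × List Poly) × Ct => (x.2.2.1.1.map fun q =>
      chkPc x.1.1 x.1.2 (nv x.2.1.1.1) (conf x.2.1.1) q.1 q.2).foldr (fun a b => a && b) true) :=
    pfoldAnd (pmap (g := fun (x : (ℕ × List Poly) × Ct) (q : Pc × Wp) =>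
      chkPc x.1.1 x.1.2 (nv x.2.1.1.1) (conf x.2.1.1) q.1 q.2) (by fun_prop) (by fun_prop))
  have h2 : Primrec (fun x : (ℕ × List Poly) × Ct => x.2.2.1.1.map fun q => q.1.1.2) :=
    pmap (g := fun (_ : (ℕ × List Poly) × Ct) (q : Pc × Wp) => q.1.1.2) (by fun_prop) (by fun_prop)
  have h3 : Primrec (fun x : (ℕ × List Poly) × Ct => x.2.2.1.1.map fun q => q.1) :=
    pmap (g := fun (_ : (ℕ × List Poly) × Ct) (q : Pc × Wp) => q.1) (by fun_prop) (by fun_prop)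
  fun_prop


end Pool.Agent.Helper59.MC
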