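import Mathlib

/-!
# Components over the algebraic closure

`Comp K L`: the field `L` is generated by the algebraic numbers and the image of `K`. The function
fields of the components over `ℚ̄` of an integral `ℚ`-scheme with the function field `K` are the fields
`L` with this property.
-/

set_option autoImplicit false

namespace Pool.Agent.Helper59.MC

/-- The field of the algebraic numbers. -/
abbrev Qb : Type := AlgebraicClosure ℚ

/-- `L` is generated by `Qb` and the image of `K`. -/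
def Comp (K L : Type) [Field K] [Field L] [Algebra Qb L] : Prop :=
  ∃ φ : K →+* L, IntermediateField.adjoin Qb (Set.range φ) = ⊤

/-- `A'` is the base change of `A` to `Qb`. -/
structure BC {A A' : Type} [CommRing A] [CommRing A'] [Algebra Qb A'] (i : A →+* A') : Prop where
  gen : Algebra.adjoin Qb (Set.range i) = ⊤
  lift : ∀ (C : Type) [CommRing C] [Algebra Qb C] (φ : A →+* C),
    ∃ Φ : A' →ₐ[Qb] C, ∀ a, Φ (i a) = φ a

section

variable {A A' : Type} [CommRing A] [CommRing A'] [Algebra Qb A'] [Algebra ℚ A] {i : A →+* A'}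

open TensorProduct

lemma BC.exists_inj (h : BC i) : ∃ Ψ : A' →ₐ[Qb] (Qb ⊗[ℚ] A), Function.Injective Ψ ∧
    ∀ a, Ψ (i a) = 1 ⊗ₜ a := by
  obtain ⟨Ψ, hΨ⟩ := h.lift (Qb ⊗[ℚ] A) (Algebra.TensorProduct.includeRight (R := ℚ) (A := Qb)
    (B := A) : A →ₐ[ℚ] Qb ⊗[ℚ] A).toRingHom
  refine ⟨Ψ, ?_, hΨ⟩
  let _ : Algebra ℚ A' := Algebra.compHom A' (algebraMap ℚ Qb)
  have hT : IsScalarTower ℚ Qb A' := IsScalarTower.of_algebraMap_eq fun _ => rfl
  let i' : A →ₐ[ℚ] A' := i.toRatAlgHom
  let Θ : Qb ⊗[ℚ] A →ₐ[Qb] A' := Algebra.TensorProduct.lift (Algebra.ofId Qb A') i'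
    (fun _ _ => Commute.all _ _)
  have h1 : Θ.comp Ψ = AlgHom.id Qb A' := by
    refine AlgHom.ext_of_adjoin_eq_top h.gen ?_
    rintro _ ⟨a, rfl⟩
    rw [AlgHom.comp_apply, hΨ]
    simp [Θ, i']
  intro x y hxy
  have h2 : Θ.comp Ψ x = Θ.comp Ψ y := by
    rw [AlgHom.comp_apply, AlgHom.comp_apply, hxy]
  rwa [h1] at h2

lemma BC.nzd (h : BC i) [IsDomain A] {a : A} (ha : a ≠ 0) {y : A'} (hy : i a * y = 0) : y = 0 := by
  obtain ⟨Ψ, hΨ, hi⟩ := h.exists_inj
  let e : Qb ⊗[ℚ] A ≃ₐ[ℚ] A ⊗[ℚ] Qb := Algebra.TensorProduct.comm ℚ Qb A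
  have h1 : a • e (Ψ y) = 0 := by
    have h2 : e (Ψ (i a * y)) = 0 := by rw [hy, map_zero, map_zero]
    rw [map_mul, map_mul, hi] at h2
    rw [Algebra.smul_def]
    exact h2
  have h3 : e (Ψ y) = 0 := (smul_eq_zero.mp h1).resolve_left ha
  have h4 : Ψ y = 0 := by
    have := congrArg e.symm h3
    rwa [AlgEquiv.symm_apply_apply, map_zero] at this
  exact hΨ (by rw [h4, map_zero])

/-- The elements of `A` that lie in a minimal prime are zero. -/
lemma BC.minimal_inj (h : BC i) [IsDomain A] {q : Ideal A'} (hq : q ∈ minimalPrimes A') {a : A}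
    (ha : i a ∈ q) : a = 0 := by
  by_contra ha0
  have h1 : i a ∈ {x : A' | ∃ y ∉ (⊥ : Ideal A').radical, x * y ∈ (⊥ : Ideal A').radical} := by
    rw [← Ideal.iUnion_minimalPrimes]
    simp only [Set.mem_iUnion]
    exact ⟨q, hq, ha⟩
  obtain ⟨y, hy, hy2⟩ := h1
  obtain ⟨n, hn⟩ := hy2
  apply hy
  refine ⟨n, ?_⟩
  rw [Ideal.mem_bot] at hn ⊢
  rw [mul_pow, ← map_pow] at hn
  exact h.nzd (pow_ne_zero n ha0) hn

end

section

variable {A A' : Type} [CommRing A] [CommRing A'] [Algebra Qb A'] [Algebra ℚ A] {i : A →+* A'}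

lemma adjoin_frac {D L : Type} [CommRing D] [Field L] [Algebra Qb D] [Algebra D L] [Algebra Qb L]
    [IsScalarTower Qb D L] [IsFractionRing D L] {S : Set D} (hS : Algebra.adjoin Qb S = ⊤) :
    IntermediateField.adjoin Qb (algebraMap D L '' S) = ⊤ := by
  have h0 : ∀ d : D, algebraMap D L d ∈ IntermediateField.adjoin Qb (algebraMap D L '' S) := by
    intro d
    have h1 : algebraMap D L d ∈ Algebra.adjoin Qb (algebraMap D L '' S) := by
      have h2 : (Algebra.adjoin Qb S).map (IsScalarTower.toAlgHom Qb D L) =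
          Algebra.adjoin Qb (algebraMap D L '' S) := by
        rw [AlgHom.map_adjoin]
        rfl
      rw [← h2, hS]
      exact ⟨d, trivial, rfl⟩
    exact IntermediateField.algebra_adjoin_le_adjoin _ _ h1
  rw [eq_top_iff]
  rintro z -
  obtain ⟨x, y, hy, rfl⟩ := IsFractionRing.div_surjective (A := D) z
  exact div_mem (h0 x) (h0 y)

/-- The function field of a component is a compositum. -/
lemma BC.comp_of_minimal (h : BC i) [IsDomain A] {q : Ideal A'} (hq : q ∈ minimalPrimes A')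
    (K : Type) [Field K] [Algebra A K] [IsFractionRing A K] (L : Type) [Field L] [Algebra Qb L]
    [Algebra (A' ⧸ q) L] [IsScalarTower Qb (A' ⧸ q) L] [IsFractionRing (A' ⧸ q) L] :
    Comp K L := by
  have hqp : q.IsPrime := hq.1.1
  let j : A →+* L := (algebraMap (A' ⧸ q) L).comp ((Ideal.Quotient.mk q).comp i)
  have hj : Function.Injective j := by
    rw [injective_iff_map_eq_zero]
    intro a ha
    refine h.minimal_inj hq (a := a) ?_
    have h1 : algebraMap (A' ⧸ q) L (Ideal.Quotient.mk q (i a)) = 0 := ha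
    rwa [map_eq_zero_iff _ (IsFractionRing.injective (A' ⧸ q) L),
      Ideal.Quotient.eq_zero_iff_mem] at h1
  refine ⟨IsFractionRing.lift hj, ?_⟩
  have h2 : Algebra.adjoin Qb (Set.range fun a => Ideal.Quotient.mk q (i a)) = ⊤ := by
    have h3 : (Algebra.adjoin Qb (Set.range i)).map (Ideal.Quotient.mkₐ Qb q) =
        Algebra.adjoin Qb (Set.range fun a => Ideal.Quotient.mk q (i a)) := by
      rw [AlgHom.map_adjoin, ← Set.range_comp]
      rfl
    rw [← h3, h.gen, Algebra.map_top, AlgHom.range_eq_top]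
    exact Ideal.Quotient.mkₐ_surjective Qb q
  have h4 := adjoin_frac (L := L) h2
  rw [eq_top_iff, ← h4]
  refine IntermediateField.adjoin.mono _ _ _ ?_
  rintro _ ⟨_, ⟨a, rfl⟩, rfl⟩
  exact ⟨algebraMap A K a, IsFractionRing.lift_algebraMap hj a⟩

lemma BC.integral (h : BC i) (x : A') : i.IsIntegralElem x := by
  let _ : Algebra A A' := i.toAlgebra
  have h1 : Algebra.adjoin Qb (Set.range i) ≤ Subalgebra.mk
      ((integralClosure A A').toSubsemiring) (by
        intro r
        change IsIntegral A (algebraMap Qb A' r)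
        have h2 : IsIntegral ℚ r := (AlgebraicClosure.isAlgebraic ℚ).isIntegral.isIntegral r
        obtain ⟨p, hp, hr⟩ := h2
        refine ⟨p.map (algebraMap ℚ A), hp.map _, ?_⟩
        rw [Polynomial.eval₂_map]
        have h3 : (algebraMap A A').comp (algebraMap ℚ A) = (algebraMap Qb A').comp (algebraMap ℚ Qb) :=
          Subsingleton.elim _ _
        rw [h3, ← Polynomial.hom_eval₂, hr, map_zero]) := by
    refine Algebra.adjoin_le ?_
    rintro _ ⟨a, rfl⟩
    exact isIntegral_algebraMap (R := A) (A := A') (x := a)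
  rw [h.gen] at h1
  exact h1 (show x ∈ (⊤ : Subalgebra Qb A') from trivial)

/-- A compositum is the function field of a component. -/
lemma BC.minimal_of_comp (h : BC i) [IsDomain A] (K : Type) [Field K] [Algebra A K]
    [IsFractionRing A K] (L : Type) [Field L] [Algebra Qb L] (hL : Comp K L) :
    ∃ q ∈ minimalPrimes A', Nonempty (FractionRing (A' ⧸ q) ≃ₐ[Qb] L) := by
  obtain ⟨φ, hφ⟩ := hL
  obtain ⟨Φ, hΦ⟩ := h.lift L (φ.comp (algebraMap A K))
  let q : Ideal A' := RingHom.ker Φ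
  have hqp : q.IsPrime := RingHom.ker_isPrime _
  have hi : ∀ a, i a ∈ q → a = 0 := by
    intro a ha
    have h1 : Φ (i a) = 0 := ha
    rw [hΦ, RingHom.comp_apply, map_eq_zero] at h1
    exact (map_eq_zero_iff _ (IsFractionRing.injective A K)).1 h1
  refine ⟨q, ⟨⟨hqp, bot_le⟩, ?_⟩, ?_⟩
  · rintro r ⟨hr, -⟩ hrq
    by_contra hne
    obtain ⟨x, hx, hxr⟩ : ∃ x ∈ q, x ∉ r := Set.not_subset.1 hne
    have h2 : r.comap i < q.comap i := by
      let _ : Algebra A A' := i.toAlgebra
      exact Ideal.comap_lt_comap_of_integral_mem_sdiff (R := A) hrq ⟨hx, hxr⟩ (h.integral x)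
    obtain ⟨a, ha, har⟩ := Set.exists_of_ssubset h2
    have : a = 0 := hi a ha
    rw [this] at har
    exact har (Ideal.zero_mem _)
  · let ψ : (A' ⧸ q) →ₐ[Qb] L := Ideal.kerLiftAlg Φ
    have hψ : Function.Injective ψ := Ideal.kerLiftAlg_injective _
    let _ : Algebra (A' ⧸ q) L := ψ.toRingHom.toAlgebra
    have hFS : FaithfulSMul (A' ⧸ q) L := (faithfulSMul_iff_algebraMap_injective _ _).2 hψ
    have hT : IsScalarTower Qb (A' ⧸ q) L := IsScalarTower.of_algebraMap_eq fun a =>
      (ψ.commutes a).symm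
    have hF : IsFractionRing (A' ⧸ q) L := by
      refine IsFractionRing.of_field _ _ fun z => ?_
      have h5 : ∀ x : A', ∃ y : A' ⧸ q, algebraMap (A' ⧸ q) L y = Φ x := fun x =>
        ⟨Ideal.Quotient.mk q x, Ideal.kerLiftAlg_mk _ _⟩
      have h3 : IntermediateField.adjoin Qb (Set.range Φ) = ⊤ := by
        rw [eq_top_iff, ← hφ, IntermediateField.adjoin_le_iff]
        rintro _ ⟨k, rfl⟩
        obtain ⟨x, y, hy, rfl⟩ := IsFractionRing.div_surjective (A := A) k
        rw [map_div₀]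
        refine div_mem ?_ ?_
        · exact IntermediateField.subset_adjoin _ _ ⟨i x, hΦ x⟩
        · exact IntermediateField.subset_adjoin _ _ ⟨i y, hΦ y⟩
      have h4 : z ∈ IntermediateField.adjoin Qb (Set.range Φ) := by
        rw [h3]
        trivial
      obtain ⟨r, hr, s, hs, hz⟩ := IntermediateField.mem_adjoin_iff_div.mp h4
      have h6 : Algebra.adjoin Qb (Set.range Φ) = Φ.range := by
        refine le_antisymm (Algebra.adjoin_le ?_) ?_
        · rintro _ ⟨x, rfl⟩
          exact ⟨x, rfl⟩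
        · rintro _ ⟨x, rfl⟩
          exact Algebra.subset_adjoin ⟨x, rfl⟩
      rw [h6] at hr hs
      obtain ⟨r', rfl⟩ := hr
      obtain ⟨s', rfl⟩ := hs
      obtain ⟨r'', hr''⟩ := h5 r'
      obtain ⟨s'', hs''⟩ := h5 s'
      exact ⟨r'', s'', by rw [hr'', hs'']; exact hz⟩
    exact ⟨(FractionRing.algEquiv (A' ⧸ q) L).restrictScalars Qb⟩

end

end Pool.Agent.Helper59.MC
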