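import Pool.Agent.Helper59.MC.Conf

/-!
# The ring of the system of a configuration
-/

set_option autoImplicit false

namespace Pool.Agent.Helper59.MC

open Pool.Agent.Q324.SC Pool.Agent.Q324.SC.Idl MvPolynomial Pool.Agent.Helper13.RM
  Pool.Agent.Helper3.GU

section

variable {C : Type} [CommRing C] {m : ℕ}

/-- the solution with given vectors and a given last variable -/
def mkU (q : Fin m → Fin 3 → C) (z : C) : Fin (nv m) → C := fun i =>
  if h : i.val < 3 * m then q ⟨i.val / 3, by omega⟩ ⟨i.val % 3, by omega⟩ else z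

omit [CommRing C] in
lemma vq_mkU (q : Fin m → Fin 3 → C) (z : C) : vq (mkU q z) = q := by
  funext k c
  unfold vq mkU
  have h1 : 3 * (k : ℕ) + c < 3 * m := by have := k.2; have := c.2; omega
  rw [dif_pos h1]
  have h2 : (3 * (k : ℕ) + c) / 3 = k := by have := c.2; omega
  have h3 : (3 * (k : ℕ) + c) % 3 = c := by have := c.2; omega
  congr 1 <;> apply Fin.ext <;> assumption

omit [CommRing C] in
lemma vz_mkU (q : Fin m → Fin 3 → C) (z : C) : vz (mkU q z) = z := by
  unfold vz mkU
  rw [dif_neg (by simp)]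

lemma index_cases (i : Fin (nv m)) : (∃ (k : Fin m) (c : Fin 3), i.val = 3 * k + c) ∨ i.val = 3 * m := by
  have h := i.2
  unfold nv at h
  by_cases h1 : i.val < 3 * m
  · left
    exact ⟨⟨i.val / 3, by omega⟩, ⟨i.val % 3, by omega⟩, by
      change i.val = 3 * (i.val / 3) + i.val % 3
      omega⟩
  · right
    omega

lemma prp_congr {u u' : Fin (nv m) → C} (h : vq u = vq u') (T : List (ℕ × ℕ × ℕ)) :
    ev (V (nv m) u) (prp m T) = ev (V (nv m) u') (prp m T) := by
  rw [prp, ev_prod, ev_prod, List.map_map, List.map_map]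
  congr 1
  refine List.map_congr_left fun s hs => ?_
  obtain ⟨t, rfl⟩ := mem_allT.1 hs
  rw [Function.comp_apply, Function.comp_apply]
  cases mT T (tx t)
  · rw [cond_false, ev_one, ev_one]
  · rw [cond_true, ev_dp, ev_dp, h]

lemma conf_iso (T : List (ℕ × ℕ × ℕ)) :
    Nonempty (S (nv m) (conf (m, T)) ≃ₐ[ℚ] Localization.Away (modD ℚ (TS m T))) := by
  obtain ⟨b', hb'⟩ := rep_modT (R := ℚ) (TS m T)
  have h0 := sol_conf.1 (sol_gs (n := nv m) (c := conf (m, T)))
  let b : (NConf (Fin m) (TS m T)).pts (S (nv m) (conf (m, T))) := ⟨vq (gs (nv m) (conf (m, T))), h0.1⟩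
  have hb : IsRep ℚ (NConf (Fin m) (TS m T)) (S (nv m) (conf (m, T))) b := by
    rintro C _ _ ⟨(p : Fin m → Fin 3 → C),
      (hp : Cond (TS m T) p ∧ ∀ k, p k (lastX (TS m T) (Sum.inr k)) = 1)⟩
    have h1 : IsUnit (ev (V (nv m) (mkU p 0)) (prp m T)) := by
      rw [isUnit_prp, vq_mkU]
      exact hp.1.2
    obtain ⟨a, ha⟩ := h1
    have h2 : Sol (nv m) (conf (m, T)) (mkU p ((a⁻¹ : Cˣ) : C)) := by
      rw [sol_conf, vq_mkU, vz_mkU]
      refine ⟨hp, ?_⟩
      rw [prp_congr (u' := mkU p 0) (by rw [vq_mkU, vq_mkU]), ← ha, Units.inv_mul]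
    obtain ⟨f, hf⟩ := h2.lift
    refine ⟨f, ?_, ?_⟩
    · apply Subtype.ext
      change (fun k c => f (vq (gs (nv m) (conf (m, T))) k c)) = p
      funext k c
      have h3 : f (vq (gs (nv m) (conf (m, T))) k c) = vq (mkU p ((a⁻¹ : Cˣ) : C)) k c := hf _
      rw [h3, vq_mkU]
    · intro g hg
      have hg' : (fun k c => g (vq (gs (nv m) (conf (m, T))) k c)) = p := congrArg Subtype.val hg
      refine S_ext fun i => ?_
      have h4 : ∀ (k : Fin m) (c : Fin 3), g (vq (gs (nv m) (conf (m, T))) k c) =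
          f (vq (gs (nv m) (conf (m, T))) k c) := by
        intro k c
        rw [congrFun (congrFun hg' k) c]
        have h3 : f (vq (gs (nv m) (conf (m, T))) k c) = vq (mkU p ((a⁻¹ : Cˣ) : C)) k c := hf _
        rw [h3, vq_mkU]
      rcases index_cases i with ⟨k, c, hi⟩ | hi
      · have h5 : i = ⟨3 * k + c, by have := k.2; have := c.2; unfold nv; omega⟩ := Fin.ext hi
        rw [h5]
        exact h4 k c
      · have h5 : i = ⟨3 * m, by unfold nv; omega⟩ := Fin.ext hi
        rw [h5]
        change g (vz (gs (nv m) (conf (m, T)))) = f (vz (gs (nv m) (conf (m, T))))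
        have h6 : ∀ φ : S (nv m) (conf (m, T)) →ₐ[ℚ] C, φ (vz (gs (nv m) (conf (m, T)))) *
            ev (V (nv m) fun j => φ (gs (nv m) (conf (m, T)) j)) (prp m T) = 1 := by
          intro φ
          have h7 := congrArg φ h0.2
          rw [map_mul, map_one] at h7
          have h8 := map_ev (φ : S (nv m) (conf (m, T)) →+* C) (V (nv m) (gs (nv m) (conf (m, T))))
            (prp m T)
          rw [map_V] at h8
          rw [← h7]
          congr 1
          exact h8.symm
        have h9 : ev (V (nv m) fun j => g (gs (nv m) (conf (m, T)) j)) (prp m T) =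
            ev (V (nv m) fun j => f (gs (nv m) (conf (m, T)) j)) (prp m T) :=
          prp_congr (by
            funext k c
            exact h4 k c) T
        have h10 := h6 g
        rw [h9] at h10
        have h11 : IsUnit (ev (V (nv m) fun j => f (gs (nv m) (conf (m, T)) j)) (prp m T)) :=
          IsUnit.of_mul_eq_one _ (by rw [mul_comm]; exact h6 f)
        exact h11.mul_right_cancel (h10.trans (h6 f).symm)
  exact hb.iso hb'

end

/-- every set of triples has a list -/
lemma exists_list {m : ℕ} (U : Set (Trip (Fin m))) : ∃ T, TS m T = U := by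
  classical
  refine ⟨(allT m).filter fun s => ∃ t ∈ U, tx t = s, ?_⟩
  have hix : Function.Injective (ix : Fin 4 ⊕ Fin m → ℕ) := by
    rintro (x | x) (y | y) h
    · exact congrArg Sum.inl (Fin.ext h)
    · have h1 : (x : ℕ) = y + 4 := h
      omega
    · have h1 : (x : ℕ) + 4 = y := h
      omega
    · have h1 : (x : ℕ) + 4 = y + 4 := h
      exact congrArg Sum.inr (Fin.ext (by omega))
  ext t
  simp only [TS, List.mem_filter, decide_eq_true_eq, Set.mem_ofPred_eq]
  constructor
  · rintro ⟨-, s, hs, hst⟩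
    rw [tx, tx, Prod.mk.injEq, Prod.mk.injEq] at hst
    obtain ⟨h1, h2, h3⟩ := hst
    have h4 : s = t := Prod.ext (hix h1) (Prod.ext (hix h2) (hix h3))
    rwa [← h4]
  · intro ht
    exact ⟨mem_allT.2 ⟨t, rfl⟩, t, ht, rfl⟩

end Pool.Agent.Helper59.MC
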