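import Pool.Agent.Helper59.MC.Var

/-!
# Decision problems
-/

set_option autoImplicit false
set_option synthInstance.maxSize 4000

open CategoryTheory AlgebraicGeometry

namespace Pool.Agent.Helper59.MC

open Pool.Agent.Q324.SC Pool.Agent.Q324.SC.Idl Pool.Agent.Helper13.RM
  Pool.Agent.Helper3.GU

/-- The matroid `M` has the code `w`. -/
def Coded (w : Code) (M : Matroid (Fin 4 ⊕ Fin w.1)) : Prop :=
  ∀ t : Trip (Fin w.1), M.IsBase (elts t) ↔ tx t ∈ w.2

/-- The matroid `M` is simple, has rank three and a frame, and its moduli space over `ℚ` is smooth and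
integral. -/
structure Nice {m : ℕ} (M : Matroid (Fin 4 ⊕ Fin m)) : Prop where
  framed : Framed M
  simple : IsSimple M
  smooth : Algebra.Smooth ℚ (ModR ℚ M)
  domain : IsDomain (ModR ℚ M)

/-- the decision problem for systems -/
def DecSys (Q : Prp) : Prop :=
  ∃ f : (ℕ × List Poly) →. Bool, Partrec f ∧ ∀ (n : ℕ) (c : List Poly), (J n c).IsPrime →
    ∃ b ∈ f (n, c), (b = true ↔ SysHas Q n c)

/-- the decision problem for moduli spaces -/
def DecMat (Q : Prp) : Prop :=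
  ∃ f : Code →. Bool, Partrec f ∧ ∀ (w : Code) (M : Matroid (Fin 4 ⊕ Fin w.1)), Coded w M →
    Nice M → ∃ b ∈ f w, (b = true ↔ MatHas Q M)

/-- the decision problem for varieties -/
def DecVar (Q : Prp) : Prop :=
  ∃ f : (ℕ × List ℤ × List Poly) →. Bool, Partrec f ∧
    ∀ (n : ℕ) (μ : List ℤ) (c : List Poly) (θ : Qb), Irreducible (pol μ) →
      Polynomial.aeval θ (pol μ) = 0 → ∀ _ : (Ib θ n c).IsPrime,
        ∃ b ∈ f (n, μ, c), (b = true ↔ Q (FractionRing (MvPolynomial (Fin n) Qb ⧸ Ib θ n c)))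

/-- invariance under isomorphisms of fields that are semilinear over `Qb` -/
def CInv (Q : Prp) : Prop :=
  ∀ (L L' : Type) [Field L] [Field L'] [Algebra Qb L] [Algebra Qb L'], Conj L L' → Q L → Q L'

lemma CInv.inv {Q : Prp} (h : CInv Q) : Inv Q := by
  intro L L' _ _ _ _ e
  exact h L L' ⟨RingEquiv.refl _, e.toRingEquiv, fun a => e.commutes a⟩

theorem decMat_of_decSys {Q : Prp} (hQ : Inv Q) (h : DecSys Q) : DecMat Q := by
  obtain ⟨f, hf, hf2⟩ := h
  have h1 : Computable (fun w : Code => ((nv w.1, conf w) : ℕ × List Poly)) := by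
    have h2 : Primrec (fun w : Code => ((nv w.1, conf w) : ℕ × List Poly)) := by fun_prop
    exact h2.to_comp
  refine ⟨fun w => f (nv w.1, conf w), hf.comp h1, fun w M hM hN => ?_⟩
  have := hN.domain
  obtain ⟨h3, h4⟩ := sysHas_conf hQ hM
  obtain ⟨b, hb, hb2⟩ := hf2 _ _ h3
  exact ⟨b, hb, hb2.trans h4⟩

theorem decSys_of_decMat {Q : Prp} (hQ : Inv Q) (h : DecMat Q) : DecSys Q := by
  obtain ⟨f, hf, hf2⟩ := h
  have h1 : Partrec (fun x : ℕ × List Poly => (red x).bind f) :=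
    Partrec.bind (g := fun (_ : ℕ × List Poly) (w : Code) => f w) partrec_red
      (hf.comp Computable.snd)
  refine ⟨fun x => (red x).bind f, h1, fun n c hJ => ?_⟩
  obtain ⟨w, hw⟩ := Part.dom_iff_mem.1 (red_dom hJ)
  obtain ⟨M, m1, m2, m3, m4, m5, m6⟩ := good_has hQ hJ (red_sound hw)
  obtain ⟨b, hb, hb2⟩ := hf2 w M m1 ⟨m2, m3, m4, m5⟩
  exact ⟨b, Part.mem_bind hw hb, hb2.trans m6.symm⟩

/-- the system of a variety -/
theorem psysv : Primrec (fun x : ℕ × List ℤ × List Poly =>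
    ((x.1 + 1, mq x.1 x.2.1 :: x.2.2) : ℕ × List Poly)) := by
  unfold mq
  have h3 : Primrec (fun x : ℕ × List ℤ × List Poly =>
      (List.range x.2.1.length).map fun i =>
        ((x.2.1.getD i 0, (List.range i).map fun _ => x.1) : ℤ × List ℕ)) := by
    refine Primrec.list_map (f := fun x : ℕ × List ℤ × List Poly => List.range x.2.1.length)
      (g := fun (x : ℕ × List ℤ × List Poly) (i : ℕ) =>
        ((x.2.1.getD i 0, (List.range i).map fun _ => x.1) : ℤ × List ℕ)) (by fun_prop) ?_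
    refine Primrec.pair (by fun_prop) ?_
    exact Primrec.list_map (f := fun x : (ℕ × List ℤ × List Poly) × ℕ => List.range x.2)
      (g := fun (x : (ℕ × List ℤ × List Poly) × ℕ) (_ : ℕ) => x.1.1) (by fun_prop)
      (by
        change Primrec (fun y : ((ℕ × List ℤ × List Poly) × ℕ) × ℕ => y.1.1.1)
        fun_prop)
  exact Primrec.pair (by fun_prop) (Primrec.list_cons.comp h3 (by fun_prop))

theorem decVar_of_decSys {Q : Prp} (hQ : CInv Q) (h : DecSys Q) : DecVar Q := by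
  obtain ⟨f, hf, hf2⟩ := h
  refine ⟨fun x => f (x.1 + 1, mq x.1 x.2.1 :: x.2.2), hf.comp psysv.to_comp,
    fun n μ c θ h3 h4 h5 => ?_⟩
  obtain ⟨i1, h6⟩ := comp_var (n := n) (c := c) h3 h4
  obtain ⟨b, hb, hb2⟩ := hf2 (n + 1) (mq n μ :: c) ((Ideal.Quotient.isDomain_iff_prime _).1 i1)
  refine ⟨b, hb, hb2.trans ?_⟩
  rw [sysHas_iff hQ.inv]
  constructor
  · rintro ⟨L, _, _, h7, h8⟩
    exact hQ _ _ (conj_of_comp h7 h6) h8
  · intro h7
    exact ⟨_, _, _, h6, h7⟩

/-- **The computable construction** of a configuration with the function field of a given variety. -/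
theorem exists_red : ∃ F : (ℕ × List ℤ × List Poly) →. Code, Partrec F ∧
    ∀ (n : ℕ) (μ : List ℤ) (c : List Poly) (θ : Qb), Irreducible (pol μ) →
      Polynomial.aeval θ (pol μ) = 0 → ∀ _ : (Ib θ n c).IsPrime,
        ∃ w ∈ F (n, μ, c), ∃ M : Matroid (Fin 4 ⊕ Fin w.1), Coded w M ∧ Nice M ∧
          (∃ (P : Ideal (ModR Qb M)) (_ : P.IsPrime), P ∈ minimalPrimes (ModR Qb M) ∧
            Nonempty (FractionRing (ModR Qb M ⧸ P) ≃ₐ[Qb]
              FractionRing (MvPolynomial (Fin n) Qb ⧸ Ib θ n c))) ∧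
          ∀ (P : Ideal (ModR Qb M)) (_ : P.IsPrime), P ∈ minimalPrimes (ModR Qb M) →
            Conj (FractionRing (ModR Qb M ⧸ P))
              (FractionRing (MvPolynomial (Fin n) Qb ⧸ Ib θ n c)) := by
  refine ⟨fun x => red (x.1 + 1, mq x.1 x.2.1 :: x.2.2), partrec_red.comp psysv.to_comp,
    fun n μ c θ h3 h4 h5 => ?_⟩
  obtain ⟨i1, h6⟩ := comp_var (n := n) (c := c) h3 h4
  have hJ := (Ideal.Quotient.isDomain_iff_prime _).1 i1
  obtain ⟨w, hw⟩ := Part.dom_iff_mem.1 (red_dom hJ)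
  obtain ⟨M, m1, m2, m3, m4, m5, ⟨e⟩⟩ := sound hJ (red_sound hw)
  have h7 : Comp (FractionRing (ModR ℚ M)) (FractionRing (MvPolynomial (Fin n) Qb ⧸ Ib θ n c)) :=
    h6.congr e AlgEquiv.refl
  refine ⟨w, hw, M, m1, ⟨m2, m3, m4, m5⟩, ?_, fun P hP hPm => ?_⟩
  · obtain ⟨P, hP, ⟨e'⟩⟩ := exists_mod {t | M.IsBase (elts t)} h7
    have hPp : P.IsPrime := hP.1.1
    exact ⟨P, hPp, hP, ⟨e'⟩⟩
  · exact conj_of_comp (comp_of_mod {t | M.IsBase (elts t)} hPm) h7

lemma cinv_rat : CInv (fun L _ _ => Rat' L) := fun _ _ _ _ _ _ h1 h2 => h1.rat h2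

lemma cinv_uni : CInv (fun L _ _ => Uni' L) := fun _ _ _ _ _ _ h1 h2 => h1.uni h2

lemma cinv_stab : CInv (fun L _ _ => Stab' L) := fun _ _ _ _ _ _ h1 h2 => h1.stab h2

end Pool.Agent.Helper59.MC
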