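import Pool.Agent.Helper59.MC.Dec

/-!
# The final definitions
-/

set_option autoImplicit false

namespace Pool.Agent.Helper59.MC

open Pool.Agent.Q324.SC Pool.Agent.Q324.SC.Idl Pool.Agent.Helper13.RM
  Pool.Agent.Helper3.GU

/-- `P` is a prime ideal, and the function field of the integral closed subscheme of `Spec A` that it
defines has the property `Q`. -/
def FHas (Q : Prp) {A : Type} [CommRing A] [Algebra Qb A] (P : Ideal A) : Prop :=
  ∃ _ : P.IsPrime, Q (FractionRing (A ⧸ P))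

/-- The function fields defined by the prime ideals `P` and `I` are isomorphic over `Qb`. -/
def FIso {A B : Type} [CommRing A] [Algebra Qb A] [CommRing B] [Algebra Qb B] (P : Ideal A)
    (I : Ideal B) : Prop :=
  ∃ (_ : P.IsPrime) (_ : I.IsPrime), Nonempty (FractionRing (A ⧸ P) ≃ₐ[Qb] FractionRing (B ⧸ I))

/-- The function fields defined by the prime ideals `P` and `I` are isomorphic over an automorphism of
`Qb`. -/
def FConj {A B : Type} [CommRing A] [Algebra Qb A] [CommRing B] [Algebra Qb B] (P : Ideal A)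
    (I : Ideal B) : Prop :=
  ∃ (_ : P.IsPrime) (_ : I.IsPrime), Conj (FractionRing (A ⧸ P)) (FractionRing (B ⧸ I))

/-- A component of `Spec A` has the property `Q`. -/
def CHas (Q : Prp) (A : Type) [CommRing A] [Algebra Qb A] : Prop := ∃ P ∈ minimalPrimes A, FHas Q P

/-- A component of `Spec A` has the function field defined by `I`, and all components have conjugate
function fields. -/
def CModel (A : Type) [CommRing A] [Algebra Qb A] {B : Type} [CommRing B] [Algebra Qb B]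
    (I : Ideal B) : Prop :=
  (∃ P ∈ minimalPrimes A, FIso P I) ∧ ∀ P ∈ minimalPrimes A, FConj P I

/-- A component over `Qb` of the moduli space of the configurations with the matroid `M` has the
property `Q`. -/
def ModHas (Q : Prp) {m : ℕ} (M : Matroid (Fin 4 ⊕ Fin m)) : Prop := CHas Q (ModR Qb M)

/-- A component over `Qb` of the zero set of the polynomials with the codes `c` in `n` variables has the
property `Q`. -/
def ZeroHas (Q : Prp) (n : ℕ) (c : List (List (ℤ × List ℕ))) : Prop :=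
  ∃ P ∈ (ext (J n c)).minimalPrimes, FHas Q P

/-- The triple `(n, μ, c)` and the root `θ` of `μ` define a variety over `Qb`: the zero set of the
polynomials with the codes `c`; their coefficients are integer polynomials in `θ`. -/
structure IsInput (n : ℕ) (μ : List ℤ) (c : List (List (ℤ × List ℕ))) (θ : Qb) : Prop where
  irred : Irreducible (pol μ)
  root : Polynomial.aeval θ (pol μ) = 0
  prime : (Ib θ n c).IsPrime

/-- the decision problem for systems -/
def DecZero (Q : Prp) : Prop :=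
  ∃ f : (ℕ × List (List (ℤ × List ℕ))) →. Bool, Partrec f ∧ ∀ n c, (J n c).IsPrime →
    ∃ b ∈ f (n, c), (b = true ↔ ZeroHas Q n c)

/-- the decision problem for moduli spaces -/
def DecMod (Q : Prp) : Prop :=
  ∃ f : Code →. Bool, Partrec f ∧ ∀ (w : Code) (M : Matroid (Fin 4 ⊕ Fin w.1)), Coded w M →
    Nice M → ∃ b ∈ f w, (b = true ↔ ModHas Q M)

/-- the decision problem for varieties -/
def DecX (Q : Prp) : Prop :=
  ∃ f : (ℕ × List ℤ × List (List (ℤ × List ℕ))) →. Bool, Partrec f ∧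
    ∀ n μ c θ, IsInput n μ c θ → ∃ b ∈ f (n, μ, c), (b = true ↔ FHas Q (Ib θ n c))

lemma sysHas_zero {Q : Prp} {n : ℕ} {c : List Poly} : SysHas Q n c ↔ ZeroHas Q n c :=
  ⟨fun ⟨P, h1, h2, h3⟩ => ⟨P, h2, h1, h3⟩, fun ⟨P, h2, h1, h3⟩ => ⟨P, h1, h2, h3⟩⟩

lemma matHas_mod {Q : Prp} {m : ℕ} {M : Matroid (Fin 4 ⊕ Fin m)} : MatHas Q M ↔ ModHas Q M :=
  ⟨fun ⟨P, h1, h2, h3⟩ => ⟨P, h2, h1, h3⟩, fun ⟨P, h2, h1, h3⟩ => ⟨P, h1, h2, h3⟩⟩

theorem main {Q : Prp} (hQ : CInv Q) : (DecZero Q ↔ DecMod Q) ∧ (DecMod Q → DecX Q) := by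
  have h1 : DecSys Q ↔ DecZero Q := by
    unfold DecSys DecZero
    simp only [sysHas_zero]
  have h2 : DecMat Q ↔ DecMod Q := by
    unfold DecMat DecMod
    simp only [matHas_mod]
  have h3 : DecVar Q → DecX Q := by
    rintro ⟨f, hf, h⟩
    refine ⟨f, hf, fun n μ c θ ⟨i1, i2, i3⟩ => ?_⟩
    obtain ⟨b, hb, hb2⟩ := h n μ c θ i1 i2 i3
    exact ⟨b, hb, hb2.trans ⟨fun h4 => ⟨i3, h4⟩, fun ⟨_, h4⟩ => h4⟩⟩
  rw [← h1, ← h2]
  exact ⟨⟨decMat_of_decSys hQ.inv, decSys_of_decMat hQ.inv⟩,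
    fun h => h3 (decVar_of_decSys hQ (decSys_of_decMat hQ.inv h))⟩

/-- The components over `Qb` of the moduli space of `M` are the conjugates of a given variety. -/
def IsModel {m : ℕ} (M : Matroid (Fin 4 ⊕ Fin m)) {B : Type} [CommRing B] [Algebra Qb B]
    (I : Ideal B) : Prop := CModel (ModR Qb M) I

theorem models : ∃ F : (ℕ × List ℤ × List (List (ℤ × List ℕ))) →. Code, Partrec F ∧
    ∀ n μ c θ, IsInput n μ c θ → ∃ w ∈ F (n, μ, c), ∃ M : Matroid (Fin 4 ⊕ Fin w.1),
      Coded w M ∧ Nice M ∧ IsModel M (Ib θ n c) := by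
  obtain ⟨F, hF, h⟩ := exists_red
  refine ⟨F, hF, fun n μ c θ ⟨i1, i2, i3⟩ => ?_⟩
  obtain ⟨w, hw, M, m1, m2, ⟨P, hP, hPm, h3⟩, h4⟩ := h n μ c θ i1 i2 i3
  exact ⟨w, hw, M, m1, m2, ⟨P, hPm, hP, i3, h3⟩, fun P hP => ⟨hP.1.1, i3, h4 P hP.1.1 hP⟩⟩

end Pool.Agent.Helper59.MC
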