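import Mathlib
import Pool.Graph.R_pool_sql_team_seeded_2aa45f1a.Q324.SC.IdealsVote

/-!
# Codes of polynomials: evaluation, test for zero, membership in ideals over the rational numbers
-/

set_option autoImplicit false

namespace Pool.Agent.Helper59.MC

open Pool.Agent.Q324.SC Pool.Agent.Q324.SC.Idl MvPolynomial

section

variable {C D : Type*} [CommRing C] [CommRing D]

/-- The value of the polynomial with a given code for the values `u i` of the variables. -/
def ev (u : ℕ → C) (p : Poly) : C := (p.map fun t => (t.1 : C) * (t.2.map u).prod).sum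

/-- The values of the first `n` variables; the other ones are ignored. -/
def V (n : ℕ) (u : Fin n → C) : ℕ → C := fun i => if h : i < n then u ⟨i, h⟩ else 1

lemma ev_nil (u : ℕ → C) : ev u [] = 0 := rfl

lemma ev_cons (u : ℕ → C) (t : ℤ × List ℕ) (p : Poly) :
    ev u (t :: p) = (t.1 : C) * (t.2.map u).prod + ev u p := by
  simp [ev]

lemma ev_append (u : ℕ → C) (p q : Poly) : ev u (p ++ q) = ev u p + ev u q := by
  simp [ev]

lemma ev_mul (u : ℕ → C) (p q : Poly) : ev u (mul p q) = ev u p * ev u q := by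
  induction p with
  | nil => simp [mul, ev]
  | cons t p ih =>
    have e : mul (t :: p) q = (q.map fun t' => (t.1 * t'.1, t.2 ++ t'.2)) ++ mul p q := rfl
    rw [e, ev_append, ih, ev_cons, add_mul]
    congr 1
    clear ih e
    induction q with
    | nil => simp [ev]
    | cons t' q ih =>
      rw [List.map_cons, ev_cons, ih, ev_cons, mul_add, List.map_append, List.prod_append]
      push_cast
      ring

lemma map_ev (f : C →+* D) (u : ℕ → C) (p : Poly) : f (ev u p) = ev (fun i => f (u i)) p := by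
  induction p with
  | nil => simp [ev]
  | cons t p ih =>
    rw [ev_cons, ev_cons, map_add, map_mul, ih, map_intCast, map_list_prod, List.map_map]
    rfl

/-- Renaming the variables. -/
def ren (σ : ℕ → ℕ) (p : Poly) : Poly := p.map fun t => (t.1, t.2.map σ)

lemma ev_ren (u : ℕ → C) (σ : ℕ → ℕ) (p : Poly) : ev u (ren σ p) = ev (fun i => u (σ i)) p := by
  induction p with
  | nil => rfl
  | cons t p ih =>
    have e : ren σ (t :: p) = (t.1, t.2.map σ) :: ren σ p := rfl
    rw [e, ev_cons, ev_cons, ih, List.map_map]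
    rfl

lemma map_V (f : C →+* D) (n : ℕ) (u : Fin n → C) :
    (fun i => f (V n u i)) = V n fun i => f (u i) := by
  funext i
  unfold V
  split_ifs
  · rfl
  · exact map_one f

end

lemma val_eq (n : ℕ) (p : Poly) : val n p = ev (V n X) p := by
  induction p with
  | nil => simp [val, ev]
  | cons t p ih =>
    rw [val_cons, ev_cons, ih]
    congr 1

/-- the polynomial over the rational numbers -/
noncomputable def rv (n : ℕ) (p : Poly) : MvPolynomial (Fin n) ℚ :=
  MvPolynomial.map (Int.castRingHom ℚ) (val n p)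

lemma rv_eq (n : ℕ) (p : Poly) : rv n p = ev (V n X) p := by
  rw [rv, val_eq, map_ev, map_V]
  simp

lemma aeval_rv {C : Type*} [CommRing C] [Algebra ℚ C] {n : ℕ} (u : Fin n → C) (p : Poly) :
    aeval u (rv n p) = ev (V n u) p := by
  rw [rv_eq]
  have h1 := map_ev (aeval u : MvPolynomial (Fin n) ℚ →ₐ[ℚ] C).toRingHom (V n X) p
  rw [map_V] at h1
  have h2 : (fun i : Fin n => (aeval u : MvPolynomial (Fin n) ℚ →ₐ[ℚ] C).toRingHom (X i)) = u := by
    funext i
    exact aeval_X u i
  rw [h2] at h1
  exact h1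

lemma J_eq (n : ℕ) (c : List Poly) : J n c = Ideal.span {f | ∃ p ∈ c, f = rv n p} := rfl

lemma rv_mem {n : ℕ} {c : List Poly} {p : Poly} (h : p ∈ c) : rv n p ∈ J n c :=
  Ideal.subset_span ⟨p, h, rfl⟩

/-! ### Test for zero -/

/-- the number of occurrences -/
def cnt' (i : ℕ) (l : List ℕ) : ℕ := (l.map fun j => bif decide (j = i) then 1 else 0).sum

/-- the monomials are equal -/
def same (n : ℕ) (l l' : List ℕ) : Bool :=
  ((List.range n).map fun i => decide (cnt' i l = cnt' i l')).foldr (fun a b => a && b) true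

/-- the coefficient -/
def cf (n : ℕ) (p : Poly) (l : List ℕ) : ℤ := (p.map fun t => bif same n t.2 l then t.1 else 0).sum

/-- test for zero -/
def isZ (n : ℕ) (p : Poly) : Bool :=
  (p.map fun t => decide (cf n p t.2 = 0)).foldr (fun a b => a && b) true

lemma foldr_and {α : Type*} (L : List α) (f : α → Bool) :
    (L.map f).foldr (fun a b => a && b) true = true ↔ ∀ a ∈ L, f a = true := by
  induction L with
  | nil => simp
  | cons a L ih =>
    rw [List.map_cons, List.foldr_cons, Bool.and_eq_true, ih]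
    simp

lemma cnt'_eq (n : ℕ) (l : List ℕ) (i : Fin n) : ex n l i = cnt' i l := by
  induction l with
  | nil => simp [ex, cnt']
  | cons j l ih =>
    have e : cnt' i (j :: l) = (bif decide (j = (i : ℕ)) then 1 else 0) + cnt' i l := by
      simp [cnt']
    rw [ex_cons, Finsupp.add_apply, ih, e]
    congr 1
    by_cases h : j < n
    · rw [dif_pos h, Finsupp.single_apply]
      by_cases h1 : j = (i : ℕ)
      · rw [if_pos (Fin.ext h1)]
        simp [h1]
      · rw [if_neg fun h2 => h1 (congrArg Fin.val h2)]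
        simp [h1]
    · rw [dif_neg h]
      have : j ≠ (i : ℕ) := by have := i.2; omega
      simp [this]

lemma same_iff (n : ℕ) (l l' : List ℕ) : same n l l' = true ↔ ex n l = ex n l' := by
  unfold same
  rw [foldr_and]
  constructor
  · intro h
    ext i
    have := h i (List.mem_range.2 i.2)
    rw [decide_eq_true_eq] at this
    rw [cnt'_eq, cnt'_eq, this]
  · intro h i hi
    rw [List.mem_range] at hi
    rw [decide_eq_true_eq, ← cnt'_eq n l ⟨i, hi⟩, ← cnt'_eq n l' ⟨i, hi⟩, h]

lemma coeff_val_eq (n : ℕ) (p : Poly) (l : List ℕ) : coeff (ex n l) (val n p) = cf n p l := by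
  induction p with
  | nil => simp [val, cf]
  | cons t p ih =>
    have e : cf n (t :: p) l = (bif same n t.2 l then t.1 else 0) + cf n p l := by simp [cf]
    rw [val_cons, coeff_add, ih, e, mon_eq, C_mul_monomial, mul_one, coeff_monomial]
    congr 1
    by_cases h : ex n t.2 = ex n l
    · rw [if_pos h, (same_iff n t.2 l).2 h]
      rfl
    · rw [if_neg h]
      have : same n t.2 l = false := by
        rw [← Bool.not_eq_true, same_iff]
        exact h
      rw [this]
      rfl

lemma exists_term {n : ℕ} {p : Poly} {e : Fin n →₀ ℕ} (h : coeff e (val n p) ≠ 0) :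
    ∃ t ∈ p, ex n t.2 = e := by
  induction p with
  | nil => simp [val] at h
  | cons t p ih =>
    rw [val_cons, coeff_add, mon_eq, C_mul_monomial, mul_one, coeff_monomial] at h
    by_cases h1 : ex n t.2 = e
    · exact ⟨t, List.mem_cons_self, h1⟩
    · rw [if_neg h1, zero_add] at h
      obtain ⟨s, hs, hs2⟩ := ih h
      exact ⟨s, List.mem_cons_of_mem _ hs, hs2⟩

lemma isZ_iff (n : ℕ) (p : Poly) : isZ n p = true ↔ val n p = 0 := by
  unfold isZ
  rw [foldr_and]
  constructor
  · intro h
    ext e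
    rw [coeff_zero]
    by_contra h1
    obtain ⟨t, ht, rfl⟩ := exists_term h1
    have := h t ht
    rw [decide_eq_true_eq, ← coeff_val_eq] at this
    exact h1 this
  · intro h t _
    rw [decide_eq_true_eq, ← coeff_val_eq, h, coeff_zero]

lemma rv_eq_zero (n : ℕ) (p : Poly) : rv n p = 0 ↔ val n p = 0 := by
  have h : Function.Injective (MvPolynomial.map (σ := Fin n) (Int.castRingHom ℚ)) :=
    MvPolynomial.map_injective _ Int.cast_injective
  exact map_eq_zero_iff _ h

/-! ### Membership -/

/-- the combination of the generators `g` with the coefficients and indices in the list `w` -/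
def comb (g : List Poly) (w : List (Poly × ℕ)) : Poly :=
  w.flatMap fun t => mul t.1 (g.getD t.2 [])

/-- the check of a certificate for the membership in the ideal -/
def memc (n : ℕ) (g : List Poly) (f : Poly) (W : ℕ × List (Poly × ℕ)) : Bool :=
  decide (1 ≤ W.1) && isZ n (mul [((W.1 : ℕ), [])] f ++ mul [(-1, [])] (comb g W.2))

lemma rv_append (n : ℕ) (p q : Poly) : rv n (p ++ q) = rv n p + rv n q := by
  rw [rv_eq, rv_eq, rv_eq, ev_append]

lemma rv_mul (n : ℕ) (p q : Poly) : rv n (mul p q) = rv n p * rv n q := by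
  rw [rv_eq, rv_eq, rv_eq, ev_mul]

lemma rv_const (n : ℕ) (a : ℤ) : rv n [(a, [])] = (a : MvPolynomial (Fin n) ℚ) := by
  rw [rv_eq, ev_cons]
  simp [ev]

lemma rv_comb_mem (n : ℕ) (g : List Poly) (w : List (Poly × ℕ)) : rv n (comb g w) ∈ J n g := by
  induction w with
  | nil =>
    have : rv n (comb g []) = 0 := by rw [rv_eq]; rfl
    rw [this]
    exact zero_mem _
  | cons t w ih =>
    have e : comb g (t :: w) = mul t.1 (g.getD t.2 []) ++ comb g w := rfl
    rw [e, rv_append, rv_mul]
    refine add_mem (Ideal.mul_mem_left _ _ ?_) ih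
    by_cases h : t.2 < g.length
    · rw [List.getD_eq_getElem _ _ h]
      exact rv_mem (List.getElem_mem _)
    · rw [List.getD_eq_default _ _ (by omega)]
      have : rv n [] = 0 := by rw [rv_eq]; rfl
      rw [this]
      exact zero_mem _

lemma memc_sound {n : ℕ} {g : List Poly} {f : Poly} {W : ℕ × List (Poly × ℕ)}
    (h : memc n g f W = true) : rv n f ∈ J n g := by
  unfold memc at h
  rw [Bool.and_eq_true, decide_eq_true_eq, isZ_iff, ← rv_eq_zero, rv_append, rv_mul, rv_mul,
    rv_const, rv_const] at h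
  obtain ⟨h1, h2⟩ := h
  have h3 : (W.1 : MvPolynomial (Fin n) ℚ) * rv n f = rv n (comb g W.2) := by
    push_cast at h2
    linear_combination h2
  have h4 : rv n f = C ((W.1 : ℚ)⁻¹) * rv n (comb g W.2) := by
    have h6 : (W.1 : ℚ) ≠ 0 := by
      have : (1 : ℚ) ≤ W.1 := by exact_mod_cast h1
      intro h7
      rw [h7] at this
      norm_num at this
    have h5 : (C ((W.1 : ℚ)⁻¹) : MvPolynomial (Fin n) ℚ) * (W.1 : MvPolynomial (Fin n) ℚ) = 1 := by
      have : (W.1 : MvPolynomial (Fin n) ℚ) = C (W.1 : ℚ) := by simp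
      rw [this, ← C_mul, inv_mul_cancel₀ h6, C_1]
    rw [← h3, ← mul_assoc, h5, one_mul]
  rw [h4]
  exact Ideal.mul_mem_left _ _ (rv_comb_mem n g W.2)

/-- every polynomial over the rational numbers has a multiple with a code -/
lemma exists_code {n : ℕ} (a : MvPolynomial (Fin n) ℚ) :
    ∃ (E : ℕ) (p : Poly), 1 ≤ E ∧ (E : MvPolynomial (Fin n) ℚ) * a = rv n p := by
  induction a using MvPolynomial.induction_on with
  | C r =>
    refine ⟨r.den, [(r.num, [])], r.den_pos, ?_⟩
    rw [rv_const]
    have h1 : (r.den : MvPolynomial (Fin n) ℚ) = C (r.den : ℚ) := by simp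
    have h2 : (r.num : MvPolynomial (Fin n) ℚ) = C (r.num : ℚ) := by simp
    rw [h1, h2, ← C_mul]
    congr 1
    rw [mul_comm]
    exact_mod_cast Rat.mul_den_eq_num r
  | add a b ha hb =>
    obtain ⟨E, p, hE, hp⟩ := ha
    obtain ⟨F, q, hF, hq⟩ := hb
    refine ⟨E * F, mul [((F : ℕ), [])] p ++ mul [((E : ℕ), [])] q, Nat.mul_pos hE hF, ?_⟩
    rw [rv_append, rv_mul, rv_mul, rv_const, rv_const, ← hp, ← hq]
    push_cast
    ring
  | mul_X a i ha =>
    obtain ⟨E, p, hE, hp⟩ := ha
    refine ⟨E, mul p [(1, [(i : ℕ)])], hE, ?_⟩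
    rw [rv_mul, ← hp, mul_assoc]
    congr 2
    rw [rv_eq, ev_cons, ev_nil]
    simp [V]

lemma ev_comb_append {n : ℕ} (g : List Poly) (w w' : List (Poly × ℕ)) :
    rv n (comb g (w ++ w')) = rv n (comb g w) + rv n (comb g w') := by
  have e : comb g (w ++ w') = comb g w ++ comb g w' := by simp [comb]
  rw [e, rv_append]

lemma rv_comb_map {n : ℕ} (g : List Poly) (q : Poly) (w : List (Poly × ℕ)) :
    rv n (comb g (w.map fun t => (mul q t.1, t.2))) = rv n q * rv n (comb g w) := by
  induction w with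
  | nil =>
    have : rv n (comb g []) = 0 := by rw [rv_eq]; rfl
    simp only [List.map_nil]
    rw [this, mul_zero]
  | cons t w ih =>
    have e1 : comb g (t :: w) = mul t.1 (g.getD t.2 []) ++ comb g w := rfl
    have e2 : comb g ((t :: w).map fun t => (mul q t.1, t.2)) =
      mul (mul q t.1) (g.getD t.2 []) ++ comb g (w.map fun t => (mul q t.1, t.2)) := rfl
    rw [e1, e2, rv_append, rv_append, ih, rv_mul, rv_mul, rv_mul]
    ring

lemma exists_comb {n : ℕ} {g : List Poly} {x : MvPolynomial (Fin n) ℚ} (hx : x ∈ J n g) :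
    ∃ (E : ℕ) (w : List (Poly × ℕ)), 1 ≤ E ∧
      (E : MvPolynomial (Fin n) ℚ) * x = rv n (comb g w) := by
  rw [J_eq] at hx
  induction hx using Submodule.span_induction with
  | mem x hx =>
    obtain ⟨p, hp, rfl⟩ := hx
    obtain ⟨i, hi, rfl⟩ := List.mem_iff_getElem.1 hp
    refine ⟨1, [([(1, [])], i)], le_rfl, ?_⟩
    have e : comb g [([(1, [])], i)] = mul [(1, [])] (g.getD i []) ++ [] := rfl
    rw [e, List.append_nil, rv_mul, rv_const, List.getD_eq_getElem _ _ hi]
    simp
  | zero =>
    refine ⟨1, [], le_rfl, ?_⟩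
    have : rv n (comb g []) = 0 := by rw [rv_eq]; rfl
    rw [this, mul_zero]
  | add x y _ _ hx hy =>
    obtain ⟨E, w, hE, hw⟩ := hx
    obtain ⟨F, w', hF, hw'⟩ := hy
    refine ⟨E * F, (w.map fun t => (mul [((F : ℕ), [])] t.1, t.2)) ++
      (w'.map fun t => (mul [((E : ℕ), [])] t.1, t.2)), Nat.mul_pos hE hF, ?_⟩
    rw [ev_comb_append, rv_comb_map, rv_comb_map, rv_const, rv_const, ← hw, ← hw']
    push_cast
    ring
  | smul a x _ hx =>
    obtain ⟨E, w, hE, hw⟩ := hx
    obtain ⟨F, q, hF, hq⟩ := exists_code a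
    refine ⟨F * E, w.map fun t => (mul q t.1, t.2), Nat.mul_pos hF hE, ?_⟩
    rw [rv_comb_map, ← hw, ← hq, smul_eq_mul]
    push_cast
    ring

lemma memc_complete {n : ℕ} {g : List Poly} {f : Poly} (h : rv n f ∈ J n g) :
    ∃ W, memc n g f W = true := by
  obtain ⟨E, w, hE, hw⟩ := exists_comb h
  refine ⟨(E, w), ?_⟩
  unfold memc
  rw [Bool.and_eq_true, decide_eq_true_eq, isZ_iff, ← rv_eq_zero, rv_append, rv_mul, rv_mul,
    rv_const, rv_const]
  refine ⟨hE, ?_⟩
  push_cast
  linear_combination hw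

end Pool.Agent.Helper59.MC
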