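import Pool.Agent.Helper59.MC.Cert

/-!
# The certificates can be checked by a computer
-/

set_option autoImplicit false

namespace Pool.Agent.Helper59.MC

open Pool.Agent.Q324.SC Pool.Agent.Q324.SC.Idl

section

variable {α β σ : Type*} [Primcodable α] [Primcodable β] [Primcodable σ]

@[fun_prop] theorem pgetP (d : β) {f : α → List β} {g : α → ℕ} (hf : Primrec f) (hg : Primrec g) :
    Primrec (fun x => (f x).getD (g x) d) := (Primrec.list_getD d).comp hf hg

@[fun_prop] theorem por {f g : α → Bool} (hf : Primrec f) (hg : Primrec g) :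
    Primrec (fun x => f x || g x) := Primrec.or.comp hf hg

@[fun_prop] theorem pfoldAnd {f : α → List Bool} (hf : Primrec f) :
    Primrec (fun x => (f x).foldr (fun a b => a && b) true) := by
  have h : Primrec (fun L : List Bool => L.foldr (fun a b => a && b) true) := by
    apply Primrec.list_foldr (h := fun (_ : List Bool) (p : Bool × Bool) => p.1 && p.2)
      Primrec.id (Primrec.const true)
    exact Primrec.and.comp (Primrec.fst.comp Primrec.snd) (Primrec.snd.comp Primrec.snd)
  exact h.comp hf

@[fun_prop] theorem pfoldOr {f : α → List Bool} (hf : Primrec f) :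
    Primrec (fun x => (f x).foldr (fun a b => a || b) false) := by
  have h : Primrec (fun L : List Bool => L.foldr (fun a b => a || b) false) := by
    apply Primrec.list_foldr (h := fun (_ : List Bool) (p : Bool × Bool) => p.1 || p.2)
      Primrec.id (Primrec.const false)
    exact Primrec.or.comp (Primrec.fst.comp Primrec.snd) (Primrec.snd.comp Primrec.snd)
  exact h.comp hf

@[fun_prop] theorem pmulP {f g : α → Poly} (hf : Primrec f) (hg : Primrec g) :
    Primrec (fun x => mul (f x) (g x)) := by
  refine pflatMap (g := fun x t => (g x).map fun t' => (t.1 * t'.1, t.2 ++ t'.2)) hf ?_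
  refine pmap (f := fun x : α × (ℤ × List ℕ) => g x.1)
    (g := fun x t' => (x.2.1 * t'.1, x.2.2 ++ t'.2)) (hg.comp Primrec.fst) ?_
  fun_prop

@[fun_prop] theorem pfoldMul {f : α → List Poly} (hf : Primrec f) :
    Primrec (fun x => (f x).foldr mul [(1, [])]) := by
  have h : Primrec (fun L : List Poly => L.foldr mul [(1, [])]) := by
    apply Primrec.list_foldr (h := fun (_ : List Poly) (p : Poly × Poly) => mul p.1 p.2)
      Primrec.id (Primrec.const [(1, [])])
    have : Primrec (fun x : List Poly × Poly × Poly => mul x.2.1 x.2.2) := by fun_prop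
    exact this
  exact h.comp hf

/-- renaming, first variables -/
def rc (n N : ℕ) (p : Poly) : Poly := ren (cut n N) p

/-- renaming, shift -/
def rs (n : ℕ) (p : Poly) : Poly := ren (fun i => i + n) p

@[fun_prop] theorem prc {f g : α → ℕ} {h : α → Poly} (hf : Primrec f) (hg : Primrec g)
    (hh : Primrec h) : Primrec (fun x => rc (f x) (g x) (h x)) := by
  refine pmap (g := fun x t => (t.1, t.2.map (cut (f x) (g x)))) hh ?_
  have h1 : Primrec (fun x : α × (ℤ × List ℕ) => x.2.2.map (cut (f x.1) (g x.1))) := by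
    refine pmap (f := fun x : α × (ℤ × List ℕ) => x.2.2) (g := fun x i => cut (f x.1) (g x.1) i)
      (by fun_prop) ?_
    have hf' : Primrec (fun x : (α × (ℤ × List ℕ)) × ℕ => f x.1.1) := by fun_prop
    have hg' : Primrec (fun x : (α × (ℤ × List ℕ)) × ℕ => g x.1.1) := by fun_prop
    unfold cut
    refine pcond ?_ (by fun_prop) hg'
    have h2 : Primrec (fun x : (α × (ℤ × List ℕ)) × ℕ => decide (x.2 + 1 ≤ f x.1.1)) := by
      fun_prop
    exact h2
  fun_prop

@[fun_prop] theorem prs {f : α → ℕ} {h : α → Poly} (hf : Primrec f)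
    (hh : Primrec h) : Primrec (fun x => rs (f x) (h x)) := by
  refine pmap (g := fun x t => (t.1, t.2.map (fun i => i + f x))) hh ?_
  have h1 : Primrec (fun x : α × (ℤ × List ℕ) => x.2.2.map (fun i => i + f x.1)) := by
    refine pmap (f := fun x : α × (ℤ × List ℕ) => x.2.2) (g := fun x i => i + f x.1)
      (by fun_prop) ?_
    fun_prop
  fun_prop

/-! ### The test for zero and memberships -/

@[fun_prop] theorem pcnt {f : α → ℕ} {g : α → List ℕ} (hf : Primrec f) (hg : Primrec g) :
    Primrec (fun x => cnt' (f x) (g x)) := by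
  unfold cnt'
  refine psum (pmap (g := fun x j => bif decide (j = f x) then 1 else 0) hg ?_)
  fun_prop

@[fun_prop] theorem psame {f : α → ℕ} {g h : α → List ℕ} (hf : Primrec f) (hg : Primrec g)
    (hh : Primrec h) : Primrec (fun x => same (f x) (g x) (h x)) := by
  unfold same
  refine pfoldAnd (pmap (g := fun x i => decide (cnt' i (g x) = cnt' i (h x))) (by fun_prop) ?_)
  fun_prop

@[fun_prop] theorem pcf {f : α → ℕ} {g : α → Poly} {h : α → List ℕ} (hf : Primrec f)
    (hg : Primrec g) (hh : Primrec h) : Primrec (fun x => cf (f x) (g x) (h x)) := by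
  unfold cf
  refine pisum (pmap (g := fun x t => bif same (f x) t.2 (h x) then t.1 else 0) hg ?_)
  fun_prop

@[fun_prop] theorem pisZ {f : α → ℕ} {g : α → Poly} (hf : Primrec f) (hg : Primrec g) :
    Primrec (fun x => isZ (f x) (g x)) := by
  unfold isZ
  refine pfoldAnd (pmap (g := fun x t => decide (cf (f x) (g x) t.2 = 0)) hg ?_)
  fun_prop

@[fun_prop] theorem pcomb {f : α → List Poly} {g : α → List (Poly × ℕ)} (hf : Primrec f)
    (hg : Primrec g) : Primrec (fun x => comb (f x) (g x)) := by
  unfold comb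
  refine pflatMap (g := fun x t => mul t.1 ((f x).getD t.2 [])) hg ?_
  fun_prop

/-- witnesses of memberships -/
abbrev Wm : Type := ℕ × List (Poly × ℕ)

@[fun_prop] theorem pmemc {f : α → ℕ} {g : α → List Poly} {h : α → Poly} {w : α → Wm}
    (hf : Primrec f) (hg : Primrec g) (hh : Primrec h) (hw : Primrec w) :
    Primrec (fun x => memc (f x) (g x) (h x) (w x)) := by
  unfold memc
  fun_prop

/-- the check of several memberships -/
def allm (n : ℕ) (g ts : List Poly) (W : List Wm) : Bool :=
  ((List.range ts.length).map fun i => memc n g (ts.getD i []) (W.getD i (0, []))).foldr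
    (fun a b => a && b) true

@[fun_prop] theorem pallm {f : α → ℕ} {g h : α → List Poly} {w : α → List Wm}
    (hf : Primrec f) (hg : Primrec g) (hh : Primrec h) (hw : Primrec w) :
    Primrec (fun x => allm (f x) (g x) (h x) (w x)) := by
  unfold allm
  refine pfoldAnd (pmap (g := fun x i => memc (f x) (g x) ((h x).getD i []) ((w x).getD i (0, [])))
    (by fun_prop) ?_)
  fun_prop

/-! ### The lists of equations -/

@[fun_prop] theorem pGr {n m E : α → ℕ} {c ψ : α → List Poly} (hn : Primrec n) (hm : Primrec m)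
    (hc : Primrec c) (hE : Primrec E) (hψ : Primrec ψ) :
    Primrec (fun x => Gr (n x) (m x) (c x) (E x) (ψ x)) := by
  have e : (fun x => Gr (n x) (m x) (c x) (E x) (ψ x)) = fun x =>
      (c x).map (fun p => rc (n x) (n x + m x) p) ++ (List.range (m x)).map fun j =>
        [((E x : ℤ), [n x + j])] ++ mul [(-1, [])] (rc (n x) (n x + m x) ((ψ x).getD j [])) := rfl
  rw [e]
  refine pappend (pmap (g := fun x p => rc (n x) (n x + m x) p) hc (by fun_prop))
    (pmap (g := fun x j => [((E x : ℤ), [n x + j])] ++
      mul [(-1, [])] (rc (n x) (n x + m x) ((ψ x).getD j []))) (by fun_prop) ?_)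
  fun_prop

@[fun_prop] theorem ptg1 {n : α → ℕ} {c : α → List Poly} (hn : Primrec n) (hc : Primrec c) :
    Primrec (fun x => tg1 (n x) (c x)) := by
  have e : (fun x => tg1 (n x) (c x)) = fun x => (c x).map (fun p => rs (n x) p) := rfl
  rw [e]
  exact pmap (g := fun x p => rs (n x) p) hc (by fun_prop)

@[fun_prop] theorem ptg2 {n E : α → ℕ} {φ : α → List Poly} (hn : Primrec n) (hE : Primrec E)
    (hφ : Primrec φ) : Primrec (fun x => tg2 (n x) (E x) (φ x)) := by
  have e : (fun x => tg2 (n x) (E x) (φ x)) = fun x => (List.range (n x)).map fun i =>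
      [((E x : ℤ), [i])] ++ mul [(-1, [])] (rs (n x) ((φ x).getD i [])) := rfl
  rw [e]
  refine pmap (g := fun x i => [((E x : ℤ), [i])] ++ mul [(-1, [])] (rs (n x) ((φ x).getD i [])))
    (by fun_prop) ?_
  fun_prop

@[fun_prop] theorem ptg3 {n E : α → ℕ} {φ : α → List Poly} (hn : Primrec n) (hE : Primrec E)
    (hφ : Primrec φ) : Primrec (fun x => tg3 (n x) (E x) (φ x)) := by
  unfold tg3
  refine pmap (g := fun x i => [((E x : ℤ), [i])] ++ mul [(-1, [])] ((φ x).getD i []))
    (by fun_prop) ?_
  fun_prop

@[fun_prop] theorem psq {c : α → List Poly} (hc : Primrec c) : Primrec (fun x => sq (c x)) := by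
  unfold sq
  refine pflatMap (g := fun x p => (c x).map fun q => mul p q) hc ?_
  refine pmap (f := fun x : α × Poly => c x.1) (g := fun x q => mul x.2 q) (by fun_prop) ?_
  fun_prop

@[fun_prop] theorem ploc {n : α → ℕ} {c : α → List Poly} {s : α → Poly} (hn : Primrec n)
    (hc : Primrec c) (hs : Primrec s) : Primrec (fun x => loc (n x) (c x) (s x)) := by
  have e : (fun x => loc (n x) (c x) (s x)) = fun x => (c x).map (fun p => rc (n x) (n x + 1) p) ++
      [mul [(1, [n x])] (rc (n x) (n x + 1) (s x)) ++ [(-1, [])]] := rfl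
  rw [e]
  refine pappend (pmap (g := fun x p => rc (n x) (n x + 1) p) hc (by fun_prop)) ?_
  fun_prop

@[fun_prop] theorem pmT {T : α → List (ℕ × ℕ × ℕ)} {t : α → ℕ × ℕ × ℕ} (hT : Primrec T)
    (ht : Primrec t) : Primrec (fun x => mT (T x) (t x)) := by
  unfold mT
  refine pfoldOr (pmap (g := fun x s => decide (s = t x)) hT ?_)
  fun_prop

@[fun_prop] theorem pneg {f : α → Poly} (hf : Primrec f) : Primrec (fun x => neg (f x)) := by
  unfold neg
  fun_prop

@[fun_prop] theorem pco {a c : α → ℕ} (ha : Primrec a) (hc : Primrec c) :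
    Primrec (fun x => co (a x) (c x)) := by
  unfold co
  fun_prop

@[fun_prop] theorem pdp {a b c : α → ℕ} (ha : Primrec a) (hb : Primrec b) (hc : Primrec c) :
    Primrec (fun x => dp (a x) (b x) (c x)) := by
  unfold dp
  fun_prop

@[fun_prop] theorem pallT {m : α → ℕ} (hm : Primrec m) : Primrec (fun x => allT (m x)) := by
  unfold allT
  refine pflatMap (g := fun x a => (List.range (m x + 4)).flatMap fun b =>
    (List.range (m x + 4)).map fun c => (a, b, c)) (by fun_prop) ?_
  refine pflatMap (f := fun x : α × ℕ => List.range (m x.1 + 4))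
    (g := fun x b => (List.range (m x.1 + 4)).map fun c => (x.2, b, c)) (by fun_prop) ?_
  refine pmap (f := fun x : (α × ℕ) × ℕ => List.range (m x.1.1 + 4))
    (g := fun x c => (x.1.2, x.2, c)) (by fun_prop) ?_
  fun_prop

@[fun_prop] theorem plx {T : α → List (ℕ × ℕ × ℕ)} {a : α → ℕ} (hT : Primrec T)
    (ha : Primrec a) : Primrec (fun x => lx (T x) (a x)) := by
  unfold lx
  fun_prop

@[fun_prop] theorem pprp {m : α → ℕ} {T : α → List (ℕ × ℕ × ℕ)} (hm : Primrec m)
    (hT : Primrec T) : Primrec (fun x => prp (m x) (T x)) := by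
  unfold prp
  refine pfoldMul (pmap (g := fun x t => bif mT (T x) t then dp t.1 t.2.1 t.2.2 else [(1, [])])
    (by fun_prop) ?_)
  fun_prop

@[fun_prop] theorem pconf {w : α → Code} (hw : Primrec w) : Primrec (fun x => conf (w x)) := by
  unfold conf
  refine pappend (pappend (pmap (g := fun x t => bif mT (w x).2 t then [] else dp t.1 t.2.1 t.2.2)
    (by fun_prop) (by fun_prop)) (pmap (g := fun x k => co (k + 4) (lx (w x).2 (k + 4)) ++
      [(-1, [])]) (by fun_prop) (by fun_prop))) ?_
  fun_prop

@[fun_prop] theorem pnv {m : α → ℕ} (hm : Primrec m) : Primrec (fun x => nv (m x)) := by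
  unfold nv
  fun_prop

@[fun_prop] theorem pmu {a d : α → ℕ} {l : α → Poly} (ha : Primrec a) (hd : Primrec d)
    (hl : Primrec l) : Primrec (fun x => mu (a x) (d x) (l x)) := by
  unfold mu
  have h1 : Primrec (fun x => (List.range (d x + 1)).map fun _ => (0 : ℕ)) :=
    pmap (g := fun _ _ => 0) (by fun_prop) (by fun_prop)
  fun_prop

@[fun_prop] theorem phpr {L : α → List Pc} (hL : Primrec L) : Primrec (fun x => hpr (L x)) := by
  unfold hpr
  refine pfoldMul (pmap (g := fun _ q => q.1.2) hL ?_)
  fun_prop

@[fun_prop] theorem psmp {w : α → Code} (hw : Primrec w) : Primrec (fun x => smp (w x)) := by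
  unfold smp
  refine pfoldAnd (pmap (g := fun x a => ((List.range ((w x).1 + 4)).map fun b =>
    (decide (a = b) || ((List.range ((w x).1 + 4)).map fun c => mT (w x).2 (a, b, c)).foldr
      (fun a b => a || b) false)).foldr (fun a b => a && b) true) (by fun_prop) ?_)
  refine pfoldAnd (pmap (f := fun x : α × ℕ => List.range ((w x.1).1 + 4)) (g := fun x b =>
    (decide (x.2 = b) || ((List.range ((w x.1).1 + 4)).map fun c => mT (w x.1).2 (x.2, b, c)).foldr
      (fun a b => a || b) false)) (by fun_prop) ?_)
  refine por (by fun_prop) ?_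
  refine pfoldOr (pmap (f := fun x : (α × ℕ) × ℕ => List.range ((w x.1.1).1 + 4))
    (g := fun x c => mT (w x.1.1).2 (x.1.2, x.2, c)) (by fun_prop) ?_)
  fun_prop

end

end Pool.Agent.Helper59.MC
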