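import Pool.Agent.Helper59.MC.Check

set_option autoImplicit false
set_option synthInstance.maxSize 4000

namespace Pool.Agent.Helper59.MC

open Pool.Agent.Q324.SC Pool.Agent.Q324.SC.Idl

section

variable {α γ κ : Type*} [Primcodable α] [Primcodable γ] [Primcodable κ]

/-- one step of a search -/
def gstep (C : α → γ → Bool) (pr : γ → κ) (x : α) (k : ℕ) : Option κ :=
  (Encodable.decode (α := γ) k).bind fun z => bif C x z then some (pr z) else none

/-- a search -/
def gred (C : α → γ → Bool) (pr : γ → κ) (x : α) : Part κ := Nat.rfindOpt (gstep C pr x)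

theorem partrec_gred {C : α → γ → Bool} {pr : γ → κ}
    (hC : Primrec (fun x : α × γ => C x.1 x.2)) (hp : Primrec pr) : Partrec (gred C pr) := by
  have h1 : Primrec (fun p : α × ℕ => Encodable.decode (α := γ) p.2) :=
    Primrec.decode.comp Primrec.snd
  have h2 : Primrec (fun p : (α × ℕ) × γ => bif C p.1.1 p.2 then some (pr p.2) else none) :=
    Primrec.cond (hC.comp (Primrec.pair (Primrec.fst.comp Primrec.fst) Primrec.snd))
      (Primrec.option_some.comp (hp.comp Primrec.snd)) (Primrec.const none)
  have h3 : Primrec (fun p : α × ℕ => gstep C pr p.1 p.2) :=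
    Primrec.option_bind (g := fun (p : α × ℕ) (z : γ) =>
      bif C p.1 z then some (pr z) else none) h1 h2
  have h : Computable₂ (gstep C pr) := h3.to_comp
  exact Partrec.rfindOpt h

omit [Primcodable α] [Primcodable κ] in
lemma gred_sound {C : α → γ → Bool} {pr : γ → κ} {x : α} {w : κ} (h : w ∈ gred C pr x) :
    ∃ z, pr z = w ∧ C x z = true := by
  obtain ⟨k, hk⟩ := Nat.rfindOpt_spec h
  unfold gstep at hk
  rw [Option.mem_def, Option.bind_eq_some_iff] at hk
  obtain ⟨z, -, hz⟩ := hk
  cases hc : C x z
  · rw [hc, cond_false] at hz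
    exact absurd hz (by simp)
  · rw [hc, cond_true, Option.some.injEq] at hz
    exact ⟨z, hz, hc⟩

omit [Primcodable α] [Primcodable κ] in
lemma gred_dom {C : α → γ → Bool} {pr : γ → κ} {x : α} {z : γ} (h : C x z = true) :
    (gred C pr x).Dom := by
  refine Nat.rfindOpt_dom.2 ⟨Encodable.encode z, pr z, ?_⟩
  unfold gstep
  rw [Encodable.encodek, Option.mem_def, Option.bind_some, h, cond_true]

end

/-- **The search** for a moduli space with the function field of a given system. -/
def red (x : ℕ × List Poly) : Part Code := gred chk (fun z : Ct => z.1.1) x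

theorem partrec_red : Partrec red := partrec_gred pchk (by fun_prop)

lemma red_sound {x : ℕ × List Poly} {w : Code} (h : w ∈ red x) : Good x.1 x.2 w := by
  obtain ⟨z, rfl, hz⟩ := gred_sound h
  exact chk_sound hz

lemma red_dom {n : ℕ} {c : List Poly} (hJ : (J n c).IsPrime) : (red (n, c)).Dom := by
  obtain ⟨w, hw⟩ := complete hJ
  obtain ⟨z, -, hz2⟩ := chk_complete hw
  exact gred_dom hz2

end Pool.Agent.Helper59.MC
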