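import Pool.Agent.Helper59.MC.Ans

/-!
# Varieties over the field of the algebraic numbers
-/

set_option autoImplicit false

namespace Pool.Agent.Helper59.MC

open Pool.Agent.Q324.SC Pool.Agent.Q324.SC.Idl MvPolynomial

/-- The polynomial with the given list of coefficients. -/
noncomputable def pol (μ : List ℤ) : Polynomial ℚ :=
  ∑ i ∈ Finset.range μ.length, Polynomial.C (μ.getD i 0 : ℚ) * Polynomial.X ^ i

/-- the code of the polynomial in the variable with the number `n` -/
def mq (n : ℕ) (μ : List ℤ) : Poly :=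
  (List.range μ.length).map fun i => (μ.getD i 0, (List.range i).map fun _ => n)

/-- The polynomial over `Qb` with a given code; the variable with the number `n` stands for the
algebraic number `θ`. -/
noncomputable def vb (θ : Qb) (n : ℕ) (p : Poly) : MvPolynomial (Fin n) Qb :=
  ev (V (n + 1) (Fin.snoc (α := fun _ => MvPolynomial (Fin n) Qb) X (C θ))) p

/-- The ideal over `Qb` with given codes of generators. -/
noncomputable def Ib (θ : Qb) (n : ℕ) (c : List Poly) : Ideal (MvPolynomial (Fin n) Qb) :=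
  Ideal.span {f | ∃ p ∈ c, f = vb θ n p}

section

variable {D D' : Type*} [CommRing D] [CommRing D']

lemma ev_mq_sum (u : ℕ → D) (n : ℕ) (μ : List ℤ) :
    ev u (mq n μ) = ∑ i ∈ Finset.range μ.length, (μ.getD i 0 : D) * u n ^ i := by
  have h1 : ev u (mq n μ) = ((List.range μ.length).map fun i => (μ.getD i 0 : D) * u n ^ i).sum := by
    unfold ev mq
    rw [List.map_map]
    congr 2
    funext i
    simp
  rw [h1, ← List.sum_toFinset _ List.nodup_range, List.toFinset_range]

lemma ev_mq [Algebra ℚ D] (u : ℕ → D) (n : ℕ) (μ : List ℤ) :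
    ev u (mq n μ) = Polynomial.aeval (u n) (pol μ) := by
  rw [ev_mq_sum, pol, map_sum]
  refine Finset.sum_congr rfl fun i _ => ?_
  simp

lemma ev_mq_map (f : D →+* D') (u : ℕ → D) (v : ℕ → D') (m n : ℕ) (μ : List ℤ) (h : v n = f (u m)) :
    ev v (mq n μ) = f (ev u (mq m μ)) := by
  rw [ev_mq_sum, ev_mq_sum, map_sum, h]
  refine Finset.sum_congr rfl fun i _ => ?_
  simp

lemma map_vb {θ : Qb} {n : ℕ} (f : MvPolynomial (Fin n) Qb →+* D) (p : Poly) :
    f (vb θ n p) = ev (V (n + 1) (Fin.snoc (α := fun _ => D) (fun i => f (X i)) (f (C θ)))) p := by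
  have h1 := map_ev f
    (V (n + 1) (Fin.snoc (α := fun _ => MvPolynomial (Fin n) Qb) X (C θ))) p
  rw [map_V] at h1
  have h2 : (fun i : Fin (n + 1) => f
      (Fin.snoc (α := fun _ => MvPolynomial (Fin n) Qb) X (C θ) i)) =
      Fin.snoc (α := fun _ => D) (fun i => f (X i)) (f (C θ)) := by
    funext i
    refine Fin.lastCases ?_ (fun j => ?_) i
    · rw [Fin.snoc_last, Fin.snoc_last]
    · rw [Fin.snoc_castSucc, Fin.snoc_castSucc]
  rw [h2] at h1
  exact h1

end

lemma pol_dvd {μ : List ℤ} {θ : Qb} (h1 : Irreducible (pol μ)) (h2 : Polynomial.aeval θ (pol μ) = 0) :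
    pol μ ∣ minpoly ℚ θ := by
  have h3 : IsIntegral ℚ θ := (AlgebraicClosure.isAlgebraic ℚ).isIntegral.isIntegral θ
  exact (minpoly.irreducible h3).dvd_symm h1 (minpoly.dvd ℚ θ h2)

open TensorProduct in
/-- the tensor product over a field -/
lemma exists_tensor {k A Q : Type} [Field k] [CommRing A] [Field Q] (f : k →+* A) (g : k →+* Q) :
    ∃ (T : Type) (_ : CommRing T) (iL : A →+* T) (iR : Q →+* T), Function.Injective iL ∧
      ∀ x, iL (f x) = iR (g x) := by
  let _ : Algebra k A := f.toAlgebra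
  let _ : Algebra k Q := g.toAlgebra
  refine ⟨A ⊗[k] Q, inferInstance, Algebra.TensorProduct.includeLeftRingHom,
    (Algebra.TensorProduct.includeRight : Q →ₐ[k] A ⊗[k] Q).toRingHom, ?_, fun x => ?_⟩
  · exact Algebra.TensorProduct.includeLeft_injective (S := k) g.injective
  · exact ((Algebra.TensorProduct.includeLeft : A →ₐ[k] A ⊗[k] Q).commutes x).trans
      ((Algebra.TensorProduct.includeRight : Q →ₐ[k] A ⊗[k] Q).commutes x).symm

section

variable {θ : Qb} {n : ℕ} {c : List Poly} {μ : List ℤ}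

/-- the system of a variety has a solution -/
lemma sol_of_hom (h2 : Polynomial.aeval θ (pol μ) = 0) {D : Type*} [CommRing D]
    (f : MvPolynomial (Fin n) Qb →+* D) (hf : Ib θ n c ≤ RingHom.ker f) :
    Sol (n + 1) (mq n μ :: c) (Fin.snoc (α := fun _ => D) (fun i => f (X i)) (f (C θ))) := by
  intro p hp
  rw [List.mem_cons] at hp
  rcases hp with rfl | hp
  · have h3 := ev_mq (fun _ => θ) 0 μ
    rw [h2] at h3
    rw [ev_mq_map (f.comp C) (fun _ => θ) _ 0 n μ (by
      rw [V_lt (Nat.lt_succ_self n)]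
      exact Fin.snoc_last _ _), h3, map_zero]
  · rw [← map_vb]
    exact hf (Ideal.subset_span ⟨p, hp, rfl⟩)

/-- The variety over `Qb` is a component of a system over the integers. -/
theorem comp_var (h1 : Irreducible (pol μ)) (h2 : Polynomial.aeval θ (pol μ) = 0)
    [hI : (Ib θ n c).IsPrime] : ∃ _ : IsDomain (S (n + 1) (mq n μ :: c)),
      Comp (FractionRing (S (n + 1) (mq n μ :: c)))
        (FractionRing (MvPolynomial (Fin n) Qb ⧸ Ib θ n c)) := by
  have hu := sol_of_hom (c := c) h2 (Ideal.Quotient.mk (Ib θ n c)) (by rw [Ideal.mk_ker])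
  obtain ⟨φ, hφ⟩ := hu.lift
  -- the field generated by the number
  let m : Polynomial ℚ := minpoly ℚ θ
  have hm : Irreducible m :=
    minpoly.irreducible ((AlgebraicClosure.isAlgebraic ℚ).isIntegral.isIntegral θ)
  have hF : Fact (Irreducible m) := ⟨hm⟩
  let τ : S (n + 1) (mq n μ :: c) := gs (n + 1) (mq n μ :: c) (Fin.last n)
  have hτ : Polynomial.aeval τ (pol μ) = 0 := by
    have h3 := sol_gs (n := n + 1) (c := mq n μ :: c) (mq n μ) List.mem_cons_self
    rw [ev_mq, V_lt (Nat.lt_succ_self n)] at h3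
    exact h3
  have hτ' : Polynomial.aeval τ m = 0 := by
    obtain ⟨q, hq⟩ := pol_dvd h1 h2
    change Polynomial.aeval τ (minpoly ℚ θ) = 0
    rw [hq, map_mul, hτ, zero_mul]
  let kA : AdjoinRoot m →+* S (n + 1) (mq n μ :: c) :=
    AdjoinRoot.lift (algebraMap ℚ _) τ hτ'
  let kQ : AdjoinRoot m →+* Qb := AdjoinRoot.lift (algebraMap ℚ _) θ (minpoly.aeval ℚ θ)
  obtain ⟨T, _, iL, iR, hinj, hT⟩ := exists_tensor kA kQ
  have hLR : iR θ = iL τ := by
    have h3 : kQ (AdjoinRoot.root m) = θ := AdjoinRoot.lift_root _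
    have h4 : kA (AdjoinRoot.root m) = τ := AdjoinRoot.lift_root _
    rw [← h3, ← h4, hT]
  let F : MvPolynomial (Fin n) Qb →+* T :=
    eval₂Hom iR fun i => iL (gs (n + 1) (mq n μ :: c) i.castSucc)
  have hF0 : Ib θ n c ≤ RingHom.ker F := by
    unfold Ib
    rw [Ideal.span_le]
    rintro _ ⟨p, hp, rfl⟩
    change F (vb θ n p) = 0
    rw [map_vb]
    have h3 := congrArg iL (sol_gs (n := n + 1) (c := mq n μ :: c) p (List.mem_cons_of_mem _ hp))
    rw [map_zero, map_ev, map_V] at h3
    rw [← h3]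
    congr 2
    funext i
    refine Fin.lastCases ?_ (fun j => ?_) i
    · rw [Fin.snoc_last]
      change eval₂Hom iR _ (C θ) = iL τ
      rw [eval₂Hom_C, hLR]
    · rw [Fin.snoc_castSucc]
      change eval₂Hom iR _ (X j) = _
      rw [eval₂Hom_X']
  let G := Ideal.Quotient.lift (Ib θ n c) F fun a ha => hF0 ha
  have hG : ∀ a, G (φ a) = iL a := by
    let _ : Algebra ℚ T := (iL.comp (algebraMap ℚ _)).toAlgebra
    have h3 : (G.comp φ.toRingHom).toRatAlgHom = iL.toRatAlgHom := by
      refine S_ext fun i => ?_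
      change G (φ (gs _ _ i)) = iL (gs _ _ i)
      rw [hφ]
      refine Fin.lastCases ?_ (fun j => ?_) i
      · rw [Fin.snoc_last]
        change eval₂Hom iR _ (C θ) = iL τ
        rw [eval₂Hom_C, hLR]
      · rw [Fin.snoc_castSucc]
        change eval₂Hom iR _ (X j) = _
        rw [eval₂Hom_X']
    intro a
    exact DFunLike.congr_fun h3 a
  have hφi : Function.Injective φ := by
    intro a b hab
    apply hinj
    rw [← hG, ← hG, hab]
  have hD : IsDomain (S (n + 1) (mq n μ :: c)) := hφi.isDomain φ.toRingHom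
  refine ⟨hD, ?_⟩
  let j : S (n + 1) (mq n μ :: c) →+* FractionRing (MvPolynomial (Fin n) Qb ⧸ Ib θ n c) :=
    (algebraMap _ _).comp φ.toRingHom
  have hj : Function.Injective j := (IsFractionRing.injective (MvPolynomial (Fin n) Qb ⧸ Ib θ n c)
    (FractionRing (MvPolynomial (Fin n) Qb ⧸ Ib θ n c))).comp hφi
  refine ⟨IsFractionRing.lift hj, ?_⟩
  have h5 : Algebra.adjoin Qb (Set.range φ) = ⊤ := by
    have h6 : (Algebra.adjoin Qb (Set.range (X : Fin n → MvPolynomial (Fin n) Qb))).map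
        (Ideal.Quotient.mkₐ Qb (Ib θ n c)) ≤ Algebra.adjoin Qb (Set.range φ) := by
      rw [AlgHom.map_adjoin]
      refine Algebra.adjoin_mono ?_
      rintro _ ⟨_, ⟨i, rfl⟩, rfl⟩
      refine ⟨gs _ _ i.castSucc, ?_⟩
      rw [hφ, Fin.snoc_castSucc]
      rfl
    rw [MvPolynomial.adjoin_range_X, Algebra.map_top, (AlgHom.range_eq_top _).2
      (Ideal.Quotient.mkₐ_surjective Qb (Ib θ n c))] at h6
    exact eq_top_iff.2 h6
  have h7 := adjoin_frac (L := FractionRing (MvPolynomial (Fin n) Qb ⧸ Ib θ n c)) h5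
  rw [eq_top_iff, ← h7]
  refine IntermediateField.adjoin.mono _ _ _ ?_
  rintro _ ⟨_, ⟨a, rfl⟩, rfl⟩
  exact ⟨algebraMap _ _ a, IsFractionRing.lift_algebraMap hj a⟩

end

end Pool.Agent.Helper59.MC
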